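import Mathlib

/-!
# A local dimension argument for common zeros
-/

open MvPolynomial

namespace Pool.Agent.Work.MP_f82ddf_nt

section

variable {k : Type*} [Field k] {m : ℕ}

open Classical in
/-- Setting the variables in `T` to zero. -/
noncomputable def killVars (T : Finset (Fin m)) :
    MvPolynomial (Fin m) k →ₐ[k] MvPolynomial (Fin m) k :=
  aeval fun j => if j ∈ T then 0 else X j

theorem sub_killVars_mem (T : Finset (Fin m)) (p : MvPolynomial (Fin m) k) :
    p - killVars T p ∈ Ideal.span ((X : Fin m → MvPolynomial (Fin m) k) '' (T : Set (Fin m))) := by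
  classical
  induction p using MvPolynomial.induction_on with
  | C a => simp [killVars]
  | add p q hp hq =>
    have : p + q - killVars T (p + q) = (p - killVars T p) + (q - killVars T q) := by
      rw [map_add]; ring
    rw [this]
    exact Ideal.add_mem _ hp hq
  | mul_X p j hp =>
    by_cases hj : j ∈ T
    · have h1 : killVars T (X j : MvPolynomial (Fin m) k) = 0 := by
        simp [killVars, hj]
      rw [map_mul, h1, mul_zero, sub_zero]
      exact Ideal.mul_mem_left _ _ (Ideal.subset_span ⟨j, hj, rfl⟩)
    · have h1 : killVars T (X j : MvPolynomial (Fin m) k) = X j := by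
        simp [killVars, hj]
      rw [map_mul, h1]
      have : p * X j - killVars T p * X j = (p - killVars T p) * X j := by ring
      rw [this]
      exact Ideal.mul_mem_right _ _ hp

theorem span_eq_ker (T : Finset (Fin m)) :
    Ideal.span ((X : Fin m → MvPolynomial (Fin m) k) '' (T : Set (Fin m))) =
      RingHom.ker (killVars (k := k) T) := by
  classical
  apply le_antisymm
  · rw [Ideal.span_le]
    rintro _ ⟨j, hj, rfl⟩
    have hj' : j ∈ T := hj
    simp [killVars, hj', RingHom.mem_ker]
  · intro p hp
    rw [RingHom.mem_ker] at hp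
    have := sub_killVars_mem T p
    rwa [hp, sub_zero] at this

instance isPrime_span (T : Finset (Fin m)) :
    (Ideal.span ((X : Fin m → MvPolynomial (Fin m) k) '' (T : Set (Fin m)))).IsPrime := by
  rw [span_eq_ker]
  exact RingHom.ker_isPrime _

theorem card_le_height (T : Finset (Fin m)) :
    (T.card : ℕ∞) ≤
      (Ideal.span ((X : Fin m → MvPolynomial (Fin m) k) '' (T : Set (Fin m)))).height := by
  classical
  induction T using Finset.induction_on with
  | empty => simp
  | insert a T ha ih =>
    rw [Finset.card_insert_of_notMem ha]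
    have hlt : Ideal.span ((X : Fin m → MvPolynomial (Fin m) k) '' (T : Set (Fin m))) <
        Ideal.span ((X : Fin m → MvPolynomial (Fin m) k) '' ((insert a T : Finset (Fin m)) : Set (Fin m))) := by
      refine lt_of_le_of_ne (Ideal.span_mono (Set.image_mono (by simp))) ?_
      intro heq
      have h1 : (X a : MvPolynomial (Fin m) k) ∈
          Ideal.span ((X : Fin m → MvPolynomial (Fin m) k) '' (T : Set (Fin m))) := by
        rw [heq]
        exact Ideal.subset_span ⟨a, by simp, rfl⟩
      rw [span_eq_ker, RingHom.mem_ker] at h1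
      simp [killVars, ha] at h1
    have h2 := Ideal.height_add_one_le_of_lt_of_isPrime hlt
    refine le_trans ?_ h2
    push_cast
    gcongr

/-- Local dimension argument.  Let `z` be a zero of the polynomials in `J`, with `z i ≠ 0`.
Suppose that every common zero `c` of `J` satisfies `c i * c j = 0` for all `j` in `T`.  Then `J`
has at least `card T` elements, and at least `card T + 1` elements if some element of `J` does
not vanish identically on the coordinate subspace `c j = 0` for `j ∈ T`. -/
theorem card_le_of_zeros [IsAlgClosed k] (J : Finset (MvPolynomial (Fin m) k)) (z : Fin m → k)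
    (hz : ∀ G ∈ J, aeval z G = 0) (i : Fin m) (hi : z i ≠ 0) (T : Finset (Fin m))
    (h : ∀ c : Fin m → k, (∀ G ∈ J, aeval c G = 0) → ∀ j ∈ T, c i * c j = 0) :
    T.card ≤ J.card ∧ ((∃ G ∈ J, killVars T G ≠ 0) → T.card + 1 ≤ J.card) := by
  classical
  have hle : Ideal.span (J : Set (MvPolynomial (Fin m) k)) ≤ vanishingIdeal k {z} := by
    rw [Ideal.span_le]
    intro G hG
    rw [SetLike.mem_coe, mem_vanishingIdeal_singleton_iff]
    exact hz G hG
  have hprime : (vanishingIdeal k ({z} : Set (Fin m → k))).IsPrime := inferInstance
  obtain ⟨q, hq, hqz⟩ := Ideal.exists_minimalPrimes_le hle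
  have hqprime : q.IsPrime := hq.1.1
  have hJq : Ideal.span (J : Set (MvPolynomial (Fin m) k)) ≤ q := hq.1.2
  have hheight : q.height ≤ J.card := Ideal.height_le_card_of_mem_minimalPrimes_span_finset hq
  have hXi : (X i : MvPolynomial (Fin m) k) ∉ q := by
    intro hmem
    have := hqz hmem
    rw [mem_vanishingIdeal_singleton_iff, aeval_X] at this
    exact hi this
  have hXj : ∀ j ∈ T, (X j : MvPolynomial (Fin m) k) ∈ q := by
    intro j hj
    have h1 : (X i * X j : MvPolynomial (Fin m) k) ∈
        vanishingIdeal k (zeroLocus k (Ideal.span (J : Set (MvPolynomial (Fin m) k)))) := by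
      rw [mem_vanishingIdeal_iff]
      intro c hc
      rw [map_mul, aeval_X, aeval_X]
      refine h c ?_ j hj
      intro G hG
      rw [mem_zeroLocus_iff] at hc
      exact hc G (Ideal.subset_span hG)
    rw [vanishingIdeal_zeroLocus_eq_radical] at h1
    have h2 : (X i * X j : MvPolynomial (Fin m) k) ∈ q := by
      have : (Ideal.span (J : Set (MvPolynomial (Fin m) k))).radical ≤ q :=
        (Ideal.IsPrime.radical_le_iff hqprime).mpr hJq
      exact this h1
    exact (hqprime.mem_or_mem h2).resolve_left hXi
  have hTq : Ideal.span ((X : Fin m → MvPolynomial (Fin m) k) '' (T : Set (Fin m))) ≤ q := by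
    rw [Ideal.span_le]
    rintro _ ⟨j, hj, rfl⟩
    exact hXj j hj
  have hT := card_le_height (k := k) T
  constructor
  · have h1 := (hT.trans (Ideal.height_mono hTq)).trans hheight
    exact_mod_cast h1
  · rintro ⟨G, hG, hGne⟩
    have hlt : Ideal.span ((X : Fin m → MvPolynomial (Fin m) k) '' (T : Set (Fin m))) < q := by
      refine lt_of_le_of_ne hTq ?_
      intro heq
      have h1 : G ∈ q := hJq (Ideal.subset_span hG)
      rw [← heq, span_eq_ker, RingHom.mem_ker] at h1
      exact hGne h1
    have h2 := Ideal.height_add_one_le_of_lt_of_isPrime hlt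
    have h3 : ((T.card + 1 : ℕ) : ℕ∞) ≤ J.card := by
      refine le_trans ?_ (h2.trans hheight)
      push_cast
      gcongr
    exact_mod_cast h3

end

end Pool.Agent.Work.MP_f82ddf_nt
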