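import Pool.Agent.Work.MP_f82ddf_nt.Defs

/-!
# Polynomial curves make both sides of Lang's equivalence fail
-/

open MvPolynomial Topology
open scoped LinearAlgebra.Projectivization ENNReal

namespace Pool.Agent.Work.MP_f82ddf_nt

/-- Data of a nonconstant polynomial curve with coefficients in `A` in the zero set of `S`. -/
structure CurveOver (A : Type*) [Field A] {K : Type*} [Field K] [Algebra K A] {n : ℕ}
    (S : Set (MvPolynomial (Fin (n + 1)) K)) where
  c : Fin (n + 1) → Polynomial A
  u : Fin (n + 1) → Polynomial A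
  bez : ∑ i, u i * c i = 1
  zero : ∀ F ∈ S, aeval c F = 0
  nonconst : ∃ a b i j, (c i).eval a * (c j).eval b ≠ (c j).eval a * (c i).eval b

/-- A nonconstant polynomial curve over the algebraic closure in the zero set of `S`. -/
abbrev PolyCurve {K : Type*} [Field K] {n : ℕ} (S : Set (MvPolynomial (Fin (n + 1)) K)) :=
  CurveOver (AlgebraicClosure K) S

section homog

variable {k : Type*} [Field k] {n : ℕ} {R : Type*} [Field R]

theorem eval₂_smul_hom {F : MvPolynomial (Fin (n + 1)) k} {d : ℕ} (hF : F.IsHomogeneous d)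
    (σ : k →+* R) (v : Fin (n + 1) → R) (a : R) :
    eval₂ σ (a • v) F = a ^ d * eval₂ σ v F := by
  rw [eval₂_eq, eval₂_eq, Finset.mul_sum]
  refine Finset.sum_congr rfl fun m hm => ?_
  have hdeg : ∑ i ∈ m.support, m i = d := by
    have := hF (mem_support_iff.mp hm)
    rw [← this]
    simp [Finsupp.weight_apply, Finsupp.sum]
  simp only [Pi.smul_apply, smul_eq_mul, mul_pow, Finset.prod_mul_distrib]
  rw [Finset.prod_pow_eq_pow_sum, hdeg]
  ring

theorem eval₂_rep_iff {F : MvPolynomial (Fin (n + 1)) k} {d : ℕ} (hF : F.IsHomogeneous d)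
    (σ : k →+* R) (v : Fin (n + 1) → R) (hv : v ≠ 0) :
    eval₂ σ (Projectivization.mk R v hv).rep F = 0 ↔ eval₂ σ v F = 0 := by
  obtain ⟨a, ha⟩ := Projectivization.exists_smul_eq_mk_rep R v hv
  rw [← ha]
  have : (a • v : Fin (n + 1) → R) = (a : R) • v := rfl
  rw [this, eval₂_smul_hom hF]
  constructor
  · intro h
    rcases mul_eq_zero.mp h with h | h
    · exact absurd h (pow_ne_zero _ a.ne_zero)
    · exact h
  · intro h
    rw [h, mul_zero]

end homog

section main

variable {K : Type} [Field K] {n : ℕ} {S : Set (MvPolynomial (Fin (n + 1)) K)}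

theorem mk_mem_complexPoints (hS : ∀ F ∈ S, ∃ d, F.IsHomogeneous d) (σ : K →+* ℂ)
    (v : Fin (n + 1) → ℂ) (hv : v ≠ 0) (h : ∀ F ∈ S, eval₂ σ v F = 0) :
    Projectivization.mk ℂ v hv ∈ complexPoints S σ := by
  intro F hF
  obtain ⟨d, hd⟩ := hS F hF
  rw [eval₂_rep_iff hd]
  exact h F hF

theorem mk_mem_points (hS : ∀ F ∈ S, ∃ d, F.IsHomogeneous d) (L : Type) [Field L] [Algebra K L]
    (v : Fin (n + 1) → L) (hv : v ≠ 0) (h : ∀ F ∈ S, aeval v F = 0) :
    Projectivization.mk L v hv ∈ points S L := by
  intro F hF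
  obtain ⟨d, hd⟩ := hS F hF
  rw [aeval_def, eval₂_rep_iff hd]
  exact h F hF

/-- An entire curve with two different values makes the Kobayashi pseudodistance degenerate. -/
theorem not_kobayashi {X : Set (PSpace ℂ n)} (f : ℂ → PSpace ℂ n)
    (hf : HolomorphicOn f Set.univ) (hX : ∀ z, f z ∈ X) (a b : ℂ) (hab : f a ≠ f b) :
    ¬ KobayashiHyperbolic X := by
  intro hyp
  have h0 := hyp (f a) (hX a) (f b) (hX b) hab
  -- reparametrised discs
  have key : ∀ t : ℝ, 0 < t → t < 1 →
      kobayashiDist X (f a) (f b) ≤ ENNReal.ofReal (Real.log ((1 + t) / (1 - t))) := by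
    intro t ht0 ht1
    have hchain : DiscChain X (f a) (f b) (poincareDist 0 (t : ℂ) + 0) := by
      have h1 := DiscChain.step (X := X) (fun z => f (a + z * ((b - a) / t))) 0 (t : ℂ) (f b) 0
        ?_ ?_ ?_ ?_ ?_
      · simpa using h1
      · intro z₀ _
        obtain ⟨g, hg, hg2⟩ := hf (a + z₀ * ((b - a) / t)) (Set.mem_univ _)
        have hcont : AnalyticAt ℂ (fun z : ℂ => a + z * ((b - a) / t)) z₀ := by
          fun_prop
        refine ⟨fun z => g (a + z * ((b - a) / t)), ?_, ?_⟩
        · exact AnalyticAt.fun_comp (f := fun z : ℂ => a + z * ((b - a) / t)) hg hcont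
        · exact hcont.continuousAt.eventually hg2
      · intro z _
        exact hX _
      · simp
      · rw [mem_ball_zero_iff, Complex.norm_real, Real.norm_eq_abs, abs_of_pos ht0]
        exact ht1
      · have : a + (t : ℂ) * ((b - a) / t) = b := by
          have : (t : ℂ) ≠ 0 := by exact_mod_cast ht0.ne'
          field_simp
          ring
        simp only [this]
        exact DiscChain.refl _ (hX b)
    have hd : poincareDist 0 (t : ℂ) = Real.log ((1 + t) / (1 - t)) := by
      unfold poincareDist
      simp [abs_of_pos ht0]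
    refine (iInf₂_le _ hchain).trans ?_
    rw [hd, add_zero]
  -- the right-hand side tends to zero
  have hlim : Filter.Tendsto (fun t : ℝ => ENNReal.ofReal (Real.log ((1 + t) / (1 - t))))
      (𝓝[>] 0) (𝓝 0) := by
    have h1 : Filter.Tendsto (fun t : ℝ => Real.log ((1 + t) / (1 - t))) (𝓝 0) (𝓝 0) := by
      have hc : ContinuousAt (fun t : ℝ => Real.log ((1 + t) / (1 - t))) 0 := by
        apply ContinuousAt.log
        · apply ContinuousAt.div
          · fun_prop
          · fun_prop
          · norm_num
        · norm_num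
      have := hc.tendsto
      simpa using this
    have h2 := (ENNReal.continuous_ofReal.tendsto 0).comp h1
    rw [ENNReal.ofReal_zero] at h2
    exact h2.mono_left nhdsWithin_le_nhds
  have hev : ∀ᶠ t : ℝ in 𝓝[>] 0, kobayashiDist X (f a) (f b) ≤
      ENNReal.ofReal (Real.log ((1 + t) / (1 - t))) := by
    have h1 : ∀ᶠ t : ℝ in 𝓝[>] 0, t < 1 :=
      nhdsWithin_le_nhds (Iio_mem_nhds (by norm_num))
    filter_upwards [h1, self_mem_nhdsWithin] with t ht ht0
    exact key t ht0 ht
  have := ge_of_tendsto hlim hev
  exact absurd (lt_of_lt_of_le h0 this) (lt_irrefl _)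

theorem PolyCurve.not_kobayashi (C : PolyCurve S) (hS : ∀ F ∈ S, ∃ d, F.IsHomogeneous d)
    (σ : K →+* ℂ) : ¬ KobayashiHyperbolic (complexPoints S σ) := by
  classical
  let _ : Algebra K ℂ := σ.toAlgebra
  let τ : AlgebraicClosure K →ₐ[K] ℂ := IsAlgClosed.lift
  have hτ : ∀ x : K, τ (algebraMap K (AlgebraicClosure K) x) = σ x := fun x => τ.commutes x
  have hτ' : (τ : AlgebraicClosure K →+* ℂ).comp (algebraMap K (AlgebraicClosure K)) = σ :=
    RingHom.ext hτ
  let v : ℂ → Fin (n + 1) → ℂ := fun z i => ((C.c i).map (τ : AlgebraicClosure K →+* ℂ)).eval z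
  have hv : ∀ z, v z ≠ 0 := by
    intro z hz
    have h1 := congrArg (fun p => (Polynomial.map (τ : AlgebraicClosure K →+* ℂ) p).eval z) C.bez
    simp only [Polynomial.map_sum, Polynomial.map_mul, Polynomial.map_one, Polynomial.eval_one,
      Polynomial.eval_finsetSum, Polynomial.eval_mul] at h1
    have h2 : ∀ i, ((C.c i).map (τ : AlgebraicClosure K →+* ℂ)).eval z = 0 := fun i =>
      congrFun hz i
    simp [h2] at h1
  have hzero : ∀ z, ∀ F ∈ S, eval₂ σ (v z) F = 0 := by
    intro z F hF
    have h1 := C.zero F hF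
    have h2 : (Polynomial.eval₂RingHom (τ : AlgebraicClosure K →+* ℂ) z) (aeval C.c F) = 0 := by
      rw [h1, map_zero]
    rw [aeval_def, eval₂_comp_left] at h2
    have h3 : (Polynomial.eval₂RingHom (τ : AlgebraicClosure K →+* ℂ) z).comp
        (algebraMap K (Polynomial (AlgebraicClosure K))) = σ := by
      ext x
      rw [RingHom.comp_apply, IsScalarTower.algebraMap_apply K (AlgebraicClosure K)
        (Polynomial (AlgebraicClosure K))]
      simp only [Polynomial.algebraMap_eq, Polynomial.coe_eval₂RingHom, Polynomial.eval₂_C]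
      exact hτ x
    rw [h3] at h2
    have h4 : (⇑(Polynomial.eval₂RingHom (τ : AlgebraicClosure K →+* ℂ) z) ∘ C.c) = v z := by
      funext i
      simp [v, Polynomial.eval_map]
    rw [h4] at h2
    exact h2
  let f : ℂ → PSpace ℂ n := fun z => Projectivization.mk ℂ (v z) (hv z)
  have hfhol : HolomorphicOn f Set.univ := by
    intro z₀ _
    refine ⟨v, ?_, Filter.Eventually.of_forall fun z => ⟨hv z, rfl⟩⟩
    have : Differentiable ℂ v := by
      rw [differentiable_pi]
      intro i
      exact Polynomial.differentiable _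
    exact this.analyticAt z₀
  obtain ⟨a, b, i, j, hne⟩ := C.nonconst
  refine Pool.Agent.Work.MP_f82ddf_nt.not_kobayashi f hfhol
    (fun z => mk_mem_complexPoints hS σ (v z) (hv z) (hzero z)) (τ a) (τ b) ?_
  intro heq
  rw [Projectivization.mk_eq_mk_iff'] at heq
  obtain ⟨s, hs⟩ := heq
  apply hne
  have hva : ∀ i x, v (τ x) i = τ ((C.c i).eval x) := by
    intro i x
    simp only [v]
    rw [Polynomial.eval_map, ← AlgHom.coe_toRingHom, Polynomial.eval₂_at_apply]
  have h1 : ∀ i, τ ((C.c i).eval a) = s * τ ((C.c i).eval b) := by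
    intro i
    rw [← hva, ← hva, ← hs]
    rfl
  have hinj : Function.Injective τ := τ.toRingHom.injective
  apply hinj
  rw [map_mul, map_mul, h1, h1]
  ring

theorem PolyCurve.exists_infinite [CharZero K] (C : PolyCurve S)
    (hS : ∀ F ∈ S, ∃ d, F.IsHomogeneous d) :
    ∃ (L : Type) (_ : Field L) (_ : Algebra K L) (_ : FiniteDimensional K L),
      (points S L).Infinite := by
  classical
  let T : Finset (AlgebraicClosure K) := Finset.univ.biUnion fun i => (C.c i).coeffs
  let L : IntermediateField K (AlgebraicClosure K) := IntermediateField.adjoin K (T : Set _)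
  have hfin : FiniteDimensional K L :=
    IntermediateField.finiteDimensional_adjoin fun x _ => Algebra.IsIntegral.isIntegral x
  have hcoef : ∀ i k, (C.c i).coeff k ∈ L := by
    intro i k
    by_cases h0 : (C.c i).coeff k = 0
    · rw [h0]; exact zero_mem _
    · apply IntermediateField.subset_adjoin
      simp only [T, Finset.coe_biUnion, Finset.mem_coe, Finset.mem_univ, Set.iUnion_true,
        Set.mem_iUnion]
      exact ⟨i, Polynomial.coeff_mem_coeffs h0⟩
  have hlift : ∀ i, ∃ q : Polynomial L, q.map (algebraMap L (AlgebraicClosure K)) = C.c i := by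
    intro i
    have : C.c i ∈ Polynomial.lifts (algebraMap L (AlgebraicClosure K)) := by
      rw [Polynomial.lifts_iff_coeff_lifts]
      intro k
      exact ⟨⟨_, hcoef i k⟩, rfl⟩
    exact this
  choose c' hc' using hlift
  let v : L → Fin (n + 1) → L := fun t i => (c' i).eval t
  have hva : ∀ t i, algebraMap L (AlgebraicClosure K) (v t i) =
      (C.c i).eval (algebraMap L (AlgebraicClosure K) t) := by
    intro t i
    rw [← hc' i, Polynomial.eval_map_apply]
  have hv : ∀ t, v t ≠ 0 := by
    intro t ht
    have h1 := congrArg (fun p => p.eval (algebraMap L (AlgebraicClosure K) t)) C.bez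
    simp only [Polynomial.eval_one, Polynomial.eval_finsetSum, Polynomial.eval_mul] at h1
    have h2 : ∀ i, (C.c i).eval (algebraMap L (AlgebraicClosure K) t) = 0 := by
      intro i
      rw [← hva, ht]
      simp
    rw [Finset.sum_eq_zero fun i _ => by rw [h2 i, mul_zero]] at h1
    exact zero_ne_one h1
  have hzero : ∀ t, ∀ F ∈ S, aeval (v t) F = 0 := by
    intro t F hF
    apply (algebraMap L (AlgebraicClosure K)).injective
    rw [map_zero]
    have h1 : algebraMap L (AlgebraicClosure K) (aeval (v t) F) =
        aeval (fun i => (C.c i).eval (algebraMap L (AlgebraicClosure K) t)) F := by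
      have := MvPolynomial.aeval_algebraMap_apply (AlgebraicClosure K) (v t) F
      rw [← this]
      have h5 : (⇑(algebraMap L (AlgebraicClosure K)) ∘ v t) =
          fun i => (C.c i).eval (algebraMap L (AlgebraicClosure K) t) :=
        funext fun i => hva t i
      rw [h5]
    rw [h1]
    have h2 := congrArg (Polynomial.evalRingHom (algebraMap L (AlgebraicClosure K) t))
      (C.zero F hF)
    rw [map_zero, aeval_def, eval₂_comp_left] at h2
    have h3 : (Polynomial.evalRingHom (algebraMap L (AlgebraicClosure K) t)).comp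
        (algebraMap K (Polynomial (AlgebraicClosure K))) =
        algebraMap K (AlgebraicClosure K) := by
      ext x
      rw [RingHom.comp_apply, IsScalarTower.algebraMap_apply K (AlgebraicClosure K)
        (Polynomial (AlgebraicClosure K))]
      simp only [Polynomial.algebraMap_eq, Polynomial.coe_evalRingHom, Polynomial.eval_C]
    rw [h3] at h2
    exact h2
  let P : L → PSpace L n := fun t => Projectivization.mk L (v t) (hv t)
  have hP : ∀ t, P t ∈ points S L := fun t => mk_mem_points hS L (v t) (hv t) (hzero t)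
  refine ⟨L, inferInstance, inferInstance, hfin, ?_⟩
  intro hfinite
  have : Finite (points S L) := hfinite
  have : CharZero L := charZero_of_injective_algebraMap (algebraMap K L).injective
  have : Infinite L := inferInstance
  obtain ⟨p, hp⟩ := Finite.exists_infinite_fiber (fun t : L => (⟨P t, hP t⟩ : points S L))
  have hinf : ((fun t : L => (⟨P t, hP t⟩ : points S L)) ⁻¹' {p}).Infinite :=
    Set.infinite_coe_iff.mp hp
  obtain ⟨t₀, ht₀⟩ := hinf.nonempty
  have hprop : ∀ i j, c' i * Polynomial.C ((c' j).eval t₀) =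
      c' j * Polynomial.C ((c' i).eval t₀) := by
    intro i j
    apply Polynomial.eq_of_infinite_eval_eq
    refine hinf.mono ?_
    intro t ht
    have h1 : P t = P t₀ := by
      have h2 : (⟨P t, hP t⟩ : points S L) = ⟨P t₀, hP t₀⟩ := by
        rw [Set.mem_preimage, Set.mem_singleton_iff] at ht ht₀
        rw [ht, ht₀]
      exact congrArg Subtype.val h2
    rw [Projectivization.mk_eq_mk_iff'] at h1
    obtain ⟨s, hs⟩ := h1
    have hs' : ∀ i, (c' i).eval t = s * (c' i).eval t₀ := by
      intro i
      have := congrFun hs i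
      exact this.symm
    show Polynomial.eval t (c' i * Polynomial.C ((c' j).eval t₀)) =
      Polynomial.eval t (c' j * Polynomial.C ((c' i).eval t₀))
    rw [Polynomial.eval_mul, Polynomial.eval_mul, Polynomial.eval_C, Polynomial.eval_C, hs', hs']
    ring
  -- the curve is constant
  obtain ⟨j₀, hj₀⟩ : ∃ j, v t₀ j ≠ 0 := by
    by_contra hcon
    push Not at hcon
    exact hv t₀ (funext hcon)
  have hj₀' : (C.c j₀).eval (algebraMap L (AlgebraicClosure K) t₀) ≠ 0 := by
    rw [← hva]
    intro h
    apply hj₀
    exact (algebraMap L (AlgebraicClosure K)).injective (by rw [h, map_zero])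
  have hall : ∀ i (x : AlgebraicClosure K),
      (C.c i).eval x * (C.c j₀).eval (algebraMap L (AlgebraicClosure K) t₀) =
      (C.c j₀).eval x * (C.c i).eval (algebraMap L (AlgebraicClosure K) t₀) := by
    intro i x
    have h1 := congrArg (fun q => (Polynomial.map (algebraMap L (AlgebraicClosure K)) q).eval x)
      (hprop i j₀)
    simp only [Polynomial.map_mul, Polynomial.map_C, Polynomial.eval_mul, Polynomial.eval_C,
      hc'] at h1
    have h2 : ∀ i, algebraMap L (AlgebraicClosure K) ((c' i).eval t₀) =
        (C.c i).eval (algebraMap L (AlgebraicClosure K) t₀) := fun i => hva t₀ i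
    rw [h2, h2] at h1
    exact h1
  obtain ⟨a, b, i, j, hne⟩ := C.nonconst
  apply hne
  have h1 := hall i a
  have h2 := hall j b
  have h3 := hall j a
  have h4 := hall i b
  apply mul_right_cancel₀ (mul_ne_zero hj₀' hj₀')
  calc Polynomial.eval a (C.c i) * Polynomial.eval b (C.c j) *
        (Polynomial.eval (algebraMap L (AlgebraicClosure K) t₀) (C.c j₀) *
          Polynomial.eval (algebraMap L (AlgebraicClosure K) t₀) (C.c j₀))
      = (Polynomial.eval a (C.c i) *
          Polynomial.eval (algebraMap L (AlgebraicClosure K) t₀) (C.c j₀)) *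
        (Polynomial.eval b (C.c j) *
          Polynomial.eval (algebraMap L (AlgebraicClosure K) t₀) (C.c j₀)) := by ring
    _ = (Polynomial.eval a (C.c j) *
          Polynomial.eval (algebraMap L (AlgebraicClosure K) t₀) (C.c j₀)) *
        (Polynomial.eval b (C.c i) *
          Polynomial.eval (algebraMap L (AlgebraicClosure K) t₀) (C.c j₀)) := by
        rw [h1, h2, h3, h4]; ring
    _ = _ := by ring

/-- A nonconstant polynomial curve makes both sides of Lang's equivalence fail. -/
theorem PolyCurve.both_fail [CharZero K] (C : PolyCurve S)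
    (hS : ∀ F ∈ S, ∃ d, F.IsHomogeneous d) (σ : K →+* ℂ) :
    LangEquivalence S σ ∧ ¬ KobayashiHyperbolic (complexPoints S σ) := by
  have h1 := C.not_kobayashi hS σ
  obtain ⟨L, hL1, hL2, hL3, hL4⟩ := C.exists_infinite hS
  refine ⟨⟨fun h => absurd h h1, fun h => ?_⟩, h1⟩
  exact absurd (h L) hL4

end main

end Pool.Agent.Work.MP_f82ddf_nt
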