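import Pool.Agent.Work.MP_f82ddf_nt.Core
import Pool.Agent.Work.MP_f82ddf_nt.Krull

/-!
# The weight criterion
-/

open MvPolynomial
open scoped LinearAlgebra.Projectivization ENNReal

namespace Pool.Agent.Work.MP_f82ddf_nt

section

variable {K : Type*} [Field K] {n : ℕ} {S : Set (MvPolynomial (Fin (n + 1)) K)}

/-- The component of `F` of weight `ω`, evaluated at `c`. -/
noncomputable def compAt {A : Type*} [Field A] [Algebra K A] (w : Fin (n + 1) → ℤ) (ω : ℤ)
    (F : MvPolynomial (Fin (n + 1)) K) (c : Fin (n + 1) → A) : A :=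
  ∑ m ∈ F.support with weightOf w m = ω, algebraMap K A (coeff m F) * ∏ i, c i ^ m i

/-- The component of `F` of weight `ω`. -/
noncomputable def comp {A : Type*} [Field A] [Algebra K A] (w : Fin (n + 1) → ℤ) (ω : ℤ)
    (F : MvPolynomial (Fin (n + 1)) K) : MvPolynomial (Fin (n + 1)) A :=
  ∑ m ∈ F.support with weightOf w m = ω, monomial m (algebraMap K A (coeff m F))

theorem aeval_eq_sum' {A : Type*} [CommRing A] [Algebra K A] (F : MvPolynomial (Fin (n + 1)) K)
    (c : Fin (n + 1) → A) :
    aeval c F = ∑ m ∈ F.support, algebraMap K A (coeff m F) * ∏ i, c i ^ m i := by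
  rw [aeval_def, eval₂_eq']

theorem aeval_comp' {A : Type*} [Field A] [Algebra K A] (w : Fin (n + 1) → ℤ) (ω : ℤ)
    (F : MvPolynomial (Fin (n + 1)) K) (c : Fin (n + 1) → A) :
    aeval c (comp (A := A) w ω F) = compAt w ω F c := by
  unfold comp compAt
  rw [map_sum]
  refine Finset.sum_congr rfl fun m _ => ?_
  rw [aeval_monomial, Algebra.algebraMap_self_apply, Finsupp.prod_fintype]
  intro i
  exact pow_zero _

/-- The sum of the components. -/
theorem aeval_eq_sum_compAt {A : Type*} [Field A] [Algebra K A] (w : Fin (n + 1) → ℤ)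
    (F : MvPolynomial (Fin (n + 1)) K) (c : Fin (n + 1) → A) :
    aeval c F = ∑ ω ∈ weights w F, compAt w ω F c := by
  classical
  rw [aeval_eq_sum']
  unfold compAt weights
  rw [Finset.sum_image' (f := fun ω => ∑ m ∈ F.support with weightOf w m = ω,
    algebraMap K A (coeff m F) * ∏ i, c i ^ m i)
    (h := fun m => algebraMap K A (coeff m F) * ∏ i, c i ^ m i)]
  intro m _
  rfl

theorem prod_zpow_sum {A : Type*} [Field A] {ι : Type*} (s : Finset ι) (e : ι → ℤ) (t : A)
    (ht : t ≠ 0) : ∏ i ∈ s, t ^ e i = t ^ (∑ i ∈ s, e i) := by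
  classical
  induction s using Finset.induction_on with
  | empty => simp
  | insert a s ha ih => rw [Finset.prod_insert ha, Finset.sum_insert ha, zpow_add₀ ht, ih]

theorem aeval_zpow {A : Type*} [Field A] [Algebra K A] (w : Fin (n + 1) → ℤ)
    (F : MvPolynomial (Fin (n + 1)) K) (c : Fin (n + 1) → A) (t : A) (ht : t ≠ 0) :
    aeval (fun i => c i * t ^ w i) F = ∑ ω ∈ weights w F, t ^ ω * compAt w ω F c := by
  classical
  rw [aeval_eq_sum_compAt w]
  refine Finset.sum_congr rfl fun ω _ => ?_
  unfold compAt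
  rw [Finset.mul_sum]
  refine Finset.sum_congr rfl fun m hm => ?_
  have hm2 : weightOf w m = ω := (Finset.mem_filter.mp hm).2
  have h1 : ∏ i, (c i * t ^ w i) ^ m i = (∏ i, c i ^ m i) * t ^ ω := by
    rw [← hm2]
    unfold weightOf
    rw [← prod_zpow_sum _ _ _ ht, ← Finset.prod_mul_distrib]
    refine Finset.prod_congr rfl fun i _ => ?_
    rw [mul_pow, ← zpow_natCast (t ^ w i), ← zpow_mul, mul_comm (w i)]
  rw [h1]
  ring

theorem degree_sum {F : MvPolynomial (Fin (n + 1)) K} {d : ℕ} (hF : F.IsHomogeneous d)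
    {m : Fin (n + 1) →₀ ℕ} (hm : m ∈ F.support) : ∑ i, m i = d := by
  have := hF (mem_support_iff.mp hm)
  rw [← this]
  simp [Finsupp.weight_apply, Finsupp.sum_fintype]

theorem compAt_shift {A : Type*} [Field A] [Algebra K A] {F : MvPolynomial (Fin (n + 1)) K}
    {d : ℕ} (hF : F.IsHomogeneous d) (w : Fin (n + 1) → ℤ) (a : ℤ) (ω : ℤ)
    (c : Fin (n + 1) → A) :
    compAt (fun i => w i - a) ω F c = compAt w (ω + d * a) F c := by
  unfold compAt
  refine Finset.sum_congr ?_ fun _ _ => rfl
  refine Finset.filter_congr fun m hm => ?_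
  have h1 : weightOf (fun i => w i - a) m = weightOf w m - d * a := by
    unfold weightOf
    have h2 : ∑ i, (m i : ℤ) = d := by exact_mod_cast degree_sum hF hm
    rw [← h2, Finset.sum_mul, ← Finset.sum_sub_distrib]
    refine Finset.sum_congr rfl fun i _ => ?_
    ring
  rw [h1]
  constructor
  · intro h; linarith
  · intro h; linarith

theorem exists_monomial_curve {A : Type*} [Field A] [Algebra K A] [CharZero A] (hS : ∀ F ∈ S, ∃ d, F.IsHomogeneous d)
    (w : Fin (n + 1) → ℤ) (c : Fin (n + 1) → A)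
    (hc : ∀ F ∈ S, ∀ ω, compAt w ω F c = 0) (i j : Fin (n + 1)) (hi : c i ≠ 0) (hj : c j ≠ 0)
    (hw : w i ≠ w j) : Nonempty (CurveOver A S) := by
  classical
  obtain ⟨i₀, hi₀, hmin⟩ := Finset.exists_min_image (Finset.univ.filter fun i => c i ≠ 0) w
    ⟨i, by simp [hi]⟩
  have hci₀ : c i₀ ≠ 0 := (Finset.mem_filter.mp hi₀).2
  have hmin' : ∀ i, c i ≠ 0 → w i₀ ≤ w i := fun i hi => hmin i (by simp [hi])
  refine ⟨⟨fun i => Polynomial.C (c i) * Polynomial.X ^ (w i - w i₀).toNat,
    fun i => if i = i₀ then Polynomial.C (c i₀)⁻¹ else 0, ?_, ?_, ?_⟩⟩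
  · rw [Finset.sum_eq_single i₀]
    · simp only [if_true, sub_self, Int.toNat_zero, pow_zero, mul_one]
      rw [← Polynomial.C_mul, inv_mul_cancel₀ hci₀, Polynomial.C_1]
    · intro b _ hb
      rw [if_neg hb, zero_mul]
    · intro h
      exact absurd (Finset.mem_univ _) h
  · intro F hF
    obtain ⟨d, hd⟩ := hS F hF
    apply Polynomial.eq_of_infinite_eval_eq
    have hinf : ({t : A | t ≠ 0}).Infinite := by
      have : ({t : A | t ≠ 0}) = ({0} : Set (A))ᶜ := rfl
      rw [this]
      exact (Set.finite_singleton _).infinite_compl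
    refine hinf.mono ?_
    intro t ht
    have ht0 : t ≠ 0 := ht
    show Polynomial.eval t _ = Polynomial.eval t 0
    rw [Polynomial.eval_zero]
    have h1 : Polynomial.eval t (aeval (fun i => Polynomial.C (c i) *
        Polynomial.X ^ (w i - w i₀).toNat) F) =
        aeval (fun i => c i * t ^ (w i - w i₀)) F := by
      have h2 := eval₂_comp_left (Polynomial.evalRingHom t)
        (algebraMap K (Polynomial (A)))
        (fun i => Polynomial.C (c i) * Polynomial.X ^ (w i - w i₀).toNat) F
      rw [← aeval_def] at h2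
      rw [← Polynomial.coe_evalRingHom, h2, aeval_def]
      have h3 : (Polynomial.evalRingHom t).comp
          (algebraMap K (Polynomial (A))) =
          algebraMap K (A) := by
        ext x
        rw [RingHom.comp_apply, IsScalarTower.algebraMap_apply K (A)
          (Polynomial (A))]
        simp only [Polynomial.algebraMap_eq, Polynomial.coe_evalRingHom, Polynomial.eval_C]
      rw [h3]
      congr 1
      funext i
      simp only [Function.comp_apply, Polynomial.coe_evalRingHom, Polynomial.eval_mul,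
        Polynomial.eval_C, Polynomial.eval_pow, Polynomial.eval_X]
      by_cases hci : c i = 0
      · rw [hci, zero_mul, zero_mul]
      · have h4 : ((w i - w i₀).toNat : ℤ) = w i - w i₀ :=
          Int.toNat_of_nonneg (by linarith [hmin' i hci])
        rw [← zpow_natCast, h4]
    rw [h1, aeval_zpow (fun i => w i - w i₀) F c t ht0]
    refine Finset.sum_eq_zero fun ω _ => ?_
    rw [compAt_shift hd, hc F hF, mul_zero]
  · refine ⟨1, 2, i, j, ?_⟩
    simp only [Polynomial.eval_mul, Polynomial.eval_C, Polynomial.eval_pow, Polynomial.eval_X,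
      one_pow, mul_one]
    intro h
    have h1 : (2 : A) ^ (w j - w i₀).toNat = 2 ^ (w i - w i₀).toNat := by
      apply mul_left_cancel₀ (mul_ne_zero hi hj)
      calc c i * c j * 2 ^ (w j - w i₀).toNat = c i * (c j * 2 ^ (w j - w i₀).toNat) := by ring
        _ = c j * (c i * 2 ^ (w i - w i₀).toNat) := h
        _ = _ := by ring
    have h2 : ((2 ^ (w j - w i₀).toNat : ℕ) : A) =
        ((2 ^ (w i - w i₀).toNat : ℕ) : A) := by
      push_cast
      exact h1
    have h3 : 2 ^ (w j - w i₀).toNat = 2 ^ (w i - w i₀).toNat := Nat.cast_injective h2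
    have h4 : (w j - w i₀).toNat = (w i - w i₀).toNat := Nat.pow_right_injective (le_refl 2) h3
    have h5 : ((w j - w i₀).toNat : ℤ) = w j - w i₀ :=
      Int.toNat_of_nonneg (by linarith [hmin' j hj])
    have h6 : ((w i - w i₀).toNat : ℤ) = w i - w i₀ :=
      Int.toNat_of_nonneg (by linarith [hmin' i hi])
    apply hw
    rw [h4, h6] at h5
    linarith

end

end Pool.Agent.Work.MP_f82ddf_nt
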