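import Pool.Agent.Work.MP_f82ddf_nt.Defs

/-!
# Varieties given by forms with few monomials and spaced exponents: definitions
-/

open MvPolynomial

namespace Pool.Agent.Work.MP_f82ddf_nt

/-- The exponents of any two monomials of `F` are congruent modulo `k`, for every variable. -/
def Spaced {A : Type*} [Field A] {n : ℕ} (k : ℕ) (F : MvPolynomial (Fin (n + 1)) A) : Prop :=
  ∀ m ∈ F.support, ∀ m' ∈ F.support, ∀ i, m i ≡ m' i [MOD k]

/-- In the coordinates given by the invertible matrix `g`, the variety given by `S` contains a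
monomial curve `t ↦ [c_0 t ^ (w_0) : ... : c_n t ^ (w_n)]`, with integers `w_i` and with `c_i` in
the algebraic closure of `K`, which is not constant. -/
def HasMonomialCurve {K : Type*} [Field K] {n : ℕ}
    (g : Matrix.GeneralLinearGroup (Fin (n + 1)) (AlgebraicClosure K))
    (S : Set (MvPolynomial (Fin (n + 1)) K)) : Prop :=
  ∃ (w : Fin (n + 1) → ℤ) (c : Fin (n + 1) → AlgebraicClosure K),
    (∃ i j, c i ≠ 0 ∧ c j ≠ 0 ∧ w i ≠ w j) ∧
    ∀ F ∈ S, ∀ t : AlgebraicClosure K, t ≠ 0 →
      aeval (g.val.mulVec fun i => c i * t ^ w i) F = 0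

end Pool.Agent.Work.MP_f82ddf_nt
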