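import Pool.Agent.Work.MP_f82ddf_nt.Criterion

/-!
# Descent of solutions to the algebraic closure, and monomial curves
-/

open MvPolynomial Set
open scoped LinearAlgebra.Projectivization ENNReal

namespace Pool.Agent.Work.MP_f82ddf_nt

/-- A solution over the complex numbers gives a solution over an algebraically closed field. -/
theorem exists_over_closure {K A : Type*} [Field K] [Field A] [Algebra K A] [IsAlgClosed A]
    (σ : K →+* ℂ) {ι : Type*} [Finite ι]
    (T : Set (MvPolynomial ι K)) (h : MvPolynomial ι K) (P : ι → ℂ)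
    (hP : ∀ p ∈ T, eval₂ σ P p = 0) (hh : eval₂ σ P h ≠ 0) :
    ∃ c : ι → A, (∀ p ∈ T, aeval c p = 0) ∧ aeval c h ≠ 0 := by
  by_contra hcon
  push Not at hcon
  have h1 : h ∈ vanishingIdeal K (zeroLocus A (Ideal.span T)) := by
    intro x hx
    refine hcon x fun p hp => ?_
    exact hx p (Ideal.subset_span hp)
  rw [vanishingIdeal_zeroLocus_eq_radical] at h1
  obtain ⟨m, hm⟩ := h1
  have h2 : Ideal.span T ≤ RingHom.ker (eval₂Hom σ P) := by
    rw [Ideal.span_le]
    intro p hp
    exact hP p hp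
  have h3 : eval₂Hom σ P (h ^ m) = 0 := h2 hm
  rw [map_pow] at h3
  exact pow_ne_zero m hh h3

section curve

variable {K A : Type*} [Field K] [Field A] [Algebra K A] {n : ℕ}
  {S : Set (MvPolynomial (Fin (n + 1)) K)}

theorem curve_of_zpow [CharZero A] (hS : ∀ F ∈ S, ∃ d, F.IsHomogeneous d)
    (w : Fin (n + 1) → ℤ) (c : Fin (n + 1) → A)
    (hc : ∀ F ∈ S, ∀ t : A, t ≠ 0 → aeval (fun i => c i * t ^ w i) F = 0)
    (i j : Fin (n + 1)) (hi : c i ≠ 0) (hj : c j ≠ 0) (hw : w i ≠ w j) :
    Nonempty (CurveOver A S) := by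
  classical
  obtain ⟨i₀, hi₀, hmin⟩ := Finset.exists_min_image (Finset.univ.filter fun i => c i ≠ 0) w
    ⟨i, by simp [hi]⟩
  have hci₀ : c i₀ ≠ 0 := (Finset.mem_filter.mp hi₀).2
  have hmin' : ∀ i, c i ≠ 0 → w i₀ ≤ w i := fun i hi => hmin i (by simp [hi])
  refine ⟨⟨fun i => Polynomial.C (c i) * Polynomial.X ^ (w i - w i₀).toNat,
    fun i => if i = i₀ then Polynomial.C (c i₀)⁻¹ else 0, ?_, ?_, ?_⟩⟩
  · rw [Finset.sum_eq_single i₀]
    · simp only [if_true, sub_self, Int.toNat_zero, pow_zero, mul_one]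
      rw [← Polynomial.C_mul, inv_mul_cancel₀ hci₀, Polynomial.C_1]
    · intro b _ hb
      rw [if_neg hb, zero_mul]
    · intro h
      exact absurd (Finset.mem_univ _) h
  · intro F hF
    obtain ⟨d, hd⟩ := hS F hF
    apply Polynomial.eq_of_infinite_eval_eq
    have hinf : ({t : A | t ≠ 0}).Infinite := by
      have : ({t : A | t ≠ 0}) = ({0} : Set (A))ᶜ := rfl
      rw [this]
      exact (Set.finite_singleton _).infinite_compl
    refine hinf.mono ?_
    intro t ht
    have ht0 : t ≠ 0 := ht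
    show Polynomial.eval t _ = Polynomial.eval t 0
    rw [Polynomial.eval_zero, eval_aeval_poly]
    have h1 : (fun i => Polynomial.eval t (Polynomial.C (c i) *
        Polynomial.X ^ (w i - w i₀).toNat)) = (t ^ (-(w i₀))) • fun i => c i * t ^ w i := by
      funext i
      simp only [Polynomial.eval_mul, Polynomial.eval_C, Polynomial.eval_pow, Polynomial.eval_X,
        Pi.smul_apply, smul_eq_mul]
      by_cases hci : c i = 0
      · rw [hci, zero_mul, zero_mul, mul_zero]
      · have h4 : ((w i - w i₀).toNat : ℤ) = w i - w i₀ :=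
          Int.toNat_of_nonneg (by linarith [hmin' i hci])
        rw [← zpow_natCast, h4, sub_eq_add_neg, zpow_add₀ ht0]
        ring
    rw [h1, aeval_def, eval₂_smul_hom hd, ← aeval_def, hc F hF t ht0, mul_zero]
  · refine ⟨1, 2, i, j, ?_⟩
    simp only [Polynomial.eval_mul, Polynomial.eval_C, Polynomial.eval_pow, Polynomial.eval_X,
      one_pow, mul_one]
    intro h
    have h1 : (2 : A) ^ (w j - w i₀).toNat = 2 ^ (w i - w i₀).toNat := by
      apply mul_left_cancel₀ (mul_ne_zero hi hj)
      calc c i * c j * 2 ^ (w j - w i₀).toNat = c i * (c j * 2 ^ (w j - w i₀).toNat) := by ring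
        _ = c j * (c i * 2 ^ (w i - w i₀).toNat) := h
        _ = _ := by ring
    have h2 : ((2 ^ (w j - w i₀).toNat : ℕ) : A) =
        ((2 ^ (w i - w i₀).toNat : ℕ) : A) := by
      push_cast
      exact h1
    have h3 : 2 ^ (w j - w i₀).toNat = 2 ^ (w i - w i₀).toNat := Nat.cast_injective h2
    have h4 : (w j - w i₀).toNat = (w i - w i₀).toNat := Nat.pow_right_injective (le_refl 2) h3
    have h5 : ((w j - w i₀).toNat : ℤ) = w j - w i₀ :=
      Int.toNat_of_nonneg (by linarith [hmin' j hj])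
    have h6 : ((w i - w i₀).toNat : ℤ) = w i - w i₀ :=
      Int.toNat_of_nonneg (by linarith [hmin' i hi])
    apply hw
    rw [h4, h6] at h5
    linarith

end curve

end Pool.Agent.Work.MP_f82ddf_nt
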