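import Pool.Agent.Work.MP_f82ddf_nt.SparseDefs

/-!
# Two disjoint sets of variables which are not mixed by a sparse family of sets
-/

open Finset

namespace Pool.Agent.Work.MP_f82ddf_nt

theorem fall_eq_poch {s : ℕ} {x : ℝ} (hx : (s : ℝ) - 1 ≤ x) :
    fall s x = (descPochhammer ℝ s).eval x := by
  rw [fall, if_pos hx, descPochhammer_eval_eq_prod_range]

theorem fall_nonneg (s : ℕ) (x : ℝ) : 0 ≤ fall s x := by
  unfold fall
  split_ifs with h
  · refine prod_nonneg fun i hi => ?_
    have hi' : i + 1 ≤ s := mem_range.mp hi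
    have : ((i + 1 : ℕ) : ℝ) ≤ s := by exact_mod_cast hi'
    push_cast at this
    linarith
  · exact le_rfl

theorem fall_mono (s : ℕ) : Monotone (fall s) := by
  intro x y hxy
  by_cases hx : (s : ℝ) - 1 ≤ x
  · have hy : (s : ℝ) - 1 ≤ y := hx.trans hxy
    rw [fall_eq_poch hx, fall_eq_poch hy]
    exact monotoneOn_descPochhammer_eval s hx hy hxy
  · rw [fall, if_neg hx]
    exact fall_nonneg s y

/-- Jensen's inequality for the falling factorial. -/
theorem card_mul_fall_le {ι : Type*} {s : ℕ} (hs : s ≠ 0) (t : Finset ι) (p : ι → ℕ) :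
    (t.card : ℝ) * fall s ((∑ i ∈ t, (p i : ℝ)) / t.card) ≤
      ∑ i ∈ t, ((p i).descFactorial s : ℝ) := by
  rcases t.eq_empty_or_nonempty with rfl | hne
  · simp
  have hcard : (0 : ℝ) < t.card := by exact_mod_cast hne.card_pos
  by_cases h : (s : ℝ) - 1 ≤ (∑ i ∈ t, (p i : ℝ)) / t.card
  · have hw : ∑ i ∈ t, (1 / (t.card : ℝ)) = 1 := by
      rw [sum_const, nsmul_eq_mul]
      field_simp
    have he : ∑ i ∈ t, (1 / (t.card : ℝ)) * (p i : ℝ) = (∑ i ∈ t, (p i : ℝ)) / t.card := by
      rw [← mul_sum]
      ring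
    have h2 := descPochhammer_eval_le_sum_descFactorial hs (t := t) p (fun _ => 1 / (t.card : ℝ))
      (fun _ _ => by positivity) hw (by rw [he]; exact h)
    rw [he, ← fall_eq_poch h, ← mul_sum] at h2
    calc (t.card : ℝ) * fall s ((∑ i ∈ t, (p i : ℝ)) / t.card)
        ≤ (t.card : ℝ) * (1 / (t.card : ℝ) * ∑ i ∈ t, ((p i).descFactorial s : ℝ)) := by
          gcongr
      _ = _ := by field_simp
  · rw [fall, if_neg h, mul_zero]
    positivity

section

variable {V : Type*} [Fintype V]

/-- Embeddings with values in a subset. -/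
def embSubtype (s : ℕ) (p : V → Prop) :
    (Fin s ↪ {x // p x}) ≃ {a : Fin s ↪ V // ∀ i, p (a i)} where
  toFun a := ⟨a.trans (Function.Embedding.subtype p), fun i => (a i).2⟩
  invFun a := ⟨fun i => ⟨a.1 i, a.2 i⟩, fun i j h => a.1.injective (congrArg Subtype.val h)⟩
  left_inv a := by ext; rfl
  right_inv a := by ext; rfl

theorem card_emb (s : ℕ) (p : V → Prop) [DecidablePred p] :
    (univ.filter fun a : Fin s ↪ V => ∀ i, p (a i)).card =
      (univ.filter p).card.descFactorial s := by
  rw [← Fintype.card_subtype, ← Fintype.card_congr (embSubtype s p), Fintype.card_embedding_eq,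
    Fintype.card_fin, Fintype.card_subtype]

variable [DecidableEq V] (A : Finset (Finset V))

/-- The ordered pairs in a set of `A` with two elements are few. -/
theorem card_pairs_le :
    (univ.filter fun q : V × V => q.1 ≠ q.2 ∧ ({q.1, q.2} : Finset V) ∈ A).card ≤
      2 * (A.filter fun H => H.card = 2).card := by
  have hsub : (univ.filter fun q : V × V => q.1 ≠ q.2 ∧ ({q.1, q.2} : Finset V) ∈ A) ⊆
      (A.filter fun H => H.card = 2).biUnion fun H => H.offDiag := by
    intro q hq
    rw [mem_filter] at hq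
    rw [mem_biUnion]
    refine ⟨{q.1, q.2}, mem_filter.mpr ⟨hq.2.2, card_pair hq.2.1⟩, ?_⟩
    rw [mem_offDiag]
    exact ⟨by simp, by simp, hq.2.1⟩
  refine (card_le_card hsub).trans (card_biUnion_le.trans ?_)
  rw [mul_comm, ← smul_eq_mul]
  refine sum_le_card_nsmul _ _ _ fun H hH => ?_
  rw [offDiag_card, (mem_filter.mp hH).2]

/-- `x` and `y` are distinct and no member of `A` is equal to `{x, y}`. -/
def Apart (x y : V) : Prop := x ≠ y ∧ ({x, y} : Finset V) ∉ A

instance : DecidableRel (Apart A) := fun x y => by unfold Apart; infer_instance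

theorem sum_deg :
    (Fintype.card V : ℝ) * (Fintype.card V - 1) - 2 * (A.filter fun H => H.card = 2).card ≤
      ∑ y : V, ((univ.filter fun x => Apart A x y).card : ℝ) := by
  have h1 : ∑ y : V, (univ.filter fun x => Apart A x y).card =
      (univ.filter fun q : V × V => Apart A q.1 q.2).card := by
    rw [card_filter, ← univ_product_univ, sum_product_right]
    refine sum_congr rfl fun y _ => ?_
    rw [card_filter]
  have h2 : (univ.filter fun q : V × V => q.1 ≠ q.2).card =
      Fintype.card V * (Fintype.card V - 1) := by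
    have := offDiag_card (univ : Finset V)
    rw [card_univ] at this
    have h3 : (univ.filter fun q : V × V => q.1 ≠ q.2) = (univ : Finset V).offDiag := by
      ext q
      simp
    rw [h3, this, Nat.mul_sub, mul_one]
  have h3 : (univ.filter fun q : V × V => q.1 ≠ q.2).card ≤
      (univ.filter fun q : V × V => Apart A q.1 q.2).card +
      (univ.filter fun q : V × V => q.1 ≠ q.2 ∧ ({q.1, q.2} : Finset V) ∈ A).card := by
    refine le_trans (card_le_card ?_) (card_union_le _ _)
    intro q hq
    rw [mem_filter] at hq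
    rw [mem_union, mem_filter, mem_filter]
    by_cases h : ({q.1, q.2} : Finset V) ∈ A
    · exact Or.inr ⟨mem_univ _, hq.2, h⟩
    · exact Or.inl ⟨mem_univ _, hq.2, h⟩
  have h4 := card_pairs_le A
  have h5 : (Fintype.card V * (Fintype.card V - 1) : ℕ) ≤
      ∑ y : V, (univ.filter fun x => Apart A x y).card +
      2 * (A.filter fun H => H.card = 2).card := by
    rw [h1, ← h2]
    omega
  have h6 : ((Fintype.card V * (Fintype.card V - 1) : ℕ) : ℝ) =
      (Fintype.card V : ℝ) * (Fintype.card V - 1) := by
    rcases Nat.eq_zero_or_pos (Fintype.card V) with h0 | h0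
    · rw [h0]; simp
    · push_cast [Nat.cast_sub h0]
      ring
  have h7 : ((Fintype.card V * (Fintype.card V - 1) : ℕ) : ℝ) ≤
      ∑ y : V, ((univ.filter fun x => Apart A x y).card : ℝ) +
      2 * (A.filter fun H => H.card = 2).card := by
    exact_mod_cast h5
  rw [h6] at h7
  linarith

/-- The set of common partners of `a`. -/
noncomputable def partners {s : ℕ} (a : Fin s ↪ V) : Finset V := univ.filter fun y => ∀ i, Apart A (a i) y

theorem sum_partners (s : ℕ) :
    ∑ a : Fin s ↪ V, (partners A a).card =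
      ∑ y : V, (univ.filter fun x => Apart A x y).card.descFactorial s := by
  have h1 : ∀ y : V, (univ.filter fun x => Apart A x y).card.descFactorial s =
      (univ.filter fun a : Fin s ↪ V => ∀ i, Apart A (a i) y).card := by
    intro y
    rw [card_emb s (fun x => Apart A x y)]
  simp_rw [h1, partners, card_filter]
  exact sum_comm

/-- Two injective families without an element of `A` of the form `{φ (inl i), φ (inr j)}`. -/
noncomputable def good (s : ℕ) : Finset (Fin s ⊕ Fin s ↪ V) :=
  univ.filter fun φ => ∀ i j, ({φ (Sum.inl i), φ (Sum.inr j)} : Finset V) ∉ A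

theorem sum_le_good (s : ℕ) :
    ∑ a : Fin s ↪ V, (partners A a).card.descFactorial s ≤ (good A s).card := by
  classical
  have h1 : ∀ a : Fin s ↪ V, (partners A a).card.descFactorial s =
      (univ.filter fun b : Fin s ↪ V => ∀ j, ∀ i, Apart A (a i) (b j)).card := by
    intro a
    rw [card_emb s (fun y => ∀ i, Apart A (a i) y), partners]
  have h2 : ∑ a : Fin s ↪ V, (partners A a).card.descFactorial s =
      (univ.filter fun q : (Fin s ↪ V) × (Fin s ↪ V) =>
        ∀ j, ∀ i, Apart A (q.1 i) (q.2 j)).card := by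
    rw [card_filter, ← univ_product_univ, sum_product]
    refine sum_congr rfl fun a _ => ?_
    rw [h1, card_filter]
  rw [h2]
  refine le_trans (card_le_card (t := (good A s).image fun φ =>
    ((⟨fun i => φ (Sum.inl i), fun i j h => Sum.inl_injective (φ.injective h)⟩,
      ⟨fun i => φ (Sum.inr i), fun i j h => Sum.inr_injective (φ.injective h)⟩) :
      (Fin s ↪ V) × (Fin s ↪ V))) ?_) card_image_le
  intro q hq
  rw [mem_filter] at hq
  rw [mem_image]
  refine ⟨⟨Sum.elim q.1 q.2, ?_⟩, ?_, ?_⟩
  · rintro (i | i) (j | j) h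
    · exact congrArg _ (q.1.injective h)
    · exact absurd h (hq.2 j i).1
    · exact absurd h.symm (hq.2 i j).1
    · exact congrArg _ (q.2.injective h)
  · rw [good, mem_filter]
    exact ⟨mem_univ _, fun i j => (hq.2 j i).2⟩
  · ext i <;> rfl

/-- The lower bound for the number of good pairs of families. -/
theorem le_card_good {s : ℕ} (hs : s ≠ 0) {D c : ℝ}
    (hD : D = (Fintype.card V - 1) -
      2 * ((A.filter fun H => H.card = 2).card : ℝ) / Fintype.card V)
    (hc : c = Fintype.card V * fall s D / ((Fintype.card V).descFactorial s : ℕ)) :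
    ((Fintype.card V).descFactorial s : ℕ) * fall s c ≤ ((good A s).card : ℝ) := by
  classical
  have hcardE : (univ : Finset (Fin s ↪ V)).card = (Fintype.card V).descFactorial s := by
    rw [card_univ, Fintype.card_embedding_eq, Fintype.card_fin]
  rcases Nat.eq_zero_or_pos ((Fintype.card V).descFactorial s) with h0 | hpos
  · rw [h0]; simp
  have hvpos : 0 < Fintype.card V := by
    by_contra hcon
    have : Fintype.card V = 0 := by omega
    rw [this, Nat.descFactorial_eq_zero_iff_lt.mpr (Nat.pos_of_ne_zero hs)] at hpos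
    exact lt_irrefl _ hpos
  have hv : (0 : ℝ) < Fintype.card V := by exact_mod_cast hvpos
  have h1 := card_mul_fall_le hs (univ : Finset V)
    (fun y => (univ.filter fun x => Apart A x y).card)
  have h2 : fall s D ≤ fall s ((∑ y : V, ((univ.filter fun x => Apart A x y).card : ℝ)) /
      (univ : Finset V).card) := by
    apply fall_mono
    rw [hD, card_univ, le_div_iff₀ hv]
    have := sum_deg A
    have h3 : ((Fintype.card V - 1) -
      2 * ((A.filter fun H => H.card = 2).card : ℝ) / Fintype.card V) * Fintype.card V =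
      (Fintype.card V : ℝ) * (Fintype.card V - 1) - 2 * (A.filter fun H => H.card = 2).card := by
      field_simp
    rw [h3]
    exact this
  have h3 : (Fintype.card V : ℝ) * fall s D ≤ ∑ a : Fin s ↪ V, ((partners A a).card : ℝ) := by
    have h4 : ∑ a : Fin s ↪ V, ((partners A a).card : ℝ) =
        ∑ y : V, (((univ.filter fun x => Apart A x y).card.descFactorial s : ℕ) : ℝ) := by
      exact_mod_cast sum_partners A s
    rw [h4]
    refine le_trans ?_ h1
    rw [card_univ] at h2 ⊢
    gcongr
  have h4 := card_mul_fall_le hs (univ : Finset (Fin s ↪ V)) (fun a => (partners A a).card)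
  rw [hcardE] at h4
  have h5 : fall s c ≤ fall s ((∑ a : Fin s ↪ V, ((partners A a).card : ℝ)) /
      ((Fintype.card V).descFactorial s : ℕ)) := by
    apply fall_mono
    rw [hc]
    gcongr
  have h6 : (∑ a : Fin s ↪ V, (((partners A a).card.descFactorial s : ℕ) : ℝ)) ≤
      ((good A s).card : ℝ) := by
    exact_mod_cast sum_le_good A s
  refine le_trans ?_ (h4.trans h6)
  gcongr

/-! ### Few pairs of families are bad -/

/-- All sets of the same cardinality are equally often the image of a given set. -/
theorem card_map_eq {P : Type*} [Fintype P] [DecidableEq P] (T : Finset P) (H H' : Finset V)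
    (h : H.card = H'.card) :
    (univ.filter fun φ : P ↪ V => T.map φ = H).card =
      (univ.filter fun φ : P ↪ V => T.map φ = H').card := by
  classical
  obtain ⟨e⟩ : Nonempty (H ≃ H') := by
    rw [← Fintype.card_eq, Fintype.card_coe, Fintype.card_coe, h]
  have hext : ∃ π : Equiv.Perm V, ∀ x : H, π x = e x := by
    let f : {x // x ∈ H} ≃ {x // x ∈ H'} := e
    refine ⟨Equiv.extendSubtype f, fun x => ?_⟩
    rw [Equiv.extendSubtype_apply_of_mem f x.1 x.2]
  obtain ⟨π, hπ⟩ := hext
  have hmap : H.map π.toEmbedding = H' := by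
    apply eq_of_subset_of_card_le
    · intro y hy
      rw [mem_map] at hy
      obtain ⟨x, hx, rfl⟩ := hy
      rw [Equiv.coe_toEmbedding, hπ ⟨x, hx⟩]
      exact (e ⟨x, hx⟩).2
    · rw [card_map, h]
  refine card_bij' (fun φ _ => φ.trans π.toEmbedding) (fun φ _ => φ.trans π.symm.toEmbedding)
    ?_ ?_ ?_ ?_
  · intro φ hφ
    rw [mem_filter] at hφ ⊢
    rw [← Finset.map_map, hφ.2, hmap]
    exact ⟨mem_univ _, rfl⟩
  · intro φ hφ
    rw [mem_filter] at hφ ⊢
    rw [← Finset.map_map, hφ.2, ← hmap, Finset.map_map]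
    refine ⟨mem_univ _, ?_⟩
    ext x
    simp
  · intro φ _
    ext x
    simp
  · intro φ _
    ext x
    simp

theorem card_map_mul {P : Type*} [Fintype P] [DecidableEq P] (T : Finset P) (H : Finset V)
    (h : H.card = T.card) :
    (univ.filter fun φ : P ↪ V => T.map φ = H).card * (Fintype.card V).choose T.card =
      (Fintype.card V).descFactorial (Fintype.card P) := by
  classical
  have h1 : (univ : Finset (P ↪ V)).card =
      ∑ H' ∈ powersetCard T.card (univ : Finset V),
        (univ.filter fun φ : P ↪ V => T.map φ = H').card := by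
    apply card_eq_sum_card_fiberwise
    intro φ _
    rw [Finset.mem_coe, mem_powersetCard]
    exact ⟨subset_univ _, card_map _⟩
  rw [card_univ, Fintype.card_embedding_eq] at h1
  rw [h1]
  rw [sum_congr rfl fun H' hH' => card_map_eq (P := P) T H' H
    ((mem_powersetCard.mp hH').2.trans h.symm)]
  rw [sum_const, card_powersetCard, card_univ, smul_eq_mul, mul_comm]

/-- The sets of `k` positions which meet both sides. -/
def mixedSets (s k : ℕ) : Finset (Finset (Fin s ⊕ Fin s)) :=
  (powersetCard k univ).filter fun T => (∃ i, Sum.inl i ∈ T) ∧ ∃ j, Sum.inr j ∈ T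

theorem card_mixedSets (s k : ℕ) (hk : k ≠ 0) :
    (mixedSets s k).card + 2 * s.choose k = (2 * s).choose k := by
  classical
  have h1 : (powersetCard k (univ : Finset (Fin s ⊕ Fin s))).card = (2 * s).choose k := by
    rw [card_powersetCard, card_univ, Fintype.card_sum, Fintype.card_fin, two_mul]
  have h2 : powersetCard k (univ : Finset (Fin s ⊕ Fin s)) = mixedSets s k ∪
      ((powersetCard k ((univ : Finset (Fin s)).map ⟨Sum.inl, Sum.inl_injective⟩)) ∪
        (powersetCard k ((univ : Finset (Fin s)).map ⟨Sum.inr, Sum.inr_injective⟩))) := by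
    ext T
    simp only [mixedSets, mem_union, mem_filter, mem_powersetCard, subset_univ, true_and]
    constructor
    · intro hT
      by_cases ha : ∃ i, Sum.inl i ∈ T
      · by_cases hb : ∃ j, Sum.inr j ∈ T
        · exact Or.inl ⟨hT, ha, hb⟩
        · refine Or.inr (Or.inl ⟨?_, hT⟩)
          rintro (x | x) hx
          · simp
          · exact absurd ⟨x, hx⟩ hb
      · refine Or.inr (Or.inr ⟨?_, hT⟩)
        rintro (x | x) hx
        · exact absurd ⟨x, hx⟩ ha
        · simp
    · rintro (h | h | h)
      · exact h.1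
      · exact h.2
      · exact h.2
  rw [← h1, h2, card_union_of_disjoint, card_union_of_disjoint]
  · rw [card_powersetCard, card_powersetCard, card_map, card_map, card_univ, Fintype.card_fin]
    ring
  · rw [disjoint_left]
    intro T hT hT'
    rw [mem_powersetCard] at hT hT'
    have hne : T.Nonempty := by
      rw [← card_pos]; omega
    obtain ⟨x, hx⟩ := hne
    have h3 := hT.1 hx
    have h4 := hT'.1 hx
    rw [mem_map] at h3 h4
    obtain ⟨a, _, ha⟩ := h3
    obtain ⟨b, _, hb⟩ := h4
    rw [← ha] at hb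
    exact absurd hb (by simp)
  · rw [disjoint_left]
    intro T hT hT'
    rw [mixedSets, mem_filter] at hT
    obtain ⟨_, ⟨i, hi⟩, ⟨j, hj⟩⟩ := hT
    rw [mem_union, mem_powersetCard, mem_powersetCard] at hT'
    rcases hT' with h | h
    · have := h.1 hj
      simp at this
    · have := h.1 hi
      simp at this

/-- The bad pairs of families. -/
noncomputable def bad (s : ℕ) : Finset (Fin s ⊕ Fin s ↪ V) :=
  (Icc 3 (2 * s)).biUnion fun k => (mixedSets s k).biUnion fun T =>
    (A.filter fun H => H.card = k).biUnion fun H =>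
      univ.filter fun φ : Fin s ⊕ Fin s ↪ V => T.map φ = H

theorem card_bad_le (s : ℕ) :
    ((bad A s).card : ℝ) ≤ ((Fintype.card V).descFactorial (2 * s) : ℕ) *
      ∑ k ∈ Icc 3 (2 * s), (((2 * s).choose k : ℝ) - 2 * (s.choose k : ℝ)) *
        (((A.filter fun H => H.card = k).card : ℝ) / ((Fintype.card V).choose k : ℝ)) := by
  classical
  have h1 : ((bad A s).card : ℝ) ≤ ∑ k ∈ Icc 3 (2 * s), ∑ T ∈ mixedSets s k,
      ∑ H ∈ A.filter (fun H => H.card = k),
        ((univ.filter fun φ : Fin s ⊕ Fin s ↪ V => T.map φ = H).card : ℝ) := by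
    have : (bad A s).card ≤ ∑ k ∈ Icc 3 (2 * s), ∑ T ∈ mixedSets s k,
      ∑ H ∈ A.filter (fun H => H.card = k),
        (univ.filter fun φ : Fin s ⊕ Fin s ↪ V => T.map φ = H).card := by
      refine card_biUnion_le.trans (sum_le_sum fun k _ => ?_)
      refine card_biUnion_le.trans (sum_le_sum fun T _ => ?_)
      exact card_biUnion_le
    exact_mod_cast this
  refine h1.trans ?_
  rw [mul_sum]
  refine sum_le_sum fun k hk => ?_
  rw [mem_Icc] at hk
  have h2 : ∀ T ∈ mixedSets s k, ∑ H ∈ A.filter (fun H => H.card = k),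
        ((univ.filter fun φ : Fin s ⊕ Fin s ↪ V => T.map φ = H).card : ℝ) =
      ((Fintype.card V).descFactorial (2 * s) : ℕ) *
        (((A.filter fun H => H.card = k).card : ℝ) / ((Fintype.card V).choose k : ℝ)) := by
    intro T hT
    have hTk : T.card = k := by
      rw [mixedSets, mem_filter, mem_powersetCard] at hT
      exact hT.1.2
    have h3 : ∀ H ∈ A.filter (fun H => H.card = k),
        ((univ.filter fun φ : Fin s ⊕ Fin s ↪ V => T.map φ = H).card : ℝ) =
          ((Fintype.card V).descFactorial (2 * s) : ℕ) / ((Fintype.card V).choose k : ℝ) := by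
      intro H hH
      have hHk : H.card = T.card := by rw [hTk]; exact (mem_filter.mp hH).2
      have h4 := card_map_mul (P := Fin s ⊕ Fin s) T H hHk
      have hle : k ≤ Fintype.card V := by
        rw [← (mem_filter.mp hH).2]
        exact card_le_univ H
      have hpos : 0 < (Fintype.card V).choose k := Nat.choose_pos hle
      have hpos' : (0 : ℝ) < ((Fintype.card V).choose k : ℝ) := by exact_mod_cast hpos
      rw [eq_div_iff hpos'.ne']
      rw [hTk, Fintype.card_sum, Fintype.card_fin, ← two_mul] at h4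
      exact_mod_cast h4
    rw [sum_congr rfl h3, sum_const, nsmul_eq_mul]
    ring
  rw [sum_congr rfl h2, sum_const, nsmul_eq_mul]
  have h5 : ((mixedSets s k).card : ℝ) = ((2 * s).choose k : ℝ) - 2 * (s.choose k : ℝ) := by
    have := card_mixedSets s k (by omega)
    have h6 : ((mixedSets s k).card : ℝ) + 2 * (s.choose k : ℝ) = ((2 * s).choose k : ℝ) := by
      exact_mod_cast this
    linarith
  rw [h5]
  apply le_of_eq
  ring

/-- The combinatorial statement: two disjoint sets of `s` elements which are not mixed by `A`. -/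
theorem exists_unmixed {s : ℕ} (hs : 2 ≤ s) {D c : ℝ}
    (hD : D = (Fintype.card V - 1) -
      2 * ((A.filter fun H => H.card = 2).card : ℝ) / Fintype.card V)
    (hc : c = Fintype.card V * fall s D / ((Fintype.card V).descFactorial s : ℕ))
    (h : ((Fintype.card V).descFactorial (2 * s) : ℕ) *
      ∑ k ∈ Icc 3 (2 * s), (((2 * s).choose k : ℝ) - 2 * (s.choose k : ℝ)) *
        (((A.filter fun H => H.card = k).card : ℝ) / ((Fintype.card V).choose k : ℝ)) <
      ((Fintype.card V).descFactorial s : ℕ) * fall s c) :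
    ∃ I J : Finset V, Disjoint I J ∧ I.card = s ∧ J.card = s ∧
      ∀ H ∈ A, H ⊆ I ∪ J → H ⊆ I ∨ H ⊆ J := by
  classical
  have h1 : ((bad A s).card : ℝ) < ((good A s).card : ℝ) :=
    (card_bad_le A s).trans_lt (h.trans_le (le_card_good A (by omega) hD hc))
  have h2 : (bad A s).card < (good A s).card := by exact_mod_cast h1
  obtain ⟨φ, hφ, hφ'⟩ := exists_mem_notMem_of_card_lt_card h2
  have hgood := (mem_filter.mp hφ).2
  let I : Finset V := (univ : Finset (Fin s)).map ⟨fun i => φ (Sum.inl i),
    fun i j h => Sum.inl_injective (φ.injective h)⟩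
  let J : Finset V := (univ : Finset (Fin s)).map ⟨fun i => φ (Sum.inr i),
    fun i j h => Sum.inr_injective (φ.injective h)⟩
  have hI : ∀ x, x ∈ I ↔ ∃ i, φ (Sum.inl i) = x := by
    intro x
    rw [mem_map]
    exact ⟨fun ⟨i, _, h⟩ => ⟨i, h⟩, fun ⟨i, h⟩ => ⟨i, mem_univ _, h⟩⟩
  have hJ : ∀ x, x ∈ J ↔ ∃ i, φ (Sum.inr i) = x := by
    intro x
    rw [mem_map]
    exact ⟨fun ⟨i, _, h⟩ => ⟨i, h⟩, fun ⟨i, h⟩ => ⟨i, mem_univ _, h⟩⟩
  refine ⟨I, J, ?_, by simp [I], by simp [J], ?_⟩
  · rw [disjoint_left]
    intro x hx hx'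
    rw [hI] at hx
    rw [hJ] at hx'
    obtain ⟨i, rfl⟩ := hx
    obtain ⟨j, hj⟩ := hx'
    exact absurd (φ.injective hj) (by simp)
  · intro H hH hHsub
    by_contra hcon
    rw [not_or] at hcon
    obtain ⟨hnI, hnJ⟩ := hcon
    -- elements outside each side
    obtain ⟨x, hx, hxI⟩ := not_subset.mp hnI
    obtain ⟨y, hy, hyJ⟩ := not_subset.mp hnJ
    have hxJ : x ∈ J := (mem_union.mp (hHsub hx)).resolve_left hxI
    have hyI : y ∈ I := (mem_union.mp (hHsub hy)).resolve_right hyJ
    obtain ⟨j, hj⟩ := (hJ x).mp hxJ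
    obtain ⟨i, hi⟩ := (hI y).mp hyI
    have hxy : x ≠ y := by
      rintro rfl
      exact hxI hyI
    have hsubrange : ∀ z ∈ H, ∃ p, φ p = z := by
      intro z hz
      rcases mem_union.mp (hHsub hz) with h3 | h3
      · obtain ⟨i', hi'⟩ := (hI z).mp h3
        exact ⟨_, hi'⟩
      · obtain ⟨i', hi'⟩ := (hJ z).mp h3
        exact ⟨_, hi'⟩
    let T : Finset (Fin s ⊕ Fin s) := univ.filter fun p => φ p ∈ H
    have hTmap : T.map φ = H := by
      ext z
      rw [mem_map]
      constructor
      · rintro ⟨p, hp, rfl⟩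
        exact (mem_filter.mp hp).2
      · intro hz
        obtain ⟨p, hp⟩ := hsubrange z hz
        exact ⟨p, mem_filter.mpr ⟨mem_univ _, by rw [hp]; exact hz⟩, hp⟩
    have hTcard : T.card = H.card := by rw [← hTmap, card_map]
    have hle : H.card ≤ 2 * s := by
      rw [← hTcard]
      refine (card_le_univ T).trans ?_
      rw [Fintype.card_sum, Fintype.card_fin]
      omega
    rcases Nat.lt_or_ge H.card 3 with h3 | h3
    · -- a set with two elements
      have h4 : ({y, x} : Finset V) ⊆ H := by
        intro z hz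
        rw [mem_insert, mem_singleton] at hz
        rcases hz with rfl | rfl
        · exact hy
        · exact hx
      have h5 : ({y, x} : Finset V) = H := by
        apply eq_of_subset_of_card_le h4
        rw [card_pair hxy.symm]
        omega
      apply hgood i j
      rw [hi, hj, h5]
      exact hH
    · apply hφ'
      rw [bad, mem_biUnion]
      refine ⟨H.card, mem_Icc.mpr ⟨h3, hle⟩, ?_⟩
      rw [mem_biUnion]
      refine ⟨T, ?_, ?_⟩
      · rw [mixedSets, mem_filter, mem_powersetCard]
        refine ⟨⟨subset_univ _, hTcard⟩, ⟨i, ?_⟩, ⟨j, ?_⟩⟩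
        · rw [mem_filter, hi]
          exact ⟨mem_univ _, hy⟩
        · rw [mem_filter, hj]
          exact ⟨mem_univ _, hx⟩
      · rw [mem_biUnion]
        exact ⟨H, mem_filter.mpr ⟨hH, rfl⟩, mem_filter.mpr ⟨mem_univ _, hTmap⟩⟩

end

end Pool.Agent.Work.MP_f82ddf_nt
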