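import Pool.Agent.Work.MP_f82ddf_nt.Weights

/-!
# Lines, and the weight criterion
-/

open MvPolynomial
open scoped LinearAlgebra.Projectivization ENNReal

namespace Pool.Agent.Work.MP_f82ddf_nt

section

variable {K A : Type*} [Field K] [Field A] [Algebra K A] {n : ℕ}
  {S : Set (MvPolynomial (Fin (n + 1)) K)}

theorem eval_aeval_poly (p : Fin (n + 1) → Polynomial (A))
    (F : MvPolynomial (Fin (n + 1)) K) (t : A) :
    Polynomial.eval t (aeval p F) = aeval (fun i => (p i).eval t) F := by
  have h2 := eval₂_comp_left (Polynomial.evalRingHom t)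
    (algebraMap K (Polynomial (A))) p F
  rw [← aeval_def] at h2
  rw [← Polynomial.coe_evalRingHom, h2, aeval_def]
  have h3 : (Polynomial.evalRingHom t).comp
      (algebraMap K (Polynomial (A))) =
      algebraMap K (A) := by
    ext x
    rw [RingHom.comp_apply, IsScalarTower.algebraMap_apply K (A)
      (Polynomial (A))]
    simp only [Polynomial.algebraMap_eq, Polynomial.coe_evalRingHom, Polynomial.eval_C]
  rw [h3]
  rfl

/-- A line over the algebraic closure. -/
theorem exists_line_curve [Infinite A] (P Q : Fin (n + 1) → A) (a b : Fin (n + 1))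
    (hab : P a * Q b ≠ P b * Q a)
    (h : ∀ F ∈ S, ∀ t : A, aeval (fun k => P k + Q k * t) F = 0) :
    Nonempty (CurveOver A S) := by
  classical
  have hne : a ≠ b := by
    rintro rfl
    exact hab rfl
  have hΔ : P a * Q b - P b * Q a ≠ 0 := sub_ne_zero.mpr hab
  refine ⟨⟨fun k => Polynomial.C (P k) + Polynomial.C (Q k) * Polynomial.X,
    fun k => if k = a then Polynomial.C (Q b / (P a * Q b - P b * Q a)) else
      if k = b then Polynomial.C (- Q a / (P a * Q b - P b * Q a)) else 0, ?_, ?_, ?_⟩⟩
  · rw [← Finset.add_sum_erase _ _ (Finset.mem_univ a),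
      ← Finset.add_sum_erase _ _ (Finset.mem_erase.mpr ⟨hne.symm, Finset.mem_univ b⟩)]
    rw [Finset.sum_eq_zero]
    · simp only [if_true, if_neg hne.symm]
      have h1 : Q b / (P a * Q b - P b * Q a) * P a + - Q a / (P a * Q b - P b * Q a) * P b = 1 := by
        rw [div_mul_eq_mul_div, div_mul_eq_mul_div, ← add_div, div_eq_one_iff_eq hΔ]
        ring
      have h2 : Q b / (P a * Q b - P b * Q a) * Q a +
          - Q a / (P a * Q b - P b * Q a) * Q b = 0 := by
        field_simp
        ring
      calc Polynomial.C (Q b / (P a * Q b - P b * Q a)) *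
            (Polynomial.C (P a) + Polynomial.C (Q a) * Polynomial.X) +
          (Polynomial.C (- Q a / (P a * Q b - P b * Q a)) *
            (Polynomial.C (P b) + Polynomial.C (Q b) * Polynomial.X) + 0)
          = Polynomial.C (Q b / (P a * Q b - P b * Q a) * P a +
              - Q a / (P a * Q b - P b * Q a) * P b) +
            Polynomial.C (Q b / (P a * Q b - P b * Q a) * Q a +
              - Q a / (P a * Q b - P b * Q a) * Q b) * Polynomial.X := by
            simp only [map_add, map_mul]
            ring
        _ = 1 := by rw [h1, h2]; simp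
    · intro k hk
      rw [Finset.mem_erase, Finset.mem_erase] at hk
      rw [if_neg hk.2.1, if_neg hk.1, zero_mul]
  · intro F hF
    apply Polynomial.eq_of_infinite_eval_eq
    refine Set.infinite_univ.mono ?_
    intro t _
    show Polynomial.eval t _ = Polynomial.eval t 0
    rw [Polynomial.eval_zero, eval_aeval_poly]
    have h1 := h F hF t
    rw [← h1]
    congr 1
    simp
  · refine ⟨0, 1, a, b, ?_⟩
    simp only [Polynomial.eval_add, Polynomial.eval_C, Polynomial.eval_mul, Polynomial.eval_X,
      mul_zero, add_zero, mul_one]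
    intro h1
    apply hab
    linear_combination h1

/-- A coordinate line. -/
theorem exists_coordinate_line [Infinite A] (a b : Fin (n + 1)) (hab : a ≠ b)
    (h : ∀ F ∈ S, ∀ m ∈ F.support, ∃ k, k ≠ a ∧ k ≠ b ∧ m k ≠ 0) :
    Nonempty (CurveOver A S) := by
  classical
  refine exists_line_curve (fun k => if k = a then 1 else 0) (fun k => if k = b then 1 else 0)
    a b (by simp [hab, hab.symm]) ?_
  intro F hF t
  rw [aeval_eq_sum']
  refine Finset.sum_eq_zero fun m hm => ?_
  obtain ⟨k, hka, hkb, hk⟩ := h F hF m hm
  rw [Finset.prod_eq_zero (Finset.mem_univ k), mul_zero]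
  simp [hka, hkb, hk]

theorem compAt_of_supported {d : ℕ}
    {F : MvPolynomial (Fin (n + 1)) K} (hF : F.IsHomogeneous d)
    (w : Fin (n + 1) → ℤ) (i : Fin (n + 1)) (v : Fin (n + 1) → A)
    (hv : ∀ j, w j ≠ w i → v j = 0) (ω : ℤ) :
    compAt w ω F v = if ω = d * w i then aeval v F else 0 := by
  classical
  have key : ∀ m ∈ F.support, weightOf w m ≠ d * w i → ∏ j, v j ^ m j = 0 := by
    intro m hm hne
    by_contra hprod
    apply hne
    have h1 : ∀ j, (m j : ℤ) * w j = (m j : ℤ) * w i := by
      intro j
      by_cases hj : w j = w i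
      · rw [hj]
      · have h2 : v j ^ m j ≠ 0 := fun h0 => hprod (Finset.prod_eq_zero (Finset.mem_univ j) h0)
        rw [hv j hj] at h2
        have h3 : m j = 0 := by
          by_contra h4
          exact h2 (zero_pow h4)
        rw [h3]
        simp
    unfold weightOf
    rw [Finset.sum_congr rfl fun j _ => h1 j, ← Finset.sum_mul]
    have h2 : ∑ j, (m j : ℤ) = d := by exact_mod_cast degree_sum hF hm
    rw [h2]
  split_ifs with hω
  · rw [aeval_eq_sum']
    unfold compAt
    rw [Finset.sum_filter]
    refine Finset.sum_congr rfl fun m hm => ?_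
    split_ifs with h1
    · rfl
    · rw [key m hm (by rwa [hω] at h1), mul_zero]
  · unfold compAt
    refine Finset.sum_eq_zero fun m hm => ?_
    rw [Finset.mem_filter] at hm
    rw [key m hm.1 (by rw [hm.2]; exact hω), mul_zero]

/-- The weight criterion over the algebraic closure. -/
theorem exists_curve_of_weights [IsAlgClosed A] [CharZero A] (S : Finset (MvPolynomial (Fin (n + 1)) K))
    (hS : ∀ F ∈ S, ∃ d, F.IsHomogeneous d) (w : Fin (n + 1) → ℤ) (i : Fin (n + 1))
    (z : Fin (n + 1) → A) (hz0 : z ≠ 0) (hzI : ∀ j, w j ≠ w i → z j = 0)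
    (hz : ∀ F ∈ S, aeval z F = 0)
    (hcount : ∑ F ∈ S, (weights w F).card + max (wclass w i).card 2 ≤ n + 1) :
    Nonempty (CurveOver A (S : Set (MvPolynomial (Fin (n + 1)) K))) := by
  classical
  by_cases hcase : (∀ F ∈ S, ∀ v : Fin (n + 1) → A,
      (∀ j, w j ≠ w i → v j = 0) → aeval v F = 0) ∧ 2 ≤ (wclass w i).card
  · obtain ⟨h1, h2⟩ := hcase
    obtain ⟨a, ha, b, hb, hab⟩ := Finset.one_lt_card.mp h2
    have ha' : w a = w i := (Finset.mem_filter.mp ha).2
    have hb' : w b = w i := (Finset.mem_filter.mp hb).2
    refine exists_line_curve (fun k => if k = a then 1 else 0) (fun k => if k = b then 1 else 0)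
      a b (by simp [hab, hab.symm]) ?_
    intro F hF t
    apply h1 F hF
    intro j hj
    have hja : j ≠ a := by rintro rfl; exact hj ha'
    have hjb : j ≠ b := by rintro rfl; exact hj hb'
    simp [hja, hjb]
  · obtain ⟨i₁, hi₁⟩ : ∃ j, z j ≠ 0 := by
      by_contra hcon
      push Not at hcon
      exact hz0 (funext hcon)
    have hwi₁ : w i₁ = w i := by
      by_contra h
      exact hi₁ (hzI i₁ h)
    let J : Finset (MvPolynomial (Fin (n + 1)) (A)) :=
      S.biUnion fun F => (weights w F).image fun ω => comp w ω F
    have hJcard : J.card ≤ ∑ F ∈ S, (weights w F).card :=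
      Finset.card_biUnion_le.trans (Finset.sum_le_sum fun F _ => Finset.card_image_le)
    have hJmem : ∀ G ∈ J, ∃ F ∈ S, ∃ ω ∈ weights w F, comp w ω F = G := by
      intro G hG
      simp only [J, Finset.mem_biUnion, Finset.mem_image] at hG
      obtain ⟨F, hF, ω, hω, rfl⟩ := hG
      exact ⟨F, hF, ω, hω, rfl⟩
    have hzJ : ∀ G ∈ J, aeval z G = 0 := by
      intro G hG
      obtain ⟨F, hF, ω, _, rfl⟩ := hJmem G hG
      obtain ⟨d, hd⟩ := hS F hF
      rw [aeval_comp', compAt_of_supported hd w i z hzI, hz F hF, ite_self]
    let T : Finset (Fin (n + 1)) := Finset.univ.filter fun j => w j ≠ w i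
    have hTcard : T.card + (wclass w i).card = n + 1 := by
      have h1 := Finset.card_filter_add_card_filter_not (s := (Finset.univ : Finset (Fin (n + 1))))
        (fun j => w j ≠ w i)
      simp only [not_not, Finset.card_univ, Fintype.card_fin] at h1
      exact h1
    by_cases hex : ∃ c : Fin (n + 1) → A, (∀ G ∈ J, aeval c G = 0) ∧
        ∃ j ∈ T, c i₁ * c j ≠ 0
    · obtain ⟨c, hc, j, hj, hcj⟩ := hex
      have hwj : w j ≠ w i := (Finset.mem_filter.mp hj).2
      refine exists_monomial_curve (S := (S : Set (MvPolynomial (Fin (n + 1)) K))) hS w c ?_ i₁ j (left_ne_zero_of_mul hcj)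
        (right_ne_zero_of_mul hcj) (by rw [hwi₁]; exact hwj.symm)
      intro F hF ω
      by_cases hω : ω ∈ weights w F
      · rw [← aeval_comp']
        apply hc
        simp only [J, Finset.mem_biUnion, Finset.mem_image]
        exact ⟨F, hF, ω, hω, rfl⟩
      · unfold compAt
        rw [Finset.sum_eq_zero]
        intro m hm
        rw [Finset.mem_filter] at hm
        exact absurd (Finset.mem_image.mpr ⟨m, hm.1, hm.2⟩) hω
    · exfalso
      push Not at hex
      obtain ⟨hA, hB⟩ := card_le_of_zeros J z hzJ i₁ hi₁ T fun c hc j hj => hex c hc j hj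
      rw [not_and_or] at hcase
      rcases hcase with hcase | hcase
      · -- some form does not vanish identically on the class
        push Not at hcase
        obtain ⟨F, hF, v, hv, hFv⟩ := hcase
        obtain ⟨d, hd⟩ := hS F hF
        have hωF : (d * w i : ℤ) ∈ weights w F := by
          by_contra hcon
          apply hFv
          have h1 := compAt_of_supported hd w i v hv (d * w i)
          rw [if_pos rfl] at h1
          rw [← h1]
          unfold compAt
          rw [Finset.sum_eq_zero]
          intro m hm
          rw [Finset.mem_filter] at hm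
          exact absurd (Finset.mem_image.mpr ⟨m, hm.1, hm.2⟩) hcon
        have h2 := hB ⟨comp w (d * w i) F, ?_, ?_⟩
        · have h3 : (wclass w i).card ≤ max (wclass w i).card 2 := le_max_left _ _
          omega
        · simp only [J, Finset.mem_biUnion, Finset.mem_image]
          exact ⟨F, hF, _, hωF, rfl⟩
        · intro h0
          apply hFv
          have h1 := compAt_of_supported hd w i v hv (d * w i)
          rw [if_pos rfl] at h1
          rw [← h1, ← aeval_comp' (A := A)]
          have h3 := sub_killVars_mem T (comp (A := A) w (d * w i) F)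
          rw [h0, sub_zero] at h3
          have h4 : Ideal.span ((X : Fin (n + 1) → MvPolynomial (Fin (n + 1))
              (A)) '' (T : Set (Fin (n + 1)))) ≤
              RingHom.ker (aeval v : MvPolynomial (Fin (n + 1)) (A) →ₐ[_] _) := by
            rw [Ideal.span_le]
            rintro _ ⟨j, hj, rfl⟩
            have hj' : w j ≠ w i := (Finset.mem_filter.mp hj).2
            rw [SetLike.mem_coe, RingHom.mem_ker, aeval_X]
            exact hv j hj'
          exact h4 h3
      · have h3 : 2 ≤ max (wclass w i).card 2 := le_max_right _ _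
        omega

end

end Pool.Agent.Work.MP_f82ddf_nt
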