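import Mathlib

/-!
# Lang's equivalence for projective varieties over number fields: definitions

A projective variety over `K` is given by a set `S` of homogeneous polynomials in `n + 1`
variables over `K`.
-/

open MvPolynomial Topology
open scoped LinearAlgebra.Projectivization ENNReal

namespace Pool.Agent.Work.MP_f82ddf_nt

/-- Projective space of dimension `n` over the field `k`. -/
abbrev PSpace (k : Type*) [Field k] (n : ℕ) : Type _ := ℙ k (Fin (n + 1) → k)

/-- `X(L)`: the points over `L` of the projective variety `X` in `n`-space over `K` which is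
given by the vanishing of all the homogeneous polynomials in `S`. -/
def points {K : Type*} [Field K] {n : ℕ} (S : Set (MvPolynomial (Fin (n + 1)) K))
    (L : Type*) [Field L] [Algebra K L] : Set (PSpace L n) :=
  {p | ∀ F ∈ S, aeval p.rep F = 0}

/-- `X_σ`: the complex points of the base change of `X` along the embedding `σ` of `K` in the
field of complex numbers. -/
def complexPoints {K : Type*} [Field K] {n : ℕ} (S : Set (MvPolynomial (Fin (n + 1)) K))
    (σ : K →+* ℂ) : Set (PSpace ℂ n) :=
  {p | ∀ F ∈ S, eval₂ σ p.rep F = 0}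

/-- A map `f` into complex projective space is holomorphic on the open set `Ω` if near each point
of `Ω` it has homogeneous coordinates which are holomorphic functions without common zero. -/
def HolomorphicOn {n : ℕ} (f : ℂ → PSpace ℂ n) (Ω : Set ℂ) : Prop :=
  ∀ z₀ ∈ Ω, ∃ g : ℂ → (Fin (n + 1) → ℂ), AnalyticAt ℂ g z₀ ∧
    ∀ᶠ z in 𝓝 z₀, ∃ h : g z ≠ 0, f z = Projectivization.mk ℂ (g z) h

/-- The Poincaré distance between two points of the open unit disc. -/
noncomputable def poincareDist (a b : ℂ) : ℝ :=
  Real.log ((1 + ‖(a - b) / (1 - star a * b)‖) / (1 - ‖(a - b) / (1 - star a * b)‖))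

/-- `DiscChain X p q s`: there is a finite chain of holomorphic maps from the open unit disc to
`X` joining `p` to `q`, of total Poincaré length `s`. -/
inductive DiscChain {n : ℕ} (X : Set (PSpace ℂ n)) : PSpace ℂ n → PSpace ℂ n → ℝ → Prop
  | refl (p : PSpace ℂ n) : p ∈ X → DiscChain X p p 0
  | step (f : ℂ → PSpace ℂ n) (a b : ℂ) (q : PSpace ℂ n) (s : ℝ) :
      HolomorphicOn f (Metric.ball 0 1) → Set.MapsTo f (Metric.ball 0 1) X →
      a ∈ Metric.ball (0 : ℂ) 1 → b ∈ Metric.ball (0 : ℂ) 1 → DiscChain X (f b) q s →
      DiscChain X (f a) q (poincareDist a b + s)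

/-- The Kobayashi pseudodistance of `X` (infinite if there is no chain of discs). -/
noncomputable def kobayashiDist {n : ℕ} (X : Set (PSpace ℂ n)) (p q : PSpace ℂ n) : ℝ≥0∞ :=
  ⨅ (s : ℝ) (_ : DiscChain X p q s), ENNReal.ofReal s

/-- `X` is Kobayashi hyperbolic: the Kobayashi pseudodistance is a distance. -/
def KobayashiHyperbolic {n : ℕ} (X : Set (PSpace ℂ n)) : Prop :=
  ∀ p ∈ X, ∀ q ∈ X, p ≠ q → 0 < kobayashiDist X p q

/-- Lang's equivalence for the projective variety `X` given by `S` and the embedding `σ`:
the complex manifold `X_σ` is Kobayashi hyperbolic if and only if `X(L)` is finite for every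
finite field extension `L` of `K`. -/
def LangEquivalence {K : Type} [Field K] {n : ℕ} (S : Set (MvPolynomial (Fin (n + 1)) K))
    (σ : K →+* ℂ) : Prop :=
  KobayashiHyperbolic (complexPoints S σ) ↔
    ∀ (L : Type) [Field L] [Algebra K L] [FiniteDimensional K L], (points S L).Finite

/-- The hypersurface `F = 0` is smooth (Jacobian criterion at all geometric points). -/
def Nonsingular {K : Type*} [Field K] {n : ℕ} (F : MvPolynomial (Fin (n + 1)) K) : Prop :=
  ∀ v : Fin (n + 1) → AlgebraicClosure K, v ≠ 0 → aeval v F = 0 →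
    ∃ i, aeval v (pderiv i F) ≠ 0

/-- The form `F(g x)` obtained from `F` by the linear change of coordinates `g` over the algebraic
closure of `K`. -/
noncomputable def subst {K : Type*} [Field K] {n : ℕ}
    (g : Matrix.GeneralLinearGroup (Fin (n + 1)) (AlgebraicClosure K))
    (F : MvPolynomial (Fin (n + 1)) K) : MvPolynomial (Fin (n + 1)) (AlgebraicClosure K) :=
  aeval (fun i => ∑ j, C (g.val i j) * X j) F

/-- The weight of the monomial with exponents `m`, when the `i`-th variable has weight `w i`. -/
def weightOf {n : ℕ} (w : Fin (n + 1) → ℤ) (m : Fin (n + 1) →₀ ℕ) : ℤ := ∑ i, (m i : ℤ) * w i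

/-- The set of weights of the monomials of `F`. -/
noncomputable def weights {K : Type*} [Field K] {n : ℕ} (w : Fin (n + 1) → ℤ)
    (F : MvPolynomial (Fin (n + 1)) K) : Finset ℤ := F.support.image (weightOf w)

/-- The set of variables with the same weight as the `i`-th one. -/
def wclass {n : ℕ} (w : Fin (n + 1) → ℤ) (i : Fin (n + 1)) : Finset (Fin (n + 1)) :=
  Finset.univ.filter fun j => w j = w i

/-- The invertible matrix `g` is a linear symmetry of the hypersurface `F = 0`: substituting `g`
multiplies the form `F` by a nonzero constant. -/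
def IsSymmetry {K : Type*} [Field K] {n : ℕ} (F : MvPolynomial (Fin (n + 1)) K)
    (g : Matrix.GeneralLinearGroup (Fin (n + 1)) (AlgebraicClosure K)) : Prop :=
  ∃ c : AlgebraicClosure K, c ≠ 0 ∧
    ∀ v : Fin (n + 1) → AlgebraicClosure K, aeval (g.val.mulVec v) F = c * aeval v F

end Pool.Agent.Work.MP_f82ddf_nt
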