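import Pool.Agent.Work.MP_f82ddf_nt.Criterion

/-!
# Smooth hypersurfaces with few monomials
-/

open MvPolynomial
open scoped LinearAlgebra.Projectivization ENNReal

namespace Pool.Agent.Work.MP_f82ddf_nt

section

variable {K A : Type*} [Field K] [Field A] [Algebra K A] {n : ℕ}
  {F : MvPolynomial (Fin (n + 1)) K} {d : ℕ}

/-- Smoothness of the hypersurface `F = 0` at the coordinate points lying on it. -/
def SmoothAtVertices (A : Type*) [Field A] [Algebra K A] (F : MvPolynomial (Fin (n + 1)) K) :
    Prop :=
  ∀ i, aeval (Pi.single i 1 : Fin (n + 1) → A) F = 0 →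
    ∃ k, aeval (Pi.single i 1 : Fin (n + 1) → A) (pderiv k F) ≠ 0

theorem eq_single_of_zero {m : Fin (n + 1) →₀ ℕ} (i : Fin (n + 1)) (hm : ∑ j, m j = d)
    (h : ∀ j, j ≠ i → m j = 0) : m = Finsupp.single i d := by
  classical
  ext j
  by_cases hj : j = i
  · subst hj
    rw [Finsupp.single_eq_same, ← hm, Finset.sum_eq_single j (fun b _ hb => h b hb)
      (fun h' => absurd (Finset.mem_univ _) h')]
  · rw [h j hj, Finsupp.single_eq_of_ne hj]

theorem aeval_single_eq_zero (hF : F.IsHomogeneous d) (i : Fin (n + 1))
    (hi : Finsupp.single i d ∉ F.support) :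
    aeval (Pi.single i 1 : Fin (n + 1) → A) F = 0 := by
  classical
  rw [aeval_eq_sum']
  refine Finset.sum_eq_zero fun m hm => ?_
  have hex : ∃ j, j ≠ i ∧ m j ≠ 0 := by
    by_contra hcon
    push Not at hcon
    exact hi (eq_single_of_zero i (degree_sum hF hm) hcon ▸ hm)
  obtain ⟨j, hj, hmj⟩ := hex
  rw [Finset.prod_eq_zero (Finset.mem_univ j), mul_zero]
  rw [Pi.single_eq_of_ne hj, zero_pow hmj]

/-- Smoothness at the coordinate points. -/
theorem exists_pointed (hF : F.IsHomogeneous d) (hd : 1 ≤ d) 
    (hns : SmoothAtVertices A F) (i : Fin (n + 1)) : ∃ k, Finsupp.single i (d - 1) + Finsupp.single k 1 ∈ F.support := by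
  classical
  by_cases hi : Finsupp.single i d ∈ F.support
  · refine ⟨i, ?_⟩
    rw [← Finsupp.single_add, Nat.sub_add_cancel hd]
    exact hi
  · have h0 := aeval_single_eq_zero (A := A) hF i hi
    obtain ⟨k, hk⟩ := hns i h0
    refine ⟨k, ?_⟩
    by_contra hcon
    apply hk
    have h1 : pderiv k F = ∑ m ∈ F.support, monomial (m - Finsupp.single k 1)
        (coeff m F * (m k : K)) := by
      conv_lhs => rw [← support_sum_monomial_coeff F]
      rw [map_sum]
      refine Finset.sum_congr rfl fun m _ => ?_
      rw [pderiv_monomial]
    rw [h1, map_sum]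
    refine Finset.sum_eq_zero fun m hm => ?_
    rw [aeval_monomial, Finsupp.prod_fintype _ _ fun j => pow_zero _]
    by_cases hmk : m k = 0
    · simp [hmk]
    have hex : ∃ j, j ≠ i ∧ (m - Finsupp.single k 1 : Fin (n + 1) →₀ ℕ) j ≠ 0 := by
      by_contra hcon2
      push Not at hcon2
      apply hcon
      have hm1 : m = (m - Finsupp.single k 1) + Finsupp.single k 1 := by
        rw [tsub_add_cancel_of_le]
        rw [Finsupp.single_le_iff]
        omega
      have hsum : ∑ j, (m - Finsupp.single k 1 : Fin (n + 1) →₀ ℕ) j = d - 1 := by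
        have h2 := degree_sum hF hm
        rw [hm1] at h2
        simp only [Finsupp.add_apply, Finset.sum_add_distrib] at h2
        have h3 : ∑ j, (Finsupp.single k 1 : Fin (n + 1) →₀ ℕ) j = 1 := by
          rw [Finset.sum_eq_single k]
          · simp
          · intro b _ hb
            rw [Finsupp.single_eq_of_ne hb]
          · intro h
            exact absurd (Finset.mem_univ _) h
        omega
      rw [← eq_single_of_zero i hsum hcon2, ← hm1]
      exact hm
    obtain ⟨j, hj, hmj⟩ := hex
    rw [Finset.prod_eq_zero (Finset.mem_univ j), mul_zero]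
    rw [Pi.single_eq_of_ne hj, zero_pow hmj]

/-- The weight criterion at a coordinate point. -/
theorem curve_of_single [IsAlgClosed A] [CharZero A] (hF : F.IsHomogeneous d) (i : Fin (n + 1))
    (hi : Finsupp.single i d ∉ F.support) (w : Fin (n + 1) → ℤ)
    (hw : ∀ k, k ≠ i → w k ≠ w i) (hcard : (weights w F).card + 2 ≤ n + 1) :
    Nonempty (CurveOver A ({F} : Set (MvPolynomial (Fin (n + 1)) K))) := by
  classical
  have hcl : wclass w i = {i} := by
    ext k
    simp only [wclass, Finset.mem_filter, Finset.mem_univ, true_and, Finset.mem_singleton]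
    constructor
    · intro h
      by_contra hk
      exact hw k hk h
    · rintro rfl; rfl
  have := exists_curve_of_weights (A := A) ({F} : Finset (MvPolynomial (Fin (n + 1)) K))
    (fun G hG => ⟨d, by rw [Finset.mem_singleton.mp hG]; exact hF⟩) w i
    (Pi.single i 1 : Fin (n + 1) → A)
    (by
      intro h
      have := congrFun h i
      simp at this)
    (fun j hj => by
      have : j ≠ i := by rintro rfl; exact hj rfl
      rw [Pi.single_eq_of_ne this])
    (fun G hG => by rw [Finset.mem_singleton.mp hG]; exact aeval_single_eq_zero hF i hi)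
    (by rw [hcl]; simpa using hcard)
  simpa using this

/-- A form of positive degree has a nontrivial zero on every coordinate line. -/
theorem exists_binary_zero [IsAlgClosed A] (hF : F.IsHomogeneous d) (hd : 1 ≤ d) (a b : Fin (n + 1))
    (hab : a ≠ b) : ∃ z : Fin (n + 1) → A, z ≠ 0 ∧
      (∀ k, k ≠ a → k ≠ b → z k = 0) ∧ aeval z F = 0 := by
  classical
  let p : Polynomial (A) :=
    aeval (fun k => if k = a then Polynomial.X else if k = b then 1 else 0) F
  have hp : ∀ t : A, p.eval t =
      aeval (fun k => if k = a then t else if k = b then 1 else 0) F := by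
    intro t
    rw [eval_aeval_poly]
    congr 1
    congr 1
    funext k
    split_ifs <;> simp
  by_cases hdeg : p.degree = 0
  · refine ⟨Pi.single a 1, ?_, ?_, ?_⟩
    · intro h
      have := congrFun h a
      simp at this
    · intro k hk _
      rw [Pi.single_eq_of_ne hk]
    · obtain ⟨c, _, hc⟩ := Polynomial.isUnit_iff.mp (Polynomial.isUnit_iff_degree_eq_zero.mpr hdeg)
      let q : Polynomial (A) :=
        aeval (fun k => if k = a then 1 else if k = b then Polynomial.X else 0) F
      have hq : ∀ t : A, q.eval t =
          aeval (fun k => if k = a then 1 else if k = b then t else 0) F := by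
        intro t
        rw [eval_aeval_poly]
        congr 1
        congr 1
        funext k
        split_ifs <;> simp
      have hqc : q = Polynomial.C c * Polynomial.X ^ d := by
        apply Polynomial.eq_of_infinite_eval_eq
        have hinf : ({t : A | t ≠ 0}).Infinite := by
          have h1 : ({t : A | t ≠ 0}) = ({0} : Set (A))ᶜ := rfl
          have : Infinite (A) := inferInstance
          rw [h1]
          exact (Set.finite_singleton _).infinite_compl
        refine hinf.mono ?_
        intro t ht
        have ht0 : t ≠ 0 := ht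
        show q.eval t = _
        rw [hq]
        have h2 : (fun k => if k = a then (1 : A) else if k = b then t else 0) =
            t • (fun k => if k = a then t⁻¹ else if k = b then 1 else 0) := by
          funext k
          simp only [Pi.smul_apply, smul_eq_mul]
          split_ifs
          · rw [mul_inv_cancel₀ ht0]
          · rw [mul_one]
          · rw [mul_zero]
        rw [h2, aeval_def, eval₂_smul_hom hF, ← aeval_def, ← hp, ← hc, Polynomial.eval_C,
          Polynomial.eval_mul, Polynomial.eval_C, Polynomial.eval_pow, Polynomial.eval_X,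
          mul_comm]
      have h3 := hq 0
      rw [hqc] at h3
      have h4 : (fun k => if k = a then (1 : A) else if k = b then 0 else 0) =
          Pi.single a 1 := by
        funext k
        by_cases hk : k = a
        · subst hk; simp
        · simp [hk]
      rw [h4] at h3
      rw [← h3]
      simp only [Polynomial.eval_mul, Polynomial.eval_C, Polynomial.eval_pow, Polynomial.eval_X]
      rw [zero_pow (by omega), mul_zero]
  · obtain ⟨t, ht⟩ := IsAlgClosed.exists_root p hdeg
    refine ⟨fun k => if k = a then t else if k = b then 1 else 0, ?_, ?_, ?_⟩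
    · intro h
      have := congrFun h b
      simp [hab.symm] at this
    · intro k hk1 hk2
      simp [hk1, hk2]
    · rw [← hp]
      exact ht

/-- The weight giving `1` to two variables and `0` to the others. -/
def pairW {n : ℕ} (a b : Fin (n + 1)) : Fin (n + 1) → ℤ := fun k => if k = a ∨ k = b then 1 else 0

theorem weightOf_pairW (a b : Fin (n + 1)) (hab : a ≠ b) (m : Fin (n + 1) →₀ ℕ) :
    weightOf (pairW a b) m = m a + m b := by
  classical
  unfold weightOf pairW
  rw [← Finset.add_sum_erase _ _ (Finset.mem_univ a),
    ← Finset.add_sum_erase _ _ (Finset.mem_erase.mpr ⟨hab.symm, Finset.mem_univ b⟩),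
    Finset.sum_eq_zero]
  · simp
  · intro k hk
    rw [Finset.mem_erase, Finset.mem_erase] at hk
    simp [hk.1, hk.2.1]

theorem curve_of_pair [IsAlgClosed A] [CharZero A] (hF : F.IsHomogeneous d) (hd : 1 ≤ d) (a b : Fin (n + 1))
    (hab : a ≠ b) (hcard : (weights (pairW a b) F).card + 2 ≤ n + 1) :
    Nonempty (CurveOver A ({F} : Set (MvPolynomial (Fin (n + 1)) K))) := by
  classical
  obtain ⟨z, hz0, hzs, hzF⟩ := exists_binary_zero (A := A) hF hd a b hab
  have hcl : wclass (pairW a b) a = {a, b} := by
    ext k
    simp only [wclass, pairW, Finset.mem_filter, Finset.mem_univ, true_and, true_or, if_true,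
      Finset.mem_insert, Finset.mem_singleton]
    constructor
    · intro h
      by_contra hk
      rw [if_neg hk] at h
      exact zero_ne_one h
    · intro h
      rw [if_pos h]
  have := exists_curve_of_weights (A := A) ({F} : Finset (MvPolynomial (Fin (n + 1)) K))
    (fun G hG => ⟨d, by rw [Finset.mem_singleton.mp hG]; exact hF⟩) (pairW a b) a z hz0
    (fun j hj => by
      apply hzs
      · rintro rfl; exact hj rfl
      · rintro rfl
        apply hj
        simp [pairW])
    (fun G hG => by rw [Finset.mem_singleton.mp hG]; exact hzF)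
    (by rw [hcl, Finset.card_pair hab]; simpa using hcard)
  simpa using this

end

end Pool.Agent.Work.MP_f82ddf_nt
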