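import Pool.Agent.Work.MP_f82ddf_nt.Few

/-!
# Smooth hypersurfaces with few monomials contain rational curves
-/

open MvPolynomial
open scoped LinearAlgebra.Projectivization ENNReal

namespace Pool.Agent.Work.MP_f82ddf_nt

section

variable {K A : Type*} [Field K] [Field A] [Algebra K A] {n : ℕ}
  {F : MvPolynomial (Fin (n + 1)) K} {d : ℕ}

theorem card_weights_le (w : Fin (n + 1) → ℤ) (N : Finset (Fin (n + 1) →₀ ℕ)) (B : Finset ℤ)
    (h : ∀ m ∈ F.support, m ∈ N ∨ weightOf w m ∈ B) :
    (weights w F).card ≤ B.card + N.card := by
  classical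
  have h1 : weights w F ⊆ B ∪ N.image (weightOf w) := by
    intro x hx
    obtain ⟨m, hm, rfl⟩ := Finset.mem_image.mp hx
    rcases h m hm with h2 | h2
    · exact Finset.mem_union_right _ (Finset.mem_image_of_mem _ h2)
    · exact Finset.mem_union_left _ h2
  calc (weights w F).card ≤ (B ∪ N.image (weightOf w)).card := Finset.card_le_card h1
    _ ≤ B.card + (N.image (weightOf w)).card := Finset.card_union_le _ _
    _ ≤ _ := by gcongr; exact Finset.card_image_le

/-- The weight giving `1` to one variable and `0` to the others. -/
def oneW {n : ℕ} (i : Fin (n + 1)) : Fin (n + 1) → ℤ := fun k => if k = i then 1 else 0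

theorem weightOf_oneW (i : Fin (n + 1)) (m : Fin (n + 1) →₀ ℕ) :
    weightOf (oneW i) m = m i := by
  classical
  unfold weightOf oneW
  rw [Finset.sum_eq_single i]
  · simp
  · intro k _ hk
    simp [hk]
  · intro h
    exact absurd (Finset.mem_univ _) h

/-- All the pure powers occur. -/
theorem curve_of_pure [IsAlgClosed A] [CharZero A] (hn : 3 ≤ n) (hF : F.IsHomogeneous d) (hd : 1 ≤ d)
    (hM : F.support.card + 2 ≤ 2 * n) (hpure : ∀ i, Finsupp.single i d ∈ F.support) :
    Nonempty (CurveOver A ({F} : Set (MvPolynomial (Fin (n + 1)) K))) := by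
  classical
  let μ : Fin (n + 1) → (Fin (n + 1) →₀ ℕ) := fun i => Finsupp.single i d
  have hμ : Function.Injective μ := by
    intro i k hik
    exact Finsupp.single_left_injective (by omega) hik
  let N := F.support \ Finset.univ.image μ
  have hN : N.card + (n + 1) = F.support.card := by
    have h1 : (Finset.univ.image μ).card = n + 1 := by
      rw [Finset.card_image_of_injective _ hμ]; simp
    have h2 : Finset.univ.image μ ⊆ F.support := by
      intro m hm
      obtain ⟨i, _, rfl⟩ := Finset.mem_image.mp hm
      exact hpure i
    have h3 := Finset.card_sdiff_add_card_eq_card h2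
    rw [h1] at h3
    exact h3
  have h01 : (0 : Fin (n + 1)) ≠ 1 := by
    intro h
    have := congrArg Fin.val h
    rw [Fin.val_zero, Fin.val_one'] at this
    rw [Nat.mod_eq_of_lt (by omega)] at this
    omega
  refine curve_of_pair hF hd 0 1 h01 ?_
  have := card_weights_le (F := F) (pairW 0 1) N {(d : ℤ), 0} ?_
  · have h2 : ({(d : ℤ), 0} : Finset ℤ).card ≤ 2 := Finset.card_le_two
    omega
  · intro m hm
    by_cases hmN : m ∈ N
    · exact Or.inl hmN
    · right
      have h3 : m ∈ Finset.univ.image μ := by
        by_contra h4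
        exact hmN (Finset.mem_sdiff.mpr ⟨hm, h4⟩)
      obtain ⟨i, _, rfl⟩ := Finset.mem_image.mp h3
      rw [weightOf_pairW _ _ h01]
      by_cases hi0 : i = 0
      · subst hi0
        simp [μ, h01]
      · by_cases hi1 : i = 1
        · subst hi1
          simp [μ, h01.symm]
        · simp [μ, hi0, hi1]

theorem exists_curve_of_few [IsAlgClosed A] [CharZero A] (hn : 3 ≤ n) (hF : F.IsHomogeneous d) (hd : 1 ≤ d)
    (hns : SmoothAtVertices A F) (hM : F.support.card + 2 ≤ 2 * n) :
    Nonempty (CurveOver A ({F} : Set (MvPolynomial (Fin (n + 1)) K))) := by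
  classical
  by_contra hno
  by_cases hpure : ∀ i, Finsupp.single i d ∈ F.support
  · exact hno (curve_of_pure hn hF hd hM hpure)
  push Not at hpure
  obtain ⟨i₀, hi₀⟩ := hpure
  -- degrees one and two
  have hd3 : 3 ≤ d := by
    by_contra hd2
    push Not at hd2
    apply hno
    refine curve_of_single hF i₀ hi₀ (oneW i₀) (fun k hk => by simp [oneW, hk]) ?_
    have h1 : weights (oneW i₀) F ⊆ (Finset.range d).image (fun k : ℕ => (k : ℤ)) := by
      intro x hx
      obtain ⟨m, hm, rfl⟩ := Finset.mem_image.mp hx
      rw [weightOf_oneW]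
      refine Finset.mem_image_of_mem _ (Finset.mem_range.mpr ?_)
      have h2 := degree_sum hF hm
      have h3 : m i₀ ≤ d := by
        rw [← h2]
        exact Finset.single_le_sum (fun _ _ => Nat.zero_le _) (Finset.mem_univ i₀)
      refine lt_of_le_of_ne h3 ?_
      intro h4
      apply hi₀
      have h5 : m = Finsupp.single i₀ d := by
        apply eq_single_of_zero i₀ h2
        intro j hj
        have h6 := Finset.add_sum_erase Finset.univ (fun j => m j) (Finset.mem_univ i₀)
        have h7 : m j ≤ ∑ j ∈ Finset.univ.erase i₀, m j :=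
          Finset.single_le_sum (f := fun j => m j) (fun _ _ => Nat.zero_le _)
            (Finset.mem_erase.mpr ⟨hj, Finset.mem_univ j⟩)
        omega
      rw [← h5]
      exact hm
    have h2 := (Finset.card_le_card h1).trans Finset.card_image_le
    rw [Finset.card_range] at h2
    omega
  -- the pointed monomials
  have hpt : ∀ i, ∃ k, Finsupp.single i (d - 1) + Finsupp.single k 1 ∈ F.support ∧
      (Finsupp.single i d ∈ F.support → k = i) ∧ (Finsupp.single i d ∉ F.support → k ≠ i) := by
    intro i
    by_cases hi : Finsupp.single i d ∈ F.support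
    · refine ⟨i, ?_, fun _ => rfl, fun h => absurd hi h⟩
      rw [← Finsupp.single_add, Nat.sub_add_cancel hd]
      exact hi
    · obtain ⟨k, hk⟩ := exists_pointed hF hd hns i
      refine ⟨k, hk, fun h => absurd h hi, fun _ => ?_⟩
      rintro rfl
      apply hi
      rw [← Finsupp.single_add, Nat.sub_add_cancel hd] at hk
      exact hk
  choose j hj hjp hjn using hpt
  let μ : Fin (n + 1) → (Fin (n + 1) →₀ ℕ) := fun i =>
    Finsupp.single i (d - 1) + Finsupp.single (j i) 1
  have hμval : ∀ i k, μ i k = (if k = i then d - 1 else 0) + (if k = j i then 1 else 0) := by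
    intro i k
    simp only [μ, Finsupp.add_apply, Finsupp.single_apply]
    congr 1
    · simp only [eq_comm]
    · simp only [eq_comm]
  have hμ : Function.Injective μ := by
    intro i k hik
    by_contra hne
    have h1 := hμval i i
    have h2 := hμval k i
    rw [hik] at h1
    rw [h1] at h2
    rw [if_pos rfl, if_neg hne] at h2
    split_ifs at h2 <;> omega
  let N := F.support \ Finset.univ.image μ
  have hN : N.card + 3 ≤ n := by
    have h1 : (Finset.univ.image μ).card = n + 1 := by
      rw [Finset.card_image_of_injective _ hμ]; simp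
    have h2 : Finset.univ.image μ ⊆ F.support := by
      intro m hm
      obtain ⟨i, _, rfl⟩ := Finset.mem_image.mp hm
      exact hj i
    have h3 := Finset.card_sdiff_add_card_eq_card h2
    rw [h1] at h3
    have h4 : N.card = (F.support \ Finset.univ.image μ).card := rfl
    omega
  have hsupp : ∀ m ∈ F.support, m ∈ N ∨ ∃ i, m = μ i := by
    intro m hm
    by_cases h : m ∈ Finset.univ.image μ
    · obtain ⟨i, _, rfl⟩ := Finset.mem_image.mp h
      exact Or.inr ⟨i, rfl⟩
    · exact Or.inl (Finset.mem_sdiff.mpr ⟨hm, h⟩)
  -- step 1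
  have hstep1 : ∀ i, Finsupp.single i d ∉ F.support → ∃ k, k ≠ i ∧ j k = i := by
    intro i hi
    by_contra hcon
    push Not at hcon
    apply hno
    refine curve_of_single hF i hi (oneW i) (fun k hk => by simp [oneW, hk]) ?_
    have := card_weights_le (F := F) (oneW i) N {((d - 1 : ℕ) : ℤ), 0} ?_
    · have h2 : ({((d - 1 : ℕ) : ℤ), 0} : Finset ℤ).card ≤ 2 := Finset.card_le_two
      omega
    · intro m hm
      rcases hsupp m hm with h | ⟨k, rfl⟩
      · exact Or.inl h
      · right
        rw [weightOf_oneW, hμval]
        by_cases hki : k = i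
        · subst hki
          rw [if_pos rfl, if_neg (hjn k hi).symm]
          simp
        · rw [if_neg (Ne.symm hki), if_neg (hcon k hki).symm]
          simp
  -- step 2
  have hstep2 : ∀ i, Finsupp.single i d ∉ F.support → ∀ m ∈ N, m i ≠ 0 := by
    intro i hi m₀ hm₀ h0
    apply hno
    refine curve_of_single hF i hi (oneW i) (fun k hk => by simp [oneW, hk]) ?_
    have := card_weights_le (F := F) (oneW i) (N.erase m₀) {((d - 1 : ℕ) : ℤ), 1, 0} ?_
    · have h2 : ({((d - 1 : ℕ) : ℤ), 1, 0} : Finset ℤ).card ≤ 3 := Finset.card_le_three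
      have h3 := Finset.card_erase_of_mem hm₀
      have h4 : 0 < N.card := Finset.card_pos.mpr ⟨m₀, hm₀⟩
      omega
    · intro m hm
      rcases hsupp m hm with h | ⟨k, rfl⟩
      · by_cases hmm : m = m₀
        · right
          rw [hmm, weightOf_oneW, h0]
          simp
        · exact Or.inl (Finset.mem_erase.mpr ⟨hmm, h⟩)
      · right
        rw [weightOf_oneW, hμval]
        by_cases hki : k = i
        · subst hki
          rw [if_pos rfl, if_neg (hjn k hi).symm]
          simp
        · rw [if_neg (Ne.symm hki)]
          split_ifs <;> simp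
  let S₀ : Finset (Fin (n + 1)) := Finset.univ.filter fun i => Finsupp.single i d ∉ F.support
  have hS₀ : ∀ i, i ∈ S₀ ↔ Finsupp.single i d ∉ F.support := by
    intro i
    simp [S₀]
  have hsurj : ∀ i ∈ S₀, ∃ k ∈ S₀, j k = i := by
    intro i hi
    obtain ⟨k, hk, hki⟩ := hstep1 i ((hS₀ i).mp hi)
    refine ⟨k, ?_, hki⟩
    rw [hS₀]
    intro hcon
    exact hk ((hjp k hcon).symm.trans hki)
  have himage : S₀.image j = S₀ := by
    symm
    apply Finset.eq_of_subset_of_card_le
    · intro i hi
      obtain ⟨k, hk, hki⟩ := hsurj i hi
      exact Finset.mem_image.mpr ⟨k, hk, hki⟩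
    · exact Finset.card_image_le
  have hjS : ∀ k ∈ S₀, j k ∈ S₀ := by
    intro k hk
    rw [← himage]
    exact Finset.mem_image_of_mem _ hk
  have hjinj : Set.InjOn j S₀ := by
    apply Finset.card_image_iff.mp
    rw [himage]
  have hjout : ∀ k, k ∉ S₀ → j k = k := by
    intro k hk
    rw [hS₀, not_not] at hk
    exact hjp k hk
  -- step 3: at most one pure power
  have hstep3 : ∀ a b, a ∉ S₀ → b ∉ S₀ → a = b := by
    intro a b ha hb
    by_contra hab
    apply hno
    refine curve_of_pair hF hd a b hab ?_
    have := card_weights_le (F := F) (pairW a b) N {(d : ℤ), 0} ?_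
    · have h2 : ({(d : ℤ), 0} : Finset ℤ).card ≤ 2 := Finset.card_le_two
      omega
    · intro m hm
      rcases hsupp m hm with h | ⟨k, rfl⟩
      · exact Or.inl h
      · right
        rw [weightOf_pairW _ _ hab, hμval, hμval]
        by_cases hka : k = a
        · subst hka
          rw [hjout k ha, if_pos rfl, if_pos rfl, if_neg (Ne.symm hab), if_neg (Ne.symm hab)]
          have h4 : d - 1 + 1 = d := by omega
          simp [h4]
        · by_cases hkb : k = b
          · subst hkb
            rw [hjout k hb, if_pos rfl, if_pos rfl, if_neg hab, if_neg hab]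
            have h4 : d - 1 + 1 = d := by omega
            simp [h4]
          · have h5 : j k ≠ a := by
              by_cases hk : k ∈ S₀
              · intro h6
                exact ha (h6 ▸ hjS k hk)
              · rw [hjout k hk]; exact hka
            have h6 : j k ≠ b := by
              by_cases hk : k ∈ S₀
              · intro h6
                exact hb (h6 ▸ hjS k hk)
              · rw [hjout k hk]; exact hkb
            rw [if_neg (Ne.symm hka), if_neg (Ne.symm hkb), if_neg h5.symm, if_neg h6.symm]
            simp
  have hcardS : n ≤ S₀.card := by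
    have h1 : (Finset.univ \ S₀).card ≤ 1 := by
      rw [Finset.card_le_one]
      intro a ha b hb
      exact hstep3 a b (Finset.mem_sdiff.mp ha).2 (Finset.mem_sdiff.mp hb).2
    have h2 := Finset.card_sdiff_add_card_eq_card (Finset.subset_univ S₀)
    simp only [Finset.card_univ, Fintype.card_fin] at h2
    omega
  -- step 4: no independent pair
  have hstep4 : ∀ a ∈ S₀, ∀ b ∈ S₀, a ≠ b → j a = b ∨ j b = a := by
    intro a ha b hb hab
    by_contra hcon
    push Not at hcon
    obtain ⟨h1, h2⟩ := hcon
    obtain ⟨c, hc, hca, hcb⟩ : ∃ c ∈ S₀, c ≠ a ∧ c ≠ b := by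
      by_contra h3
      push Not at h3
      have h4 : S₀ ⊆ {a, b} := by
        intro x hx
        by_cases hxa : x = a
        · simp [hxa]
        · simp [h3 x hx hxa]
      have h5 := (Finset.card_le_card h4).trans Finset.card_le_two
      omega
    apply hno
    refine exists_coordinate_line a b hab ?_
    intro G hG m hm
    rw [Set.mem_singleton_iff.mp hG] at hm
    rcases hsupp m hm with h | ⟨k, rfl⟩
    · exact ⟨c, hca, hcb, hstep2 c ((hS₀ c).mp hc) m h⟩
    · by_cases hka : k = a
      · subst hka
        refine ⟨j k, ?_, h1, ?_⟩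
        · exact hjn k ((hS₀ k).mp ha)
        · rw [hμval, if_pos (rfl : j k = j k)]
          omega
      · by_cases hkb : k = b
        · subst hkb
          refine ⟨j k, h2, ?_, ?_⟩
          · exact hjn k ((hS₀ k).mp hb)
          · rw [hμval, if_pos (rfl : j k = j k)]
            omega
        · refine ⟨k, hka, hkb, ?_⟩
          rw [hμval, if_pos rfl]
          omega
  -- step 5: a cycle of length three
  obtain ⟨a, ha⟩ : S₀.Nonempty := Finset.card_pos.mp (by omega)
  obtain ⟨c, hc, hca⟩ := hsurj a ha
  have hja := hjS a ha
  have hja' : j a ≠ a := hjn a ((hS₀ a).mp ha)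
  have hcane : c ≠ a := by
    rintro rfl
    exact hja' hca
  have hsub : S₀ ⊆ {a, j a, c} := by
    intro b hb
    by_cases hba : b = a
    · simp [hba]
    · rcases hstep4 a ha b hb (Ne.symm hba) with h | h
      · simp [h]
      · have : b = c := hjinj hb hc (h.trans hca.symm)
        simp [this]
  have hcard3 := (Finset.card_le_card hsub).trans Finset.card_le_three
  have hn3 : n = 3 := by omega
  have hN0 : N = ∅ := by
    apply Finset.card_eq_zero.mp
    omega
  have hcb : c ≠ j a := by
    rintro rfl
    have h4 : S₀ ⊆ {a, j a} := by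
      intro x hx
      have := hsub hx
      simpa using this
    have h5 := (Finset.card_le_card h4).trans Finset.card_le_two
    omega
  have hjb : j (j a) = c := by
    have h1 := hsub (hjS (j a) hja)
    simp only [Finset.mem_insert, Finset.mem_singleton] at h1
    rcases h1 with h1 | h1 | h1
    · exact absurd (hjinj hja hc (h1.trans hca.symm)) (Ne.symm hcb)
    · exact absurd h1 (hjn (j a) ((hS₀ (j a)).mp hja))
    · exact h1
  -- the weight
  apply hno
  let w : Fin (n + 1) → ℤ := fun k =>
    if k = c then 0 else if k = a then d * (d - 2) else if k = j a then d * (d - 1) else d - 2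
  have hw0 : ∀ k, k ≠ c → w k ≠ w c := by
    intro k hk
    have hd' : (3 : ℤ) ≤ d := by exact_mod_cast hd3
    simp only [w, if_neg hk, if_true]
    split_ifs
    · nlinarith
    · nlinarith
    · linarith
  refine curve_of_single hF c ((hS₀ c).mp hc) w hw0 ?_
  have := card_weights_le (F := F) w N {(d : ℤ) * (d - 2), (d : ℤ) * (d - 1) ^ 2} ?_
  · have h2 : ({(d : ℤ) * (d - 2), (d : ℤ) * (d - 1) ^ 2} : Finset ℤ).card ≤ 2 :=
      Finset.card_le_two
    omega
  · intro m hm
    rcases hsupp m hm with h | ⟨k, rfl⟩
    · exact Or.inl h
    · right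
      have hwt : weightOf w (μ k) = (d - 1) * w k + w (j k) := by
        unfold weightOf
        have h1 : ∀ l, ((μ k l : ℕ) : ℤ) * w l =
            (if l = k then ((d : ℤ) - 1) * w l else 0) + (if l = j k then w l else 0) := by
          intro l
          rw [hμval]
          have h4 : ((d - 1 : ℕ) : ℤ) = (d : ℤ) - 1 := by
            rw [Nat.cast_sub hd]; simp
          push_cast
          split_ifs <;> push_cast [h4] <;> ring
        rw [Finset.sum_congr rfl fun l _ => h1 l, Finset.sum_add_distrib]
        rw [Finset.sum_ite_eq' Finset.univ k, Finset.sum_ite_eq' Finset.univ (j k)]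
        simp
      rw [hwt]
      by_cases hkS : k ∈ S₀
      · have hk := hsub hkS
        simp only [Finset.mem_insert, Finset.mem_singleton] at hk
        rcases hk with rfl | rfl | rfl
        · -- k = a
          have h1 : w k = d * (d - 2) := by simp [w, hcane.symm]
          have h2 : w (j k) = d * (d - 1) := by simp [w, hcb.symm, hja']
          rw [h1, h2]
          simp only [Finset.mem_insert, Finset.mem_singleton]
          right
          ring
        · have h1 : w (j a) = d * (d - 1) := by simp [w, hcb.symm, hja']
          have h2 : w (j (j a)) = 0 := by rw [hjb]; simp [w]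
          rw [h1, h2]
          simp only [Finset.mem_insert, Finset.mem_singleton]
          right
          ring
        · have h1 : w k = 0 := by simp [w]
          have h2 : w (j k) = d * (d - 2) := by rw [hca]; simp [w, hcane.symm]
          rw [h1, h2]
          simp only [Finset.mem_insert, Finset.mem_singleton]
          left
          ring
      · have hka : k ≠ a := by rintro rfl; exact hkS ha
        have hkb : k ≠ j a := by rintro rfl; exact hkS hja
        have hkc : k ≠ c := by rintro rfl; exact hkS hc
        have h1 : w k = d - 2 := by simp [w, hka, hkb, hkc]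
        rw [hjout k hkS, h1]
        simp only [Finset.mem_insert, Finset.mem_singleton]
        left
        ring

end

end Pool.Agent.Work.MP_f82ddf_nt
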