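import Pool.Agent.Work.MP_f82ddf_nt.Criterion

/-!
# Symmetric hypersurfaces: lines spanned by eigenvectors
-/

open MvPolynomial
open scoped LinearAlgebra.Projectivization ENNReal MatrixGroups

namespace Pool.Agent.Work.MP_f82ddf_nt

section

variable {K : Type*} [Field K] {n : ℕ} {F : MvPolynomial (Fin (n + 1)) K} {d : ℕ}

/-- The restriction of `F` to the line through `P` and `Q`. -/
noncomputable def onLine {A : Type*} [Field A] [Algebra K A] (F : MvPolynomial (Fin (n + 1)) K)
    (P Q : Fin (n + 1) → A) : Polynomial A :=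
  aeval (fun k => Polynomial.C (P k) + Polynomial.C (Q k) * Polynomial.X) F

theorem eval_onLine {A : Type*} [Field A] [Algebra K A] (P Q : Fin (n + 1) → A) (t : A) :
    (onLine F P Q).eval t = aeval (fun k => P k + Q k * t) F := by
  unfold onLine
  rw [eval_aeval_poly]
  congr 1
  simp

theorem aeval_smul_hom (hF : F.IsHomogeneous d) (v : Fin (n + 1) → AlgebraicClosure K)
    (a : AlgebraicClosure K) : aeval (a • v) F = a ^ d * aeval v F := by
  rw [aeval_def, aeval_def, eval₂_smul_hom hF]

theorem natDegree_onLine_le (hF : F.IsHomogeneous d) (P Q : Fin (n + 1) → AlgebraicClosure K) :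
    (onLine F P Q).natDegree ≤ d := by
  unfold onLine
  rw [aeval_eq_sum']
  apply Polynomial.natDegree_sum_le_of_forall_le
  intro m hm
  refine Polynomial.natDegree_mul_le.trans ?_
  have h1 : (algebraMap K (Polynomial (AlgebraicClosure K)) (coeff m F)).natDegree = 0 := by
    rw [IsScalarTower.algebraMap_apply K (AlgebraicClosure K) (Polynomial (AlgebraicClosure K)),
      Polynomial.algebraMap_eq, Polynomial.natDegree_C]
  rw [h1, zero_add]
  refine (Polynomial.natDegree_prod_le _ _).trans ?_
  rw [← degree_sum hF hm]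
  refine Finset.sum_le_sum fun i _ => ?_
  refine Polynomial.natDegree_pow_le.trans ?_
  have h2 : (Polynomial.C (P i) + Polynomial.C (Q i) * Polynomial.X).natDegree ≤ 1 := by
    rw [add_comm]
    exact Polynomial.natDegree_linear_le
  calc m i * (Polynomial.C (P i) + Polynomial.C (Q i) * Polynomial.X).natDegree
      ≤ m i * 1 := by gcongr
    _ = m i := mul_one _

/-- The derivative of the restriction to a line. -/
theorem derivative_onLine_eval_zero {A : Type*} [Field A] [Algebra K A]
    (P Q : Fin (n + 1) → A) :
    (Polynomial.derivative (onLine F P Q)).eval 0 = ∑ i, Q i * aeval P (pderiv i F) := by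
  classical
  induction F using MvPolynomial.induction_on with
  | C a =>
    have h1 : onLine (C a) P Q = Polynomial.C (algebraMap K A a) := by
      unfold onLine
      rw [← algebraMap_eq, AlgHom.commutes, IsScalarTower.algebraMap_apply K
        A (Polynomial A), Polynomial.algebraMap_eq]
    rw [h1]
    simp
  | add p q hp hq =>
    have h1 : onLine (p + q) P Q = onLine p P Q + onLine q P Q := by
      unfold onLine; rw [map_add]
    rw [h1, Polynomial.derivative_add, Polynomial.eval_add, hp, hq, ← Finset.sum_add_distrib]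
    refine Finset.sum_congr rfl fun i _ => ?_
    rw [map_add, map_add]
    ring
  | mul_X p j hp =>
    have h1 : onLine (p * X j) P Q = onLine p P Q *
        (Polynomial.C (P j) + Polynomial.C (Q j) * Polynomial.X) := by
      unfold onLine; rw [map_mul, aeval_X]
    have h2 : (onLine p P Q).eval 0 = aeval P p := by
      rw [eval_onLine]
      congr 1
      simp
    rw [h1, Polynomial.derivative_mul, Polynomial.eval_add, Polynomial.eval_mul,
      Polynomial.eval_mul, hp, h2]
    simp only [Polynomial.derivative_add, Polynomial.derivative_C, Polynomial.derivative_mul,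
      Polynomial.derivative_X, Polynomial.eval_add, Polynomial.eval_C, Polynomial.eval_mul,
      Polynomial.eval_X, mul_zero, add_zero, zero_mul, zero_add, mul_one]
    have h3 : ∀ i, Q i * aeval P (pderiv i (p * X j)) =
        (Q i * aeval P (pderiv i p)) * P j + (if i = j then Q i * aeval P p else 0) := by
      intro i
      rw [pderiv_mul, map_add, map_mul, map_mul, aeval_X, pderiv_X]
      by_cases hij : i = j
      · subst hij
        simp
        ring
      · rw [if_neg hij, Pi.single_eq_of_ne (Ne.symm hij), map_zero]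
        ring
    rw [Finset.sum_congr rfl fun i _ => h3 i, Finset.sum_add_distrib, ← Finset.sum_mul,
      Finset.sum_ite_eq' Finset.univ j]
    simp
    ring

/-- Coefficients of the restriction to a line spanned by two eigenvectors. -/
theorem coeff_onLine (hF : F.IsHomogeneous d)
    (G : Module.End (AlgebraicClosure K) (Fin (n + 1) → AlgebraicClosure K))
    (c : AlgebraicClosure K) (hG : ∀ v, aeval (G v) F = c * aeval v F)
    (P Q : Fin (n + 1) → AlgebraicClosure K) (α ρ : AlgebraicClosure K)
    (hP : G P = α • P) (hQ : G Q = (α * ρ) • Q) (k : ℕ)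
    (hk : (onLine F P Q).coeff k ≠ 0) : α ^ d * ρ ^ k = c := by
  have h1 : Polynomial.C (α ^ d) * (onLine F P Q).comp (Polynomial.C ρ * Polynomial.X) =
      Polynomial.C c * onLine F P Q := by
    apply Polynomial.eq_of_infinite_eval_eq
    have : Infinite (AlgebraicClosure K) := inferInstance
    refine Set.infinite_univ.mono ?_
    intro t _
    show Polynomial.eval t _ = Polynomial.eval t _
    rw [Polynomial.eval_mul, Polynomial.eval_mul, Polynomial.eval_comp, Polynomial.eval_C,
      Polynomial.eval_C, Polynomial.eval_mul, Polynomial.eval_C, Polynomial.eval_X,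
      eval_onLine, eval_onLine]
    have h2 : (fun k => P k + Q k * t) = P + t • Q := by
      funext k
      simp [mul_comm]
    rw [h2, ← hG, map_add, map_smul, hP, hQ]
    have h3 : α • P + t • (α * ρ) • Q = α • (fun k => P k + Q k * (ρ * t)) := by
      funext k
      simp only [Pi.add_apply, Pi.smul_apply, smul_eq_mul]
      ring
    rw [h3, aeval_smul_hom hF]
  have h2 := congrArg (fun p => Polynomial.coeff p k) h1
  simp only [Polynomial.coeff_C_mul] at h2
  rw [Polynomial.comp_C_mul_X_coeff] at h2
  apply mul_right_cancel₀ hk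
  calc α ^ d * ρ ^ k * (onLine F P Q).coeff k
      = α ^ d * ((onLine F P Q).coeff k * ρ ^ k) := by ring
    _ = c * (onLine F P Q).coeff k := h2

/-- For every eigenvalue `α` there is an eigenvalue `β` with `α ^ (d - 1) * β = c`. -/
theorem exists_next (hF : F.IsHomogeneous d) (hd : 1 ≤ d) (hns : Nonsingular F)
    (G : Module.End (AlgebraicClosure K) (Fin (n + 1) → AlgebraicClosure K))
    (c : AlgebraicClosure K) (hG : ∀ v, aeval (G v) F = c * aeval v F)
    (hspan : ⨆ μ : AlgebraicClosure K, G.eigenspace μ = ⊤)
    (hinj : Function.Injective G)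
    (P : Fin (n + 1) → AlgebraicClosure K) (hP0 : P ≠ 0) (α : AlgebraicClosure K)
    (hP : G P = α • P) :
    ∃ Q : Fin (n + 1) → AlgebraicClosure K, Q ≠ 0 ∧ ∃ β, G Q = β • Q ∧ α ^ (d - 1) * β = c := by
  classical
  have hα : α ≠ 0 := by
    rintro rfl
    rw [zero_smul] at hP
    exact hP0 (hinj (by rw [hP, map_zero]))
  by_cases hFP : aeval P F = 0
  · obtain ⟨i, hi⟩ := hns P hP0 hFP
    let ℓ : (Fin (n + 1) → AlgebraicClosure K) →ₗ[AlgebraicClosure K] AlgebraicClosure K :=
      { toFun := fun v => ∑ i, v i * aeval P (pderiv i F)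
        map_add' := by
          intro v w
          simp only [Pi.add_apply, add_mul, Finset.sum_add_distrib]
        map_smul' := by
          intro a v
          simp only [Pi.smul_apply, smul_eq_mul, RingHom.id_apply, Finset.mul_sum, mul_assoc] }
    have hex : ∃ β, ∃ Q ∈ G.eigenspace β, ℓ Q ≠ 0 := by
      by_contra hcon
      push Not at hcon
      have h1 : (⊤ : Submodule (AlgebraicClosure K) (Fin (n + 1) → AlgebraicClosure K)) ≤
          LinearMap.ker ℓ := by
        rw [← hspan]
        refine iSup_le fun β => ?_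
        intro Q hQ
        exact hcon β Q hQ
      have h2 : ℓ (Pi.single i 1) = 0 := h1 (Submodule.mem_top)
      apply hi
      have h3 : ℓ (Pi.single i 1) = aeval P (pderiv i F) := by
        show ∑ j, (Pi.single i 1 : Fin (n + 1) → AlgebraicClosure K) j * aeval P (pderiv j F) = _
        rw [Finset.sum_eq_single i]
        · simp
        · intro j _ hj
          rw [Pi.single_eq_of_ne hj, zero_mul]
        · intro h
          exact absurd (Finset.mem_univ _) h
      rw [← h3]
      exact h2
    obtain ⟨β, Q, hQ, hℓ⟩ := hex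
    have hGQ : G Q = β • Q := Module.End.mem_eigenspace_iff.mp hQ
    refine ⟨Q, ?_, β, hGQ, ?_⟩
    · rintro rfl
      exact hℓ (map_zero ℓ)
    · have h1 : (onLine F P Q).coeff 1 ≠ 0 := by
        have h2 := derivative_onLine_eval_zero (F := F) P Q
        rw [← Polynomial.coeff_zero_eq_eval_zero, Polynomial.coeff_derivative] at h2
        intro h3
        apply hℓ
        show ∑ i, Q i * aeval P (pderiv i F) = 0
        rw [← h2, zero_add, h3]
        simp
      have h4 := coeff_onLine hF G c hG P Q α (β / α) hP
        (by rw [mul_div_cancel₀ _ hα]; exact hGQ) 1 h1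
      rw [pow_one] at h4
      rw [← h4]
      have h5 : α ^ d = α ^ (d - 1) * α := by
        rw [← pow_succ, Nat.sub_add_cancel hd]
      rw [h5]
      field_simp
  · refine ⟨P, hP0, α, hP, ?_⟩
    have h1 := hG P
    rw [hP, aeval_smul_hom hF] at h1
    have h2 : α ^ d = c := mul_right_cancel₀ hFP h1
    rw [← pow_succ, Nat.sub_add_cancel hd, h2]

/-- The main criterion: an eigenvalue `α` such that `α ^ d / c` has large order gives a line. -/
theorem line_of_eigenvalue [CharZero K] (hF : F.IsHomogeneous d) (hd : 3 ≤ d)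
    (hns : Nonsingular F)
    (G : Module.End (AlgebraicClosure K) (Fin (n + 1) → AlgebraicClosure K))
    (c : AlgebraicClosure K) (hc : c ≠ 0) (hG : ∀ v, aeval (G v) F = c * aeval v F)
    (hspan : ⨆ μ : AlgebraicClosure K, G.eigenspace μ = ⊤)
    (hinj : Function.Injective G)
    (P : Fin (n + 1) → AlgebraicClosure K) (hP0 : P ≠ 0) (α : AlgebraicClosure K)
    (hP : G P = α • P)
    (hord : ∀ k : ℕ, 1 ≤ k → k ≤ (d - 1) ^ 2 → (α ^ d / c) ^ k ≠ 1) :
    Nonempty (PolyCurve ({F} : Set (MvPolynomial (Fin (n + 1)) K))) := by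
  classical
  obtain ⟨Q, hQ0, β, hQ, hβ⟩ := exists_next hF (by omega) hns G c hG hspan hinj P hP0 α hP
  obtain ⟨R, hR0, γ, hR, hγ⟩ := exists_next hF (by omega) hns G c hG hspan hinj Q hQ0 β hQ
  have hne : ∀ (v : Fin (n + 1) → AlgebraicClosure K) (x : AlgebraicClosure K), v ≠ 0 →
      G v = x • v → x ≠ 0 := by
    rintro v x hv hx rfl
    rw [zero_smul] at hx
    exact hv (hinj (by rw [hx, map_zero]))
  have hα := hne P α hP0 hP
  have hβ0 := hne Q β hQ0 hQ
  have hγ0 := hne R γ hR0 hR
  set δ : AlgebraicClosure K := α ^ d / c with hδ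
  have hδ0 : δ ≠ 0 := div_ne_zero (pow_ne_zero _ hα) hc
  obtain ⟨e, rfl⟩ : ∃ e, d = e + 3 := ⟨d - 3, by omega⟩
  have hd1 : e + 3 - 1 = e + 2 := by omega
  rw [hd1] at hβ hγ hord
  -- the ratio of the eigenvalues
  have hρ : γ = α * δ ^ (e + 1) := by
    -- α ^ (e+2) * β = c and β ^ (e+2) * γ = c
    have h1 : β = c / α ^ (e + 2) := by
      rw [← hβ]
      field_simp
    have h2 : γ = c / β ^ (e + 2) := by
      rw [← hγ]
      field_simp
    rw [h2, h1, hδ]
    rw [div_pow, div_pow, div_div_eq_mul_div, ← pow_mul, ← pow_mul, mul_div_assoc',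
      div_eq_div_iff (pow_ne_zero _ hc) (pow_ne_zero _ hc)]
    ring
  have hRδ : G R = (α * δ ^ (e + 1)) • R := by rw [← hρ]; exact hR
  have hzero : onLine F P R = 0 := by
    ext k
    rw [Polynomial.coeff_zero]
    by_contra hk
    have hkd : k ≤ e + 3 := by
      by_contra hkd
      push Not at hkd
      exact hk (Polynomial.coeff_eq_zero_of_natDegree_lt
        (lt_of_le_of_lt (natDegree_onLine_le hF P R) hkd))
    have h1 := coeff_onLine hF G c hG P R α (δ ^ (e + 1)) hP hRδ k hk
    have h2 : δ ^ (1 + (e + 1) * k) = 1 := by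
      rw [pow_add, pow_one, pow_mul]
      have h3 : δ = α ^ (e + 3) / c := hδ
      calc δ * (δ ^ (e + 1)) ^ k = (α ^ (e + 3) * (δ ^ (e + 1)) ^ k) / c := by
            conv_lhs => rw [h3]
            rw [← h3]
            ring
        _ = 1 := by rw [h1]; exact div_self hc
    refine hord (1 + (e + 1) * k) (by omega) ?_ h2
    calc 1 + (e + 1) * k ≤ 1 + (e + 1) * (e + 3) := by gcongr
      _ = (e + 2) ^ 2 := by ring
  obtain ⟨a, ha⟩ : ∃ a, P a ≠ 0 := by
    by_contra hcon
    push Not at hcon
    exact hP0 (funext hcon)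
  have hex : ∃ b, P a * R b ≠ P b * R a := by
    by_contra hcon
    push Not at hcon
    have h1 : R = (R a / P a) • P := by
      funext b
      rw [Pi.smul_apply, smul_eq_mul, div_mul_eq_mul_div, eq_div_iff ha]
      linear_combination hcon b
    have h2 : γ • R = α • R := by
      rw [← hR]
      conv_lhs => rw [h1]
      rw [map_smul, hP, smul_comm, ← h1]
    have h3 : γ = α := by
      obtain ⟨b, hb⟩ : ∃ b, R b ≠ 0 := by
        by_contra hcon
        push Not at hcon
        exact hR0 (funext hcon)
      have h4 := congrFun h2 b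
      simp only [Pi.smul_apply, smul_eq_mul] at h4
      exact mul_right_cancel₀ hb h4
    have h4 : δ ^ (e + 1) = 1 := by
      apply mul_left_cancel₀ hα
      rw [← hρ, h3, mul_one]
    refine hord (e + 1) (by omega) ?_ h4
    nlinarith
  obtain ⟨b, hab⟩ := hex
  refine exists_line_curve P R a b hab ?_
  intro F' hF' t
  rw [Set.mem_singleton_iff.mp hF', ← eval_onLine, hzero, Polynomial.eval_zero]

end

end Pool.Agent.Work.MP_f82ddf_nt
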