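import Pool.Agent.Work.MP_f82ddf_nt.FewMain
import Pool.Agent.Work.MP_f82ddf_nt.Sym

/-!
# Linear changes of coordinates
-/

open MvPolynomial
open scoped LinearAlgebra.Projectivization ENNReal MatrixGroups

namespace Pool.Agent.Work.MP_f82ddf_nt

section

variable {K : Type*} [Field K] {n : ℕ} {F : MvPolynomial (Fin (n + 1)) K} {d : ℕ}

theorem aeval_subst {B : Type*} [CommRing B] [Algebra K B] [Algebra (AlgebraicClosure K) B]
    [IsScalarTower K (AlgebraicClosure K) B]
    (g : Matrix.GeneralLinearGroup (Fin (n + 1)) (AlgebraicClosure K))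
    (F : MvPolynomial (Fin (n + 1)) K) (v : Fin (n + 1) → B) :
    aeval v (subst g F) =
      aeval (fun i => ∑ j, algebraMap (AlgebraicClosure K) B (g.val i j) * v j) F := by
  unfold subst
  have h1 : aeval v (aeval (fun i => ∑ j, C (g.val i j) * X j) F :
      MvPolynomial (Fin (n + 1)) (AlgebraicClosure K)) =
      ((aeval v : MvPolynomial (Fin (n + 1)) (AlgebraicClosure K) →ₐ[AlgebraicClosure K] B
        ).restrictScalars K).comp
        (aeval (fun i => ∑ j, C (g.val i j) * X j) : MvPolynomial (Fin (n + 1)) K →ₐ[K]
          MvPolynomial (Fin (n + 1)) (AlgebraicClosure K)) F := rfl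
  rw [h1]
  congr 1
  apply MvPolynomial.algHom_ext
  intro i
  simp only [AlgHom.comp_apply, aeval_X, AlgHom.restrictScalars_apply, map_sum, map_mul,
    aeval_C]

theorem aeval_subst_vec (g : Matrix.GeneralLinearGroup (Fin (n + 1)) (AlgebraicClosure K))
    (F : MvPolynomial (Fin (n + 1)) K) (v : Fin (n + 1) → AlgebraicClosure K) :
    aeval v (subst g F) = aeval (g.val.mulVec v) F := by
  rw [aeval_subst]
  rfl

theorem isHomogeneous_subst (hF : F.IsHomogeneous d)
    (g : Matrix.GeneralLinearGroup (Fin (n + 1)) (AlgebraicClosure K)) :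
    (subst g F).IsHomogeneous d := by
  unfold subst
  have h1 : ∀ i, (∑ j, C (g.val i j) * X j : MvPolynomial (Fin (n + 1))
      (AlgebraicClosure K)).IsHomogeneous 1 := by
    intro i
    apply IsHomogeneous.sum
    intro j _
    have := (isHomogeneous_C (Fin (n + 1)) (g.val i j)).mul
      (isHomogeneous_X (AlgebraicClosure K) j)
    simpa using this
  have h2 := hF.aeval (fun i => (∑ j, C (g.val i j) * X j : MvPolynomial (Fin (n + 1))
      (AlgebraicClosure K))) h1
  simpa using h2

/-- A curve in the new coordinates gives a curve in the old ones. -/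
theorem exists_curve_of_subst
    (g : Matrix.GeneralLinearGroup (Fin (n + 1)) (AlgebraicClosure K))
    (S : Set (MvPolynomial (Fin (n + 1)) K))
    (h : Nonempty (CurveOver (AlgebraicClosure K) (subst g '' S))) :
    Nonempty (PolyCurve S) := by
  classical
  obtain ⟨C'⟩ := h
  let c : Fin (n + 1) → Polynomial (AlgebraicClosure K) :=
    fun i => ∑ j, Polynomial.C (g.val i j) * C'.c j
  have hinv : ∀ j, C'.c j = ∑ i, Polynomial.C (g⁻¹.val j i) * c i := by
    intro j
    simp only [c, Finset.mul_sum]
    rw [Finset.sum_comm]
    have h1 : ∀ k, ∑ i, Polynomial.C (g⁻¹.val j i) * (Polynomial.C (g.val i k) * C'.c k) =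
        if k = j then C'.c k else 0 := by
      intro k
      have h2 : ∑ i, g⁻¹.val j i * g.val i k = if j = k then 1 else 0 := by
        have h3 : g⁻¹.val * g.val = 1 := by
          rw [← Units.val_mul, inv_mul_cancel, Units.val_one]
        have h4 := congrFun (congrFun h3 j) k
        rw [Matrix.mul_apply, Matrix.one_apply] at h4
        exact h4
      calc ∑ i, Polynomial.C (g⁻¹.val j i) * (Polynomial.C (g.val i k) * C'.c k)
          = Polynomial.C (∑ i, g⁻¹.val j i * g.val i k) * C'.c k := by
            rw [map_sum, Finset.sum_mul]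
            refine Finset.sum_congr rfl fun i _ => ?_
            rw [map_mul, mul_assoc]
        _ = _ := by
            rw [h2]
            by_cases hjk : j = k
            · subst hjk; simp
            · rw [if_neg hjk, if_neg (Ne.symm hjk)]; simp
    rw [Finset.sum_congr rfl fun k _ => h1 k, Finset.sum_ite_eq' Finset.univ j]
    simp
  refine ⟨⟨c, fun i => ∑ j, C'.u j * Polynomial.C (g⁻¹.val j i), ?_, ?_, ?_⟩⟩
  · rw [← C'.bez]
    simp only [Finset.sum_mul]
    rw [Finset.sum_comm]
    refine Finset.sum_congr rfl fun j _ => ?_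
    conv_rhs => rw [hinv j]
    rw [Finset.mul_sum]
    refine Finset.sum_congr rfl fun i _ => ?_
    ring
  · intro F hF
    have h1 := C'.zero (subst g F) ⟨F, hF, rfl⟩
    rw [aeval_subst] at h1
    exact h1
  · by_contra hcon
    push Not at hcon
    obtain ⟨a, b, i, j, hne⟩ := C'.nonconst
    apply hne
    rw [hinv i, hinv j]
    simp only [Polynomial.eval_finsetSum, Polynomial.eval_mul, Polynomial.eval_C]
    rw [Finset.sum_mul_sum, Finset.sum_mul_sum, Finset.sum_comm]
    refine Finset.sum_congr rfl fun k _ => ?_
    refine Finset.sum_congr rfl fun l _ => ?_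
    have := hcon a b k l
    linear_combination - (g⁻¹.val i l * g⁻¹.val j k) * this

theorem smoothAtVertices_subst (hns : Nonsingular F)
    (g : Matrix.GeneralLinearGroup (Fin (n + 1)) (AlgebraicClosure K)) :
    SmoothAtVertices (AlgebraicClosure K) (subst g F) := by
  classical
  intro i hi
  rw [aeval_subst_vec] at hi
  have hginj : Function.Injective g.val.mulVec := by
    intro v w hvw
    have h1 : g⁻¹.val.mulVec (g.val.mulVec v) = g⁻¹.val.mulVec (g.val.mulVec w) := by
      rw [hvw]
    rw [Matrix.mulVec_mulVec, Matrix.mulVec_mulVec, ← Units.val_mul, inv_mul_cancel,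
      Units.val_one, Matrix.one_mulVec, Matrix.one_mulVec] at h1
    exact h1
  have hne : g.val.mulVec (Pi.single i 1) ≠ 0 := by
    intro h
    have h1 : g.val.mulVec (Pi.single i 1) = g.val.mulVec 0 := by rw [h, Matrix.mulVec_zero]
    have h2 := congrFun (hginj h1) i
    simp at h2
  obtain ⟨l, hl⟩ := hns _ hne hi
  by_contra hcon
  push Not at hcon
  apply hl
  -- the derivative in every direction vanishes
  have hdir : ∀ k, ∑ m, g.val m k * aeval (g.val.mulVec (Pi.single i 1)) (pderiv m F) = 0 := by
    intro k
    have h1 := derivative_onLine_eval_zero (F := F) (g.val.mulVec (Pi.single i 1))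
      (g.val.mulVec (Pi.single k 1))
    have h2 := derivative_onLine_eval_zero (F := subst g F)
      (Pi.single i 1 : Fin (n + 1) → AlgebraicClosure K) (Pi.single k 1)
    have h3 : onLine (subst g F) (Pi.single i 1 : Fin (n + 1) → AlgebraicClosure K)
        (Pi.single k 1) = onLine F (g.val.mulVec (Pi.single i 1))
        (g.val.mulVec (Pi.single k 1)) := by
      unfold onLine
      rw [aeval_subst]
      congr 1
      congr 1
      funext m
      simp only [Matrix.mulVec_single_one, Matrix.col_apply, mul_add, Finset.sum_add_distrib,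
        Polynomial.algebraMap_eq]
      congr 1
      · rw [Finset.sum_eq_single i]
        · simp
        · intro j _ hj
          rw [Pi.single_eq_of_ne hj]
          simp
        · intro h
          exact absurd (Finset.mem_univ _) h
      · rw [Finset.sum_eq_single k]
        · simp
        · intro j _ hj
          rw [Pi.single_eq_of_ne hj]
          simp
        · intro h
          exact absurd (Finset.mem_univ _) h
    rw [h3, h1] at h2
    have h4 : ∀ m, (g.val.mulVec (Pi.single k 1)) m = g.val m k := by
      intro m
      rw [Matrix.mulVec_single_one]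
      rfl
    simp only [h4] at h2
    rw [h2]
    rw [Finset.sum_eq_single k]
    · rw [hcon k, mul_zero]
    · intro j _ hj
      rw [Pi.single_eq_of_ne hj, zero_mul]
    · intro h
      exact absurd (Finset.mem_univ _) h
  have hvec : Matrix.vecMul (fun m => aeval (g.val.mulVec (Pi.single i 1)) (pderiv m F)) g.val =
      0 := by
    funext k
    rw [Matrix.vecMul, dotProduct]
    rw [Pi.zero_apply]
    refine Eq.trans ?_ (hdir k)
    refine Finset.sum_congr rfl fun m _ => ?_
    exact mul_comm _ _
  have h5 : Matrix.vecMul (Matrix.vecMul (fun m => aeval (g.val.mulVec (Pi.single i 1))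
      (pderiv m F)) g.val) g⁻¹.val = 0 := by
    rw [hvec, Matrix.zero_vecMul]
  rw [Matrix.vecMul_vecMul, ← Units.val_mul, mul_inv_cancel, Units.val_one,
    Matrix.vecMul_one] at h5
  exact congrFun h5 l

/-- Few monomials in suitable coordinates. -/
theorem exists_curve_of_few_subst [CharZero K] (hn : 3 ≤ n) (hF : F.IsHomogeneous d)
    (hd : 1 ≤ d) (hns : Nonsingular F)
    (g : Matrix.GeneralLinearGroup (Fin (n + 1)) (AlgebraicClosure K))
    (hM : (subst g F).support.card + 2 ≤ 2 * n) :
    Nonempty (PolyCurve ({F} : Set (MvPolynomial (Fin (n + 1)) K))) := by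
  have : CharZero (AlgebraicClosure K) :=
    charZero_of_injective_algebraMap (algebraMap K (AlgebraicClosure K)).injective
  apply exists_curve_of_subst g
  rw [Set.image_singleton]
  exact exists_curve_of_few (A := AlgebraicClosure K) hn (isHomogeneous_subst hF g) hd
    (smoothAtVertices_subst hns g) hM

/-- The weight criterion in suitable coordinates. -/
theorem exists_curve_of_weights_subst [CharZero K]
    (S : Finset (MvPolynomial (Fin (n + 1)) K))
    (hS : ∀ F ∈ S, ∃ d, F.IsHomogeneous d)
    (g : Matrix.GeneralLinearGroup (Fin (n + 1)) (AlgebraicClosure K))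
    (w : Fin (n + 1) → ℤ) (i : Fin (n + 1))
    (z : Fin (n + 1) → AlgebraicClosure K) (hz0 : z ≠ 0) (hzI : ∀ j, w j ≠ w i → z j = 0)
    (hz : ∀ F ∈ S, aeval z (subst g F) = 0)
    (hcount : ∑ F ∈ S, (weights w (subst g F)).card + max (wclass w i).card 2 ≤ n + 1) :
    Nonempty (PolyCurve (S : Set (MvPolynomial (Fin (n + 1)) K))) := by
  classical
  have : CharZero (AlgebraicClosure K) :=
    charZero_of_injective_algebraMap (algebraMap K (AlgebraicClosure K)).injective
  apply exists_curve_of_subst g
  have h1 := exists_curve_of_weights (A := AlgebraicClosure K) (S.image (subst g))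
    (by
      intro G hG
      obtain ⟨F, hF, rfl⟩ := Finset.mem_image.mp hG
      obtain ⟨d, hd⟩ := hS F hF
      exact ⟨d, isHomogeneous_subst hd g⟩) w i z hz0 hzI
    (by
      intro G hG
      obtain ⟨F, hF, rfl⟩ := Finset.mem_image.mp hG
      exact hz F hF)
    (by
      refine le_trans ?_ hcount
      gcongr
      have h2 : ∑ G ∈ S.image (subst g), (weights w G).card ≤
          ∑ F ∈ S, (weights w (subst g F)).card :=
        Finset.sum_image_le_of_nonneg (fun _ _ => Nat.zero_le _)
      exact h2)
  rw [Finset.coe_image] at h1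
  exact h1

end

end Pool.Agent.Work.MP_f82ddf_nt
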