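import Pool.Agent.Work.MP_f82ddf_nt.SpacedDefs
import Pool.Agent.Work.MP_f82ddf_nt.Closure
import Pool.Agent.Work.MP_f82ddf_nt.Subst
import Pool.Agent.Work.MP_f82ddf_nt.Brody.Spaced
import Pool.Agent.Work.MP_f82ddf_nt.Brody.Brody

/-!
# The dichotomy for forms with few monomials and spaced exponents
-/

open MvPolynomial Set Topology Filter
open scoped LinearAlgebra.Projectivization ENNReal

namespace Pool.Agent.Work.MP_f82ddf_nt

/-- The image of a curve under a linear map which is injective. -/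
theorem exists_image_curve {n : ℕ} (M M' : Matrix (Fin (n + 1)) (Fin (n + 1)) ℂ)
    (hM : M' * M = 1) {f : ℂ → PSpace ℂ n} (hf : HolomorphicOn f univ) :
    ∃ f' : ℂ → PSpace ℂ n, HolomorphicOn f' univ ∧
      (∀ z, ∃ a : ℂ, a ≠ 0 ∧ (f' z).rep = a • M.mulVec (f z).rep) ∧
      ∀ x y, f' x = f' y → f x = f y := by
  have hinj : ∀ v, M.mulVec v = 0 → v = 0 := by
    intro v hv
    have h1 : M'.mulVec (M.mulVec v) = 0 := by rw [hv, Matrix.mulVec_zero]
    rwa [Matrix.mulVec_mulVec, hM, Matrix.one_mulVec] at h1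
  have hne : ∀ v : Fin (n + 1) → ℂ, v ≠ 0 → M.mulVec v ≠ 0 := fun v hv h => hv (hinj v h)
  refine ⟨fun z => Projectivization.mk ℂ (M.mulVec (f z).rep) (hne _ (f z).rep_nonzero),
    ?_, ?_, ?_⟩
  · intro z₀ _
    obtain ⟨g, hg, hg'⟩ := hf z₀ (mem_univ z₀)
    refine ⟨fun z => M.mulVec (g z), ?_, ?_⟩
    · rw [analyticAt_pi_iff]
      intro i
      have h1 : (fun z => M.mulVec (g z) i) = fun z => ∑ j, M i j * g z j := by
        funext z
        rfl
      rw [h1]
      apply Finset.analyticAt_fun_sum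
      intro j _
      exact analyticAt_const.mul ((analyticAt_pi_iff.1 hg) j)
    · filter_upwards [hg'] with z hz
      obtain ⟨h1, h2⟩ := hz
      refine ⟨hne _ h1, ?_⟩
      obtain ⟨a, ha⟩ := Projectivization.exists_smul_eq_mk_rep ℂ (g z) h1
      rw [Projectivization.mk_eq_mk_iff']
      refine ⟨a, ?_⟩
      rw [h2, ← ha]
      have : (a • g z : Fin (n + 1) → ℂ) = (a : ℂ) • g z := rfl
      rw [this, Matrix.mulVec_smul]
  · intro z
    obtain ⟨a, ha⟩ := Projectivization.exists_smul_eq_mk_rep ℂ (M.mulVec (f z).rep)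
      (hne _ (f z).rep_nonzero)
    exact ⟨a, a.ne_zero, ha.symm⟩
  · intro x y h
    rw [Projectivization.mk_eq_mk_iff'] at h
    obtain ⟨a, ha⟩ := h
    rw [← (f x).mk_rep, ← (f y).mk_rep, Projectivization.mk_eq_mk_iff']
    refine ⟨a, ?_⟩
    rw [← sub_eq_zero]
    apply hinj
    rw [Matrix.mulVec_sub, Matrix.mulVec_smul, ha, sub_self]

section main

variable {K : Type} [Field K] {n : ℕ} {S : Set (MvPolynomial (Fin (n + 1)) K)}

/-- If the variety is not hyperbolic then it contains a monomial curve. -/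
theorem hasMonomialCurve_of_not_hyperbolic
    (g : Matrix.GeneralLinearGroup (Fin (n + 1)) (AlgebraicClosure K))
    (hS : ∀ F ∈ S, ∃ d, F.IsHomogeneous d)
    (hk : ∀ F ∈ S, ∃ k, (subst g F).support.card * ((subst g F).support.card - 2) < k ∧
      Spaced k (subst g F)) (σ : K →+* ℂ)
    (h : ¬ KobayashiHyperbolic (complexPoints S σ)) : HasMonomialCurve g S := by
  classical
  obtain ⟨f, hf, hfX, hne⟩ := exists_entire_curve hS σ h
  let _ : Algebra K ℂ := σ.toAlgebra
  let τ₀ : AlgebraicClosure K →ₐ[K] ℂ := IsAlgClosed.lift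
  let τ : AlgebraicClosure K →+* ℂ := τ₀
  let _ : Algebra (AlgebraicClosure K) ℂ := τ.toAlgebra
  have _ : IsScalarTower K (AlgebraicClosure K) ℂ :=
    IsScalarTower.of_algebraMap_eq fun x => (τ₀.commutes x).symm
  have hMM : (g⁻¹.val).map τ * (g.val).map τ = 1 := by
    rw [← Matrix.map_mul, ← Units.val_mul, inv_mul_cancel, Units.val_one]
    simp
  have hMM' : (g.val).map τ * (g⁻¹.val).map τ = 1 := by
    rw [← Matrix.map_mul, ← Units.val_mul, mul_inv_cancel, Units.val_one]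
    simp
  obtain ⟨f', hf', hrep, hinj⟩ := exists_image_curve _ _ hMM' hf
  have hS' : ∀ F ∈ subst g '' S, ∃ d, F.IsHomogeneous d := by
    rintro _ ⟨F, hF, rfl⟩
    obtain ⟨d, hd⟩ := hS F hF
    exact ⟨d, isHomogeneous_subst hd g⟩
  have hev : ∀ z, ∀ F ∈ S, eval₂ τ (f' z).rep (subst g F) = 0 := by
    intro z F hF
    obtain ⟨a, ha, hrepz⟩ := hrep z
    obtain ⟨d, hd⟩ := hS F hF
    rw [hrepz, eval₂_smul_hom (isHomogeneous_subst hd g)]
    have h1 : eval₂ τ ((g⁻¹.val.map τ).mulVec (f z).rep) (subst g F) =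
        aeval ((g⁻¹.val.map τ).mulVec (f z).rep) (subst g F) := rfl
    have h2 : (fun i => ∑ j, algebraMap (AlgebraicClosure K) ℂ (g.val i j) *
        ((g⁻¹.val.map τ).mulVec (f z).rep) j) = (f z).rep := by
      have h3 : (fun i => ∑ j, algebraMap (AlgebraicClosure K) ℂ (g.val i j) *
        ((g⁻¹.val.map τ).mulVec (f z).rep) j) =
        (g.val.map τ).mulVec ((g⁻¹.val.map τ).mulVec (f z).rep) := rfl
      rw [h3, Matrix.mulVec_mulVec, hMM', Matrix.one_mulVec]
    rw [h1, aeval_subst, h2]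
    have h4 : aeval (f z).rep F = eval₂ σ (f z).rep F := rfl
    rw [h4, hfX z F hF, mul_zero]
  obtain ⟨w, P, i, j, hPi, hPj, hw, hP⟩ := exists_weights_spaced hS' (by
      rintro _ ⟨F, hF, rfl⟩
      exact hk F hF) τ f' hf' (by
      rintro z _ ⟨F, hF, rfl⟩
      exact hev z F hF) (by
      obtain ⟨x, y, hxy⟩ := hne
      exact ⟨x, y, fun h => hxy (hinj x y h)⟩)
  obtain ⟨c, hc, hcij⟩ := exists_over_closure (A := AlgebraicClosure K) τ
    {p | ∃ G ∈ subst g '' S, ∃ ω, p = comp (A := AlgebraicClosure K) w ω G} (X i * X j) P (by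
      rintro p ⟨G, hG, ω, rfl⟩
      have h1 := hP G hG ω
      rw [← h1]
      unfold comp
      rw [← coe_eval₂Hom, map_sum]
      refine Finset.sum_congr rfl fun m _ => ?_
      rw [coe_eval₂Hom, eval₂_monomial, Finsupp.prod_fintype]
      · rfl
      · intro i
        exact pow_zero _) (by
      rw [eval₂_mul, eval₂_X, eval₂_X]
      exact mul_ne_zero hPi hPj)
  rw [map_mul, aeval_X, aeval_X] at hcij
  refine ⟨w, c, ⟨i, j, left_ne_zero_of_mul hcij, right_ne_zero_of_mul hcij, hw⟩, ?_⟩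
  intro F hF t ht
  rw [← aeval_subst_vec, aeval_zpow w (subst g F) c t ht]
  refine Finset.sum_eq_zero fun ω _ => ?_
  have h1 := hc _ ⟨subst g F, ⟨F, hF, rfl⟩, ω, rfl⟩
  rw [← aeval_comp' (A := AlgebraicClosure K), h1, mul_zero]

theorem polyCurve_of_monomial [CharZero K]
    (g : Matrix.GeneralLinearGroup (Fin (n + 1)) (AlgebraicClosure K))
    (hS : ∀ F ∈ S, ∃ d, F.IsHomogeneous d) (h : HasMonomialCurve g S) :
    Nonempty (PolyCurve S) := by
  obtain ⟨w, c, ⟨i, j, hi, hj, hw⟩, hc⟩ := h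
  have : CharZero (AlgebraicClosure K) :=
    charZero_of_injective_algebraMap (algebraMap K (AlgebraicClosure K)).injective
  apply exists_curve_of_subst g
  refine curve_of_zpow ?_ w c ?_ i j hi hj hw
  · rintro _ ⟨F, hF, rfl⟩
    obtain ⟨d, hd⟩ := hS F hF
    exact ⟨d, isHomogeneous_subst hd g⟩
  · rintro _ ⟨F, hF, rfl⟩ t ht
    rw [aeval_subst_vec]
    exact hc F hF t ht

/-- The dichotomy for forms with few monomials and spaced exponents. -/
theorem spaced_dichotomy [CharZero K]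
    (g : Matrix.GeneralLinearGroup (Fin (n + 1)) (AlgebraicClosure K))
    (hS : ∀ F ∈ S, (∃ d, F.IsHomogeneous d) ∧
      ∃ k, (subst g F).support.card * ((subst g F).support.card - 2) < k ∧
        Spaced k (subst g F)) :
    (HasMonomialCurve g S ∧ ∀ σ : K →+* ℂ, ¬ KobayashiHyperbolic (complexPoints S σ) ∧
      ∃ (L : Type) (_ : Field L) (_ : Algebra K L) (_ : FiniteDimensional K L),
        (points S L).Infinite) ∨
    (¬ HasMonomialCurve g S ∧ ∀ σ : K →+* ℂ, KobayashiHyperbolic (complexPoints S σ)) := by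
  have hS1 : ∀ F ∈ S, ∃ d, F.IsHomogeneous d := fun F hF => (hS F hF).1
  by_cases h : HasMonomialCurve g S
  · left
    refine ⟨h, fun σ => ?_⟩
    obtain ⟨C⟩ := polyCurve_of_monomial g hS1 h
    exact ⟨C.not_kobayashi hS1 σ, C.exists_infinite hS1⟩
  · right
    refine ⟨h, fun σ => ?_⟩
    by_contra hcon
    exact h (hasMonomialCurve_of_not_hyperbolic g hS1 (fun F hF => (hS F hF).2) σ hcon)

end main

end Pool.Agent.Work.MP_f82ddf_nt
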