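import Pool.Agent.Work.MP_f82ddf_nt.Comb
import Pool.Agent.Work.MP_f82ddf_nt.Criterion
import Pool.Agent.Work.MP_f82ddf_nt.Subst

/-!
# Sparse varieties contain lines
-/

open MvPolynomial
open scoped LinearAlgebra.Projectivization ENNReal MatrixGroups

namespace Pool.Agent.Work.MP_f82ddf_nt

section zeros

variable {k : Type*} [Field k] {m : ℕ}

/-- Fewer equations than variables: a common zero other than the origin. -/
theorem exists_common_zero [IsAlgClosed k] (J : Finset (MvPolynomial (Fin m) k))
    (h0 : ∀ G ∈ J, aeval (0 : Fin m → k) G = 0) (hJ : J.card < m) :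
    ∃ z : Fin m → k, z ≠ 0 ∧ ∀ G ∈ J, aeval z G = 0 := by
  classical
  by_contra hcon
  push Not at hcon
  have hle : Ideal.span (J : Set (MvPolynomial (Fin m) k)) ≤ vanishingIdeal k {(0 : Fin m → k)} := by
    rw [Ideal.span_le]
    intro G hG
    rw [SetLike.mem_coe, mem_vanishingIdeal_singleton_iff]
    exact h0 G hG
  have hprime : (vanishingIdeal k ({0} : Set (Fin m → k))).IsPrime := inferInstance
  obtain ⟨q, hq, hqz⟩ := Ideal.exists_minimalPrimes_le hle
  have hqprime : q.IsPrime := hq.1.1
  have hJq : Ideal.span (J : Set (MvPolynomial (Fin m) k)) ≤ q := hq.1.2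
  have hheight : q.height ≤ J.card := Ideal.height_le_card_of_mem_minimalPrimes_span_finset hq
  have hXj : ∀ j ∈ (Finset.univ : Finset (Fin m)), (X j : MvPolynomial (Fin m) k) ∈ q := by
    intro j _
    have h1 : (X j : MvPolynomial (Fin m) k) ∈
        vanishingIdeal k (zeroLocus k (Ideal.span (J : Set (MvPolynomial (Fin m) k)))) := by
      rw [mem_vanishingIdeal_iff]
      intro c hc
      rw [aeval_X]
      by_contra hne
      obtain ⟨G, hG, hGne⟩ := hcon c (fun h => hne (by rw [h]; rfl))
      rw [mem_zeroLocus_iff] at hc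
      exact hGne (hc G (Ideal.subset_span hG))
    rw [vanishingIdeal_zeroLocus_eq_radical] at h1
    have : (Ideal.span (J : Set (MvPolynomial (Fin m) k))).radical ≤ q :=
      (Ideal.IsPrime.radical_le_iff hqprime).mpr hJq
    exact this h1
  have hTq : Ideal.span ((X : Fin m → MvPolynomial (Fin m) k) ''
      ((Finset.univ : Finset (Fin m)) : Set (Fin m))) ≤ q := by
    rw [Ideal.span_le]
    rintro _ ⟨j, hj, rfl⟩
    exact hXj j hj
  have hT := card_le_height (k := k) (Finset.univ : Finset (Fin m))
  have h1 := (hT.trans (Ideal.height_mono hTq)).trans hheight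
  have h2 : (Finset.univ : Finset (Fin m)).card ≤ J.card := by exact_mod_cast h1
  rw [Finset.card_univ, Fintype.card_fin] at h2
  omega

/-- A common zero of few forms with coordinates in a given set. -/
theorem exists_common_zero_supported [IsAlgClosed k] (S : Finset (MvPolynomial (Fin m) k))
    (h0 : ∀ G ∈ S, aeval (0 : Fin m → k) G = 0) (I : Finset (Fin m)) (hI : S.card < I.card) :
    ∃ z : Fin m → k, z ≠ 0 ∧ (∀ j, j ∉ I → z j = 0) ∧ ∀ G ∈ S, aeval z G = 0 := by
  classical
  obtain ⟨z, hz, hz'⟩ := exists_common_zero (S ∪ Iᶜ.image X) (by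
    intro G hG
    rw [Finset.mem_union, Finset.mem_image] at hG
    rcases hG with hG | ⟨j, _, rfl⟩
    · exact h0 G hG
    · rw [aeval_X]; rfl) (by
    refine lt_of_le_of_lt (Finset.card_union_le _ _) ?_
    have h1 : (Iᶜ.image (X : Fin m → MvPolynomial (Fin m) k)).card ≤ Iᶜ.card :=
      Finset.card_image_le
    rw [Finset.card_compl, Fintype.card_fin] at h1
    have h2 : I.card ≤ m := by
      have := Finset.card_le_univ I
      rwa [Fintype.card_fin] at this
    omega)
  refine ⟨z, hz, ?_, ?_⟩
  · intro j hj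
    have := hz' (X j) (Finset.mem_union_right _ (Finset.mem_image_of_mem _
      (Finset.mem_compl.mpr hj)))
    rwa [aeval_X] at this
  · intro G hG
    exact hz' G (Finset.mem_union_left _ hG)

end zeros

section line

variable {A : Type*} [Field A] {n : ℕ}

/-- A form whose monomials do not mix `I` and `J` is additive on vectors supported in `I`
and `J`. -/
theorem aeval_add_unmixed {F : MvPolynomial (Fin (n + 1)) A} {d : ℕ} (hF : F.IsHomogeneous d)
    (hd : 1 ≤ d) (I J : Finset (Fin (n + 1))) (hIJ : Disjoint I J)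
    (hmix : ∀ m ∈ F.support, m.support ⊆ I ∪ J → m.support ⊆ I ∨ m.support ⊆ J)
    (P Q : Fin (n + 1) → A) (hP : ∀ j, j ∉ I → P j = 0) (hQ : ∀ j, j ∉ J → Q j = 0) :
    aeval (P + Q) F = aeval P F + aeval Q F := by
  classical
  have hQI : ∀ j, j ∈ I → Q j = 0 := fun j hj => hQ j (Finset.disjoint_left.mp hIJ hj)
  have hPJ : ∀ j, j ∈ J → P j = 0 := fun j hj => hP j (Finset.disjoint_right.mp hIJ hj)
  rw [aeval_eq_sum', aeval_eq_sum', aeval_eq_sum', ← Finset.sum_add_distrib]
  refine Finset.sum_congr rfl fun m hm => ?_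
  rw [← mul_add]
  congr 1
  have hne : ∃ j, m j ≠ 0 := by
    by_contra hcon
    push Not at hcon
    have h1 : ∑ j, m j = d := degree_sum hF hm
    rw [Finset.sum_eq_zero fun j _ => hcon j] at h1
    omega
  obtain ⟨j₀, hj₀⟩ := hne
  have hmem : ∀ j, j ∈ m.support ↔ m j ≠ 0 := fun j => Finsupp.mem_support_iff
  by_cases hsub : m.support ⊆ I ∪ J
  · rcases hmix m hm hsub with h | h
    · have h1 : ∏ j, Q j ^ m j = 0 := by
        refine Finset.prod_eq_zero (Finset.mem_univ j₀) ?_
        rw [hQI j₀ (h ((hmem j₀).mpr hj₀)), zero_pow hj₀]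
      rw [h1, add_zero]
      refine Finset.prod_congr rfl fun j _ => ?_
      by_cases hj : m j = 0
      · rw [hj, pow_zero, pow_zero]
      · rw [Pi.add_apply, hQI j (h ((hmem j).mpr hj)), add_zero]
    · have h1 : ∏ j, P j ^ m j = 0 := by
        refine Finset.prod_eq_zero (Finset.mem_univ j₀) ?_
        rw [hPJ j₀ (h ((hmem j₀).mpr hj₀)), zero_pow hj₀]
      rw [h1, zero_add]
      refine Finset.prod_congr rfl fun j _ => ?_
      by_cases hj : m j = 0
      · rw [hj, pow_zero, pow_zero]
      · rw [Pi.add_apply, hPJ j (h ((hmem j).mpr hj)), zero_add]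
  · obtain ⟨j, hj, hj'⟩ := Finset.not_subset.mp hsub
    rw [Finset.mem_union, not_or] at hj'
    have hmj := (hmem j).mp hj
    have h1 : ∏ i, (P + Q) i ^ m i = 0 := by
      refine Finset.prod_eq_zero (Finset.mem_univ j) ?_
      rw [Pi.add_apply, hP j hj'.1, hQ j hj'.2, add_zero, zero_pow hmj]
    have h2 : ∏ i, P i ^ m i = 0 := by
      refine Finset.prod_eq_zero (Finset.mem_univ j) ?_
      rw [hP j hj'.1, zero_pow hmj]
    have h3 : ∏ i, Q i ^ m i = 0 := by
      refine Finset.prod_eq_zero (Finset.mem_univ j) ?_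
      rw [hQ j hj'.2, zero_pow hmj]
    rw [h1, h2, h3, add_zero]

/-- Two unmixed sets of more than `card S` variables give a line. -/
theorem exists_curve_of_unmixed [IsAlgClosed A] [CharZero A]
    (S : Finset (MvPolynomial (Fin (n + 1)) A))
    (hS : ∀ F ∈ S, ∃ d, 1 ≤ d ∧ F.IsHomogeneous d) (I J : Finset (Fin (n + 1)))
    (hIJ : Disjoint I J) (hI : S.card < I.card) (hJ : S.card < J.card)
    (hmix : ∀ F ∈ S, ∀ m ∈ F.support, m.support ⊆ I ∪ J → m.support ⊆ I ∨ m.support ⊆ J) :
    Nonempty (CurveOver A (S : Set (MvPolynomial (Fin (n + 1)) A))) := by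
  classical
  have h0 : ∀ G ∈ S, aeval (0 : Fin (n + 1) → A) G = 0 := by
    intro G hG
    obtain ⟨d, hd, hhom⟩ := hS G hG
    rw [aeval_eq_sum']
    refine Finset.sum_eq_zero fun m hm => ?_
    have h1 : ∑ j, m j = d := degree_sum hhom hm
    obtain ⟨j, hj⟩ : ∃ j, m j ≠ 0 := by
      by_contra hcon
      push Not at hcon
      rw [Finset.sum_eq_zero fun j _ => hcon j] at h1
      omega
    rw [Finset.prod_eq_zero (Finset.mem_univ j), mul_zero]
    rw [Pi.zero_apply, zero_pow hj]
  obtain ⟨P, hP0, hPI, hP⟩ := exists_common_zero_supported S h0 I hI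
  obtain ⟨Q, hQ0, hQJ, hQ⟩ := exists_common_zero_supported S h0 J hJ
  obtain ⟨a, ha⟩ : ∃ a, P a ≠ 0 := by
    by_contra hcon
    push Not at hcon
    exact hP0 (funext hcon)
  obtain ⟨b, hb⟩ : ∃ b, Q b ≠ 0 := by
    by_contra hcon
    push Not at hcon
    exact hQ0 (funext hcon)
  have haI : a ∈ I := by by_contra h; exact ha (hPI a h)
  have hbJ : b ∈ J := by by_contra h; exact hb (hQJ b h)
  have hPb : P b = 0 := hPI b (Finset.disjoint_right.mp hIJ hbJ)
  refine exists_line_curve P Q a b (by rw [hPb, zero_mul]; exact mul_ne_zero ha hb) ?_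
  intro F hF t
  obtain ⟨d, hd, hhom⟩ := hS F hF
  have h1 := aeval_add_unmixed hhom hd I J hIJ (hmix F hF) P (t • Q) hPI
    (fun j hj => by rw [Pi.smul_apply, hQJ j hj, smul_zero])
  have h2 : (fun k => P k + Q k * t) = P + t • Q := by
    ext k
    simp [mul_comm]
  rw [h2, h1, hP F hF, zero_add]
  have h3 : aeval (t • Q) F = t ^ d * aeval Q F := by
    have := eval₂_smul_hom hhom (RingHom.id A) Q t
    simpa [aeval_def] using this
  rw [h3, hQ F hF, mul_zero]

end line

section main

variable {K : Type*} [Field K] {n : ℕ}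

theorem fall_natCast (s m : ℕ) : fall s (m : ℝ) = (m.descFactorial s : ℕ) := by
  by_cases h : (s : ℝ) - 1 ≤ m
  · rw [fall_eq_poch h, descPochhammer_eval_eq_descFactorial]
  · rw [fall, if_neg h]
    push Not at h
    have h1 : m < s := by
      have : (m : ℝ) < s := by linarith
      exact_mod_cast this
    rw [Nat.descFactorial_eq_zero_iff_lt.mpr h1, Nat.cast_zero]

theorem exists_curve_of_sparse [CharZero K] (S : Finset (MvPolynomial (Fin (n + 1)) K))
    (hS : ∀ F ∈ S, ∃ d, 1 ≤ d ∧ F.IsHomogeneous d)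
    (g : Matrix.GeneralLinearGroup (Fin (n + 1)) (AlgebraicClosure K)) (s : ℕ)
    (hs : s = S.card + 1) (hs1 : S.Nonempty) {D c : ℝ}
    (hD : D = n * (1 - density (subst g '' (S : Set (MvPolynomial (Fin (n + 1)) K))) 2))
    (hc : c = (n + 1) * fall s D / fall s (n + 1))
    (h : fall s (n + 1 - s) * ∑ k ∈ Finset.Icc 3 (2 * s),
        (((2 * s).choose k : ℝ) - 2 * (s.choose k : ℝ)) *
          density (subst g '' (S : Set (MvPolynomial (Fin (n + 1)) K))) k < fall s c) :
    Nonempty (PolyCurve (S : Set (MvPolynomial (Fin (n + 1)) K))) := by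
  classical
  let S' : Finset (MvPolynomial (Fin (n + 1)) (AlgebraicClosure K)) := S.image (subst g)
  have hS' : (S' : Set (MvPolynomial (Fin (n + 1)) (AlgebraicClosure K))) =
      subst g '' (S : Set (MvPolynomial (Fin (n + 1)) K)) := by
    rw [Finset.coe_image]
  have hS'card : S'.card ≤ S.card := Finset.card_image_le
  have hhom : ∀ F ∈ S', ∃ d, 1 ≤ d ∧ F.IsHomogeneous d := by
    intro F hF
    obtain ⟨G, hG, rfl⟩ := Finset.mem_image.mp hF
    obtain ⟨d, hd, hd'⟩ := hS G hG
    exact ⟨d, hd, isHomogeneous_subst hd' g⟩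
  rw [← hS'] at hD h
  let A : Finset (Finset (Fin (n + 1))) :=
    Finset.univ.filter fun H => ∃ F ∈ (S' : Set (MvPolynomial (Fin (n + 1))
      (AlgebraicClosure K))), ∃ m ∈ F.support, m.support = H
  have hA : ∀ k, A.filter (fun H => H.card = k) = varSets (S' : Set (MvPolynomial (Fin (n + 1))
      (AlgebraicClosure K))) k := by
    intro k
    ext H
    simp only [A, varSets, Finset.mem_filter, Finset.mem_univ, true_and]
    rw [and_comm]
  have hs2 : 2 ≤ s := by
    have := hs1.card_pos
    omega
  have hV : Fintype.card (Fin (n + 1)) = n + 1 := Fintype.card_fin _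
  have hcoef : ∀ k ∈ Finset.Icc 3 (2 * s),
      0 ≤ ((2 * s).choose k : ℝ) - 2 * (s.choose k : ℝ) := by
    intro k hk
    rw [Finset.mem_Icc] at hk
    have := card_mixedSets s k (by omega)
    have h6 : ((mixedSets s k).card : ℝ) + 2 * (s.choose k : ℝ) = ((2 * s).choose k : ℝ) := by
      exact_mod_cast this
    have h7 : (0 : ℝ) ≤ ((mixedSets s k).card : ℝ) := Nat.cast_nonneg _
    linarith
  have hsum : 0 ≤ ∑ k ∈ Finset.Icc 3 (2 * s),
      (((2 * s).choose k : ℝ) - 2 * (s.choose k : ℝ)) *
        density (S' : Set (MvPolynomial (Fin (n + 1)) (AlgebraicClosure K))) k := by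
    refine Finset.sum_nonneg fun k hk => mul_nonneg (hcoef k hk) ?_
    unfold density
    positivity
  have hfallv : fall s ((n : ℝ) + 1) = ((n + 1).descFactorial s : ℕ) := by
    rw [← fall_natCast]
    push_cast
    rfl
  have hvpos : 0 < (n + 1).descFactorial s := by
    rw [Nat.pos_iff_ne_zero]
    intro h0
    have h1 : c = 0 := by rw [hc, hfallv, h0]; simp
    have h2 : fall s c = 0 := by
      rw [h1, fall, if_neg]
      push Not
      have : (2 : ℝ) ≤ s := by exact_mod_cast hs2
      linarith
    rw [h2] at h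
    exact absurd h (not_lt.mpr (mul_nonneg (fall_nonneg _ _) hsum))
  have hsle : s ≤ n + 1 := by
    by_contra hcon
    rw [Nat.descFactorial_eq_zero_iff_lt.mpr (by omega)] at hvpos
    exact lt_irrefl _ hvpos
  have hfallvs : fall s ((n : ℝ) + 1 - s) = ((n + 1 - s).descFactorial s : ℕ) := by
    rw [← fall_natCast]
    push_cast [Nat.cast_sub hsle]
    rfl
  have hdesc : (n + 1).descFactorial (2 * s) =
      (n + 1).descFactorial s * (n + 1 - s).descFactorial s := by
    have h1 : 2 * s - s = s := by omega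
    rw [← Nat.descFactorial_mul_descFactorial (n := n + 1) (k := s) (m := 2 * s) (by omega), h1,
      mul_comm]
  obtain ⟨I, J, hIJ, hI, hJ, hmix⟩ := exists_unmixed (V := Fin (n + 1)) A hs2 (D := D) (c := c)
    (by
      rw [hD, hA 2, hV]
      unfold density
      rcases Nat.eq_zero_or_pos n with h0 | h0
      · subst h0
        have h1 : (varSets (S' : Set (MvPolynomial (Fin (0 + 1)) (AlgebraicClosure K))) 2).card
            = 0 := by
          rw [Finset.card_eq_zero, Finset.eq_empty_iff_forall_notMem]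
          intro H hH
          simp only [varSets, Finset.mem_filter, Finset.mem_univ, true_and] at hH
          have h2 := Finset.card_le_univ H
          rw [Fintype.card_fin] at h2
          omega
        rw [h1]
        simp
      · have hn : (0 : ℝ) < n := by exact_mod_cast h0
        rw [Nat.cast_choose_two]
        push_cast
        rw [show ((n : ℝ) + 1 - 1) = n by ring]
        field_simp)
    (by
      rw [hc, hV, hfallv]
      push_cast
      rfl)
    (by
      rw [hV, hdesc]
      have h1 : ∀ k ∈ Finset.Icc 3 (2 * s), (((2 * s).choose k : ℝ) - 2 * (s.choose k : ℝ)) *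
        (((A.filter fun H => H.card = k).card : ℝ) / ((n + 1).choose k : ℝ)) =
        (((2 * s).choose k : ℝ) - 2 * (s.choose k : ℝ)) *
          density (S' : Set (MvPolynomial (Fin (n + 1)) (AlgebraicClosure K))) k := by
        intro k _
        rw [hA k, density]
      rw [Finset.sum_congr rfl h1]
      push_cast
      rw [mul_assoc]
      rw [hfallvs] at h
      exact mul_lt_mul_of_pos_left h (by exact_mod_cast hvpos))
  apply exists_curve_of_subst g
  rw [← hS']
  refine exists_curve_of_unmixed S' hhom I J hIJ (by omega) (by omega) ?_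
  intro F hF m hm hsub
  apply hmix m.support _ hsub
  simp only [A, Finset.mem_filter, Finset.mem_univ, true_and]
  exact ⟨F, hF, m, hm, rfl⟩

end main

end Pool.Agent.Work.MP_f82ddf_nt
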