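import Mathlib

/-!
# Sparse systems of forms: definitions
-/

open MvPolynomial

namespace Pool.Agent.Work.MP_f82ddf_nt

/-- The falling factorial `x (x - 1) ... (x - s + 1)` for real `x ≥ s - 1`, and `0` for
`x < s - 1`. -/
noncomputable def fall (s : ℕ) (x : ℝ) : ℝ :=
  if (s : ℝ) - 1 ≤ x then ∏ i ∈ Finset.range s, (x - i) else 0

/-- The sets of `k` variables which are the set of variables of a monomial of a form in `S`. -/
noncomputable def varSets {A : Type*} [Field A] {n : ℕ} (S : Set (MvPolynomial (Fin (n + 1)) A))
    (k : ℕ) : Finset (Finset (Fin (n + 1))) :=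
  open Classical in
  Finset.univ.filter fun H => H.card = k ∧ ∃ F ∈ S, ∃ m ∈ F.support, m.support = H

/-- The proportion of the sets of `k` variables which are the set of variables of a monomial of a
form in `S`. -/
noncomputable def density {A : Type*} [Field A] {n : ℕ} (S : Set (MvPolynomial (Fin (n + 1)) A))
    (k : ℕ) : ℝ := (varSets S k).card / ((n + 1).choose k : ℝ)

end Pool.Agent.Work.MP_f82ddf_nt
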