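import Pool.Agent.Work.MP_f82ddf_nt.SymOrder

/-!
# Elementary abelian symmetry groups
-/

open MvPolynomial
open scoped LinearAlgebra.Projectivization ENNReal MatrixGroups

namespace Pool.Agent.Work.MP_f82ddf_nt

section

variable {K : Type*} [Field K] {n : ℕ} {F : MvPolynomial (Fin (n + 1)) K} {d : ℕ}

/-- A lift of a symmetry of order `p`, `p` prime to the degree, which fixes the form. -/
theorem exists_invariant_lift (hF : F.IsHomogeneous d) (hF0 : F ≠ 0) {p : ℕ} (hp : p.Prime)
    (hpd : ¬ p ∣ d) (g : Matrix.GeneralLinearGroup (Fin (n + 1)) (AlgebraicClosure K))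
    (hg : IsSymmetry F g) (hgp : (Matrix.ProjGenLinGroup.mk g) ^ p = 1) :
    ∃ μ : AlgebraicClosure K, μ ≠ 0 ∧ (μ • g.val) ^ p = 1 ∧
      ∀ v : Fin (n + 1) → AlgebraicClosure K, aeval ((μ • g.val).mulVec v) F = aeval v F := by
  obtain ⟨c, hc, hgc⟩ := hg
  obtain ⟨μ, hμ, hμp⟩ := exists_normalised g hp.pos hgp
  set c₁ : AlgebraicClosure K := μ ^ d * c with hc₁
  have h1 : ∀ v : Fin (n + 1) → AlgebraicClosure K,
      aeval ((μ • g.val).mulVec v) F = c₁ * aeval v F := by
    intro v
    rw [Matrix.smul_mulVec, aeval_smul_hom hF, hgc, hc₁, mul_assoc]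
  have h2 : ∀ (m : ℕ) (v : Fin (n + 1) → AlgebraicClosure K),
      aeval (((μ • g.val) ^ m).mulVec v) F = c₁ ^ m * aeval v F := by
    intro m
    induction m with
    | zero => intro v; simp
    | succ m ih =>
      intro v
      rw [pow_succ', ← Matrix.mulVec_mulVec, h1, ih, pow_succ]
      ring
  have hcp : c₁ ^ p = 1 := by
    obtain ⟨v, hv⟩ := exists_aeval_ne_zero hF0
    have h3 := h2 p v
    rw [hμp, Matrix.one_mulVec] at h3
    have h4 : (1 : AlgebraicClosure K) * aeval v F = c₁ ^ p * aeval v F := by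
      rw [one_mul]; exact h3
    exact (mul_right_cancel₀ hv h4).symm
  have hc₁0 : c₁ ≠ 0 := by
    intro h
    rw [h, zero_pow hp.pos.ne'] at hcp
    exact zero_ne_one hcp
  obtain ⟨e, he⟩ : ∃ e, p ∣ d * e + 1 := by
    have hcop : Nat.Coprime d p := ((Nat.Prime.coprime_iff_not_dvd hp).mpr hpd).symm
    obtain ⟨x, _, hx⟩ := Nat.exists_mul_mod_eq_of_coprime (p - 1) hcop hp.pos.ne'
    refine ⟨x, ?_⟩
    have h5 : (p - 1) % p = p - 1 := Nat.mod_eq_of_lt (by have := hp.pos; omega)
    rw [h5] at hx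
    have h6 := Nat.div_add_mod (d * x) p
    refine ⟨d * x / p + 1, ?_⟩
    have h7 := hp.pos
    rw [mul_add, mul_one]
    omega
  obtain ⟨f, hf⟩ := he
  have hν : (c₁ ^ e) ^ d * c₁ = 1 := by
    rw [← pow_mul, ← pow_succ, mul_comm e d, hf, pow_mul, hcp, one_pow]
  refine ⟨c₁ ^ e * μ, mul_ne_zero (pow_ne_zero _ hc₁0) hμ, ?_, ?_⟩
  · rw [mul_smul, smul_pow, hμp, ← pow_mul, mul_comm e p, pow_mul, hcp, one_pow, one_smul]
  · intro v
    rw [mul_smul, Matrix.smul_mulVec, aeval_smul_hom hF, h1, ← mul_assoc, hν, one_mul]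

theorem pow_eigen (G : Module.End (AlgebraicClosure K) (Fin (n + 1) → AlgebraicClosure K))
    (m : ℕ) (v : Fin (n + 1) → AlgebraicClosure K) (x : AlgebraicClosure K)
    (hv : G v = x • v) : (G ^ m) v = x ^ m • v := by
  induction m with
  | zero => simp
  | succ m ih =>
    rw [pow_succ', Module.End.mul_apply, ih, map_smul, hv, smul_smul, pow_succ]

theorem root_eigen (G : Module.End (AlgebraicClosure K) (Fin (n + 1) → AlgebraicClosure K))
    {p : ℕ} (hG : G ^ p = 1) (v : Fin (n + 1) → AlgebraicClosure K) (x : AlgebraicClosure K)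
    (hv0 : v ≠ 0) (hv : G v = x • v) : x ^ p = 1 := by
  have h1 := pow_eigen G p v x hv
  rw [hG] at h1
  have h2 : (x ^ p - 1) • v = 0 := by
    rw [sub_smul, one_smul, ← h1]
    simp
  rcases smul_eq_zero.mp h2 with h3 | h3
  · exact sub_eq_zero.mp h3
  · exact absurd h3 hv0

/-- Joint eigenvectors of two commuting operators of finite order span. -/
theorem eq_of_joint_eigen [CharZero K] {p : ℕ} (hp : 0 < p)
    (G H : Module.End (AlgebraicClosure K) (Fin (n + 1) → AlgebraicClosure K))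
    (hG : G ^ p = 1) (hH : H ^ p = 1) (hGH : Commute G H)
    (T₁ T₂ : Module.End (AlgebraicClosure K) (Fin (n + 1) → AlgebraicClosure K))
    (h : ∀ v (α β : AlgebraicClosure K), v ≠ 0 → G v = α • v → H v = β • v → T₁ v = T₂ v) :
    T₁ = T₂ := by
  have : CharZero (AlgebraicClosure K) :=
    charZero_of_injective_algebraMap (algebraMap K (AlgebraicClosure K)).injective
  have hss : ∀ T : Module.End (AlgebraicClosure K) (Fin (n + 1) → AlgebraicClosure K),
      T ^ p = 1 → T.IsSemisimple := by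
    intro T hT
    apply Module.End.isSemisimple_of_squarefree_aeval_eq_zero
      (p := Polynomial.X ^ p - Polynomial.C 1)
    · apply Polynomial.Separable.squarefree
      exact Polynomial.separable_X_pow_sub_C 1 (by exact_mod_cast hp.ne') one_ne_zero
    · simp [hT]
  have hGs := hss G hG
  have hHs := hss H hH
  let f : Bool → Module.End (AlgebraicClosure K) (Fin (n + 1) → AlgebraicClosure K) :=
    fun b => if b then G else H
  have htop := Module.End.iSup_iInf_maxGenEigenspace_eq_top_of_iSup_maxGenEigenspace_eq_top_of_commute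
    f (by
      intro i j hij
      cases i <;> cases j
      · exact absurd rfl hij
      · exact hGH.symm
      · exact hGH
      · exact absurd rfl hij)
    (fun i => Module.End.iSup_maxGenEigenspace_eq_top (f i))
  have h1 : (⊤ : Submodule (AlgebraicClosure K) (Fin (n + 1) → AlgebraicClosure K)) ≤
      LinearMap.ker (T₁ - T₂) := by
    rw [← htop]
    refine iSup_le fun χ => ?_
    intro v hv
    rw [Submodule.mem_iInf] at hv
    have hv1 := hv true
    have hv2 := hv false
    have hv1' : v ∈ G.eigenspace (χ true) := by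
      rw [← (Module.End.isFinitelySemisimple_iff_isSemisimple.mpr
        hGs).maxGenEigenspace_eq_eigenspace]
      exact hv1
    have hv2' : v ∈ H.eigenspace (χ false) := by
      rw [← (Module.End.isFinitelySemisimple_iff_isSemisimple.mpr
        hHs).maxGenEigenspace_eq_eigenspace]
      exact hv2
    rw [LinearMap.mem_ker, LinearMap.sub_apply, sub_eq_zero]
    by_cases hv0 : v = 0
    · rw [hv0, map_zero, map_zero]
    · exact h v _ _ hv0 (Module.End.mem_eigenspace_iff.mp hv1')
        (Module.End.mem_eigenspace_iff.mp hv2')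
  ext1 i
  ext1
  have h2 : (Pi.single i 1 : Fin (n + 1) → AlgebraicClosure K) ∈ LinearMap.ker (T₁ - T₂) :=
    h1 Submodule.mem_top
  rw [LinearMap.mem_ker, LinearMap.sub_apply, sub_eq_zero] at h2
  exact h2

/-- Two commuting operators with independent joint eigenvalues give a line. -/
theorem line_of_two_characters [CharZero K] (hF : F.IsHomogeneous d) {p : ℕ} (hp : p.Prime)
    (hpd : ¬ p ∣ d)
    (G H : Module.End (AlgebraicClosure K) (Fin (n + 1) → AlgebraicClosure K))
    (hG : ∀ v, aeval (G v) F = aeval v F) (hH : ∀ v, aeval (H v) F = aeval v F)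
    (ζ : AlgebraicClosure K) (hζ : IsPrimitiveRoot ζ p)
    (P Q : Fin (n + 1) → AlgebraicClosure K) (hP0 : P ≠ 0) (hQ0 : Q ≠ 0)
    (a₁ b₁ a₂ b₂ : ℕ) (hGP : G P = ζ ^ a₁ • P) (hHP : H P = ζ ^ b₁ • P)
    (hGQ : G Q = ζ ^ a₂ • Q) (hHQ : H Q = ζ ^ b₂ • Q)
    (hdet : (a₁ : ZMod p) * b₂ - a₂ * b₁ ≠ 0) :
    Nonempty (PolyCurve ({F} : Set (MvPolynomial (Fin (n + 1)) K))) := by
  classical
  have hfact : Fact p.Prime := ⟨hp⟩
  have hζ0 : ζ ≠ 0 := hζ.ne_zero hp.pos.ne'
  have key : ∀ (T : Module.End (AlgebraicClosure K) (Fin (n + 1) → AlgebraicClosure K))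
      (_ : ∀ v, aeval (T v) F = aeval v F) (a b : ℕ) (_ : T P = ζ ^ a • P) (_ : T Q = ζ ^ b • Q)
      (k : ℕ) (_ : (onLine F P Q).coeff k ≠ 0),
      (a : ZMod p) * d + ((b : ZMod p) - a) * k = 0 := by
    intro T hT a b hTP hTQ k hk
    have h1 := coeff_onLine hF T 1 (fun v => by rw [hT, one_mul]) P Q (ζ ^ a)
      (ζ ^ ((b : ℤ) - a)) hTP (by
        rw [hTQ]
        congr 1
        rw [← zpow_natCast, ← zpow_natCast, ← zpow_add₀ hζ0]
        congr 1
        ring) k hk
    have h2 : ζ ^ ((a : ℤ) * d + ((b : ℤ) - a) * k) = 1 := by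
      rw [← h1, zpow_add₀ hζ0, zpow_mul, zpow_mul, zpow_natCast, zpow_natCast, zpow_natCast]
    rw [hζ.zpow_eq_one_iff_dvd] at h2
    have h3 := (ZMod.intCast_zmod_eq_zero_iff_dvd _ p).mpr h2
    push_cast at h3
    exact h3
  have hd0 : (d : ZMod p) ≠ 0 := by
    intro h
    exact hpd ((ZMod.natCast_eq_zero_iff d p).mp h)
  have hzero : onLine F P Q = 0 := by
    ext k
    rw [Polynomial.coeff_zero]
    by_contra hk
    have e1 := key G hG a₁ a₂ hGP hGQ k hk
    have e2 := key H hH b₁ b₂ hHP hHQ k hk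
    have e3 : (k : ZMod p) * (a₁ * b₂ - a₂ * b₁) = 0 := by
      linear_combination (a₁ : ZMod p) * e2 - (b₁ : ZMod p) * e1
    have hk0 : (k : ZMod p) = 0 := (mul_eq_zero.mp e3).resolve_right hdet
    rw [hk0, mul_zero, add_zero] at e1 e2
    have ha : (a₁ : ZMod p) = 0 := (mul_eq_zero.mp e1).resolve_right hd0
    have hb : (b₁ : ZMod p) = 0 := (mul_eq_zero.mp e2).resolve_right hd0
    apply hdet
    rw [ha, hb]
    ring
  obtain ⟨a, ha⟩ : ∃ a, P a ≠ 0 := by
    by_contra hcon
    push Not at hcon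
    exact hP0 (funext hcon)
  have hex : ∃ b, P a * Q b ≠ P b * Q a := by
    by_contra hcon
    push Not at hcon
    have h1 : Q = (Q a / P a) • P := by
      funext b
      rw [Pi.smul_apply, smul_eq_mul, div_mul_eq_mul_div, eq_div_iff ha]
      linear_combination hcon b
    have h2 : ∀ (T : Module.End (AlgebraicClosure K) (Fin (n + 1) → AlgebraicClosure K))
        (x y : ℕ) (_ : T P = ζ ^ x • P) (_ : T Q = ζ ^ y • Q), (x : ZMod p) = y := by
      intro T x y hTP hTQ
      have h3 : ζ ^ y • Q = ζ ^ x • Q := by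
        rw [← hTQ]
        conv_lhs => rw [h1]
        rw [map_smul, hTP, smul_comm, ← h1]
      have h4 : ζ ^ y = ζ ^ x := by
        obtain ⟨b, hb⟩ : ∃ b, Q b ≠ 0 := by
          by_contra hcon
          push Not at hcon
          exact hQ0 (funext hcon)
        have h5 := congrFun h3 b
        simp only [Pi.smul_apply, smul_eq_mul] at h5
        exact mul_right_cancel₀ hb h5
      have h5 : ζ ^ ((y : ℤ) - x) = 1 := by
        rw [zpow_sub₀ hζ0, zpow_natCast, zpow_natCast, h4, div_self (pow_ne_zero _ hζ0)]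
      rw [hζ.zpow_eq_one_iff_dvd] at h5
      have h6 := (ZMod.intCast_zmod_eq_zero_iff_dvd _ p).mpr h5
      push_cast at h6
      exact (sub_eq_zero.mp h6).symm
    apply hdet
    rw [h2 G a₁ a₂ hGP hGQ, h2 H b₁ b₂ hHP hHQ]
    ring
  obtain ⟨b, hab⟩ := hex
  refine exists_line_curve P Q a b hab ?_
  intro F' hF' t
  rw [Set.mem_singleton_iff.mp hF', ← eval_onLine, hzero, Polynomial.eval_zero]

end

end Pool.Agent.Work.MP_f82ddf_nt
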