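import Pool.Agent.Work.MP_f82ddf_nt.SymAbelian

/-!
# Elementary abelian symmetry groups of rank two give lines
-/

open MvPolynomial
open scoped LinearAlgebra.Projectivization ENNReal MatrixGroups

namespace Pool.Agent.Work.MP_f82ddf_nt

section

variable {K : Type*} [Field K] {n : ℕ} {F : MvPolynomial (Fin (n + 1)) K} {d : ℕ}

theorem exists_curve_of_elementary [CharZero K] (hF : F.IsHomogeneous d) (hF0 : F ≠ 0) {p : ℕ}
    (hp : p.Prime) (hpd : ¬ p ∣ d)
    (φ : Multiplicative (ZMod p × ZMod p) →*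
      Matrix.ProjGenLinGroup (Fin (n + 1)) (AlgebraicClosure K))
    (hφ : Function.Injective φ)
    (hsym : ∀ x, ∀ g : Matrix.GeneralLinearGroup (Fin (n + 1)) (AlgebraicClosure K),
      Matrix.ProjGenLinGroup.mk g = φ x → IsSymmetry F g) :
    Nonempty (PolyCurve ({F} : Set (MvPolynomial (Fin (n + 1)) K))) := by
  classical
  have hfact : Fact p.Prime := ⟨hp⟩
  have hchar : CharZero (AlgebraicClosure K) :=
    charZero_of_injective_algebraMap (algebraMap K (AlgebraicClosure K)).injective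
  have hpow : ∀ x : Multiplicative (ZMod p × ZMod p), x ^ p = 1 := by
    intro x
    have h1 : (p : ℕ) • (Multiplicative.toAdd x) = 0 := by
      ext
      · simp
      · simp
    exact h1
  obtain ⟨g, hg⟩ := Matrix.ProjGenLinGroup.mk_surjective
    (φ (Multiplicative.ofAdd ((1, 0) : ZMod p × ZMod p)))
  obtain ⟨h, hh⟩ := Matrix.ProjGenLinGroup.mk_surjective
    (φ (Multiplicative.ofAdd ((0, 1) : ZMod p × ZMod p)))
  have hgp : (Matrix.ProjGenLinGroup.mk g) ^ p = 1 := by
    rw [hg, ← map_pow, hpow, map_one]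
  have hhp : (Matrix.ProjGenLinGroup.mk h) ^ p = 1 := by
    rw [hh, ← map_pow, hpow, map_one]
  obtain ⟨μ, hμ, hμp, hμF⟩ := exists_invariant_lift hF hF0 hp hpd g (hsym _ g hg) hgp
  obtain ⟨ν, hν, hνp, hνF⟩ := exists_invariant_lift hF hF0 hp hpd h (hsym _ h hh) hhp
  -- the two lifts commute
  have hcomm : Matrix.ProjGenLinGroup.mk (h * g) = Matrix.ProjGenLinGroup.mk (g * h) := by
    rw [map_mul, map_mul, hg, hh, ← φ.map_mul, ← φ.map_mul, mul_comm]
  rw [Matrix.ProjGenLinGroup.mk_eq_mk_iff] at hcomm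
  obtain ⟨u, hu⟩ := hcomm
  have hu' : g.val * h.val = (u : AlgebraicClosure K) • (h.val * g.val) := by
    have h1 := congrArg Units.val hu
    rw [Units.val_mul, Units.val_mul, Units.val_mul] at h1
    rw [← h1]
    have h2 : (Matrix.GeneralLinearGroup.scalar (Fin (n + 1)) u).val =
        (u : AlgebraicClosure K) • (1 : Matrix (Fin (n + 1)) (Fin (n + 1)) (AlgebraicClosure K)) := by
      rw [Matrix.smul_one_eq_diagonal]
      rfl
    rw [h2, Matrix.mul_smul, mul_one]
  let G : Module.End (AlgebraicClosure K) (Fin (n + 1) → AlgebraicClosure K) :=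
    Matrix.toLin' (μ • g.val)
  let H : Module.End (AlgebraicClosure K) (Fin (n + 1) → AlgebraicClosure K) :=
    Matrix.toLin' (ν • h.val)
  have hGp : G ^ p = 1 := by
    have h1 : G ^ p = Matrix.toLin' ((μ • g.val) ^ p) := by rw [Matrix.toLin'_pow]
    rw [h1, hμp, Matrix.toLin'_one]
    rfl
  have hHp : H ^ p = 1 := by
    have h1 : H ^ p = Matrix.toLin' ((ν • h.val) ^ p) := by rw [Matrix.toLin'_pow]
    rw [h1, hνp, Matrix.toLin'_one]
    rfl
  have hGF : ∀ v, aeval (G v) F = aeval v F := by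
    intro v
    simp only [G, Matrix.toLin'_apply]
    exact hμF v
  have hHF : ∀ v, aeval (H v) F = aeval v F := by
    intro v
    simp only [H, Matrix.toLin'_apply]
    exact hνF v
  have hGH : ∀ v, G (H v) = (u : AlgebraicClosure K) • H (G v) := by
    intro v
    simp only [G, H, Matrix.toLin'_apply, Matrix.mulVec_mulVec]
    rw [Matrix.smul_mul, Matrix.mul_smul, hu', Matrix.smul_mul, Matrix.mul_smul,
      smul_smul, smul_smul, smul_smul, Matrix.smul_mulVec, Matrix.smul_mulVec, smul_smul]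
    congr 1
    ring
  have hud : (u : AlgebraicClosure K) ^ d = 1 := by
    obtain ⟨v, hv⟩ := exists_aeval_ne_zero hF0
    have h1 := hGF (H v)
    rw [hGH, aeval_smul_hom hF, hHF, hGF, hHF] at h1
    have h2 : (u : AlgebraicClosure K) ^ d * aeval v F = 1 * aeval v F := by
      rw [one_mul]; exact h1
    exact mul_right_cancel₀ hv h2
  have hup : (u : AlgebraicClosure K) ^ p = 1 := by
    have h1 : ∀ (m : ℕ) v, G ((H ^ m) v) = (u : AlgebraicClosure K) ^ m • (H ^ m) (G v) := by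
      intro m
      induction m with
      | zero => intro v; simp
      | succ m ih =>
        intro v
        rw [pow_succ', Module.End.mul_apply, hGH, ih, map_smul, smul_smul, Module.End.mul_apply,
          pow_succ, mul_comm]
    obtain ⟨v, hv⟩ : ∃ v, G v ≠ 0 := by
      by_contra hcon
      push Not at hcon
      have h2 : (G ^ p) (Pi.single 0 1) = 0 := by
        obtain ⟨m, hm⟩ : ∃ m, p = m + 1 := ⟨p - 1, by have := hp.pos; omega⟩
        rw [hm, pow_succ', Module.End.mul_apply, hcon]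
      rw [hGp] at h2
      have := congrFun h2 0
      simp at this
    have h2 := h1 p v
    rw [hHp, Module.End.one_apply, Module.End.one_apply] at h2
    obtain ⟨i, hi⟩ : ∃ i, G v i ≠ 0 := by
      by_contra hcon
      push Not at hcon
      exact hv (funext hcon)
    have h3 := congrFun h2 i
    rw [Pi.smul_apply, smul_eq_mul] at h3
    have h4 : (u : AlgebraicClosure K) ^ p * G v i = 1 * G v i := by
      rw [one_mul]; exact h3.symm
    exact mul_right_cancel₀ hi h4
  have hu1 : (u : AlgebraicClosure K) = 1 := by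
    have h1 := orderOf_dvd_of_pow_eq_one hud
    have h2 := orderOf_dvd_of_pow_eq_one hup
    have h3 : orderOf (u : AlgebraicClosure K) ∣ Nat.gcd p d := Nat.dvd_gcd h2 h1
    rw [(Nat.Prime.coprime_iff_not_dvd hp).mpr hpd] at h3
    exact orderOf_eq_one_iff.mp (Nat.dvd_one.mp h3)
  have hcommGH : Commute G H := by
    apply LinearMap.ext
    intro v
    rw [Module.End.mul_apply, Module.End.mul_apply, hGH, hu1, one_smul]
  obtain ⟨ζ, hζ⟩ := HasEnoughRootsOfUnity.exists_primitiveRoot (AlgebraicClosure K) p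
  have hζ0 : ζ ≠ 0 := hζ.ne_zero hp.pos.ne'
  have hchr : ∀ (T : Module.End (AlgebraicClosure K) (Fin (n + 1) → AlgebraicClosure K))
      (_ : T ^ p = 1) (v : Fin (n + 1) → AlgebraicClosure K) (x : AlgebraicClosure K)
      (_ : v ≠ 0) (_ : T v = x • v), ∃ i, i < p ∧ ζ ^ i = x := by
    intro T hT v x hv0 hv
    have hne : NeZero p := ⟨hp.pos.ne'⟩
    exact hζ.eq_pow_of_pow_eq_one (root_eigen T hT v x hv0 hv)
  -- if `G ^ x = H ^ y` then `p` divides `x` and `y`
  have hfaith : ∀ x y : ℕ, G ^ x = H ^ y → (x : ZMod p) = 0 ∧ (y : ZMod p) = 0 := by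
    intro x y hxy
    have h1 : (μ • g.val) ^ x = (ν • h.val) ^ y := by
      apply Matrix.toLin'.injective
      rw [Matrix.toLin'_pow, Matrix.toLin'_pow]
      exact hxy
    have h2 : Matrix.ProjGenLinGroup.mk (g ^ x) = Matrix.ProjGenLinGroup.mk (h ^ y) := by
      rw [Matrix.ProjGenLinGroup.mk_eq_mk_iff]
      refine ⟨Units.mk0 (μ ^ x * (ν ^ y)⁻¹)
        (mul_ne_zero (pow_ne_zero _ hμ) (inv_ne_zero (pow_ne_zero _ hν))), ?_⟩
      apply Units.ext
      rw [Units.val_mul]
      have h3 : (Matrix.GeneralLinearGroup.scalar (Fin (n + 1)) (Units.mk0 (μ ^ x * (ν ^ y)⁻¹)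
        (mul_ne_zero (pow_ne_zero _ hμ) (inv_ne_zero (pow_ne_zero _ hν))))).val =
          (μ ^ x * (ν ^ y)⁻¹) •
          (1 : Matrix (Fin (n + 1)) (Fin (n + 1)) (AlgebraicClosure K)) := by
        rw [Matrix.smul_one_eq_diagonal]
        rfl
      rw [h3, Matrix.mul_smul, mul_one, Units.val_pow_eq_pow_val, Units.val_pow_eq_pow_val]
      rw [smul_pow, smul_pow] at h1
      have h4 : (h.val) ^ y = (ν ^ y)⁻¹ • (ν ^ y • (h.val) ^ y) := by
        rw [smul_smul, inv_mul_cancel₀ (pow_ne_zero _ hν), one_smul]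
      rw [h4, ← h1, smul_smul, mul_comm]
    rw [map_pow, map_pow, hg, hh, ← φ.map_pow, ← φ.map_pow] at h2
    have h3 := hφ h2
    have h4 : x • ((1, 0) : ZMod p × ZMod p) = y • ((0, 1) : ZMod p × ZMod p) := by
      have := congrArg Multiplicative.toAdd h3
      simpa using this
    have h5 := congrArg Prod.fst h4
    have h6 := congrArg Prod.snd h4
    simp at h5 h6
    exact ⟨h5, h6.symm⟩
  -- a joint eigenvector with nontrivial character
  obtain ⟨P, hP0, a₁, b₁, hGP, hHP, hne⟩ : ∃ P : Fin (n + 1) → AlgebraicClosure K, P ≠ 0 ∧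
      ∃ a b : ℕ, G P = ζ ^ a • P ∧ H P = ζ ^ b • P ∧
        ¬ ((a : ZMod p) = 0 ∧ (b : ZMod p) = 0) := by
    by_contra hcon
    push Not at hcon
    have h1 : G ^ 1 = H ^ 0 := by
      rw [pow_one, pow_zero]
      apply eq_of_joint_eigen hp.pos G H hGp hHp hcommGH
      intro v α β hv hα hβ
      obtain ⟨i, _, hi⟩ := hchr G hGp v α hv hα
      obtain ⟨j, _, hj⟩ := hchr H hHp v β hv hβ
      have h2 := hcon v hv i j (by rw [hi]; exact hα) (by rw [hj]; exact hβ)
      obtain ⟨h3, _⟩ := h2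
      rw [ZMod.natCast_eq_zero_iff] at h3
      rw [hα, ← hi, (hζ.pow_eq_one_iff_dvd i).mpr h3, one_smul, Module.End.one_apply]
    have h2 := (hfaith 1 0 h1).1
    simp at h2
  obtain ⟨Q, hQ0, a₂, b₂, hGQ, hHQ, hdet⟩ : ∃ Q : Fin (n + 1) → AlgebraicClosure K, Q ≠ 0 ∧
      ∃ a b : ℕ, G Q = ζ ^ a • Q ∧ H Q = ζ ^ b • Q ∧
        ((a₁ : ZMod p) * b - a * b₁ ≠ 0) := by
    by_contra hcon
    push Not at hcon
    have h1 : G ^ b₁ = H ^ a₁ := by
      apply eq_of_joint_eigen hp.pos G H hGp hHp hcommGH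
      intro v α β hv hα hβ
      obtain ⟨i, _, hi⟩ := hchr G hGp v α hv hα
      obtain ⟨j, _, hj⟩ := hchr H hHp v β hv hβ
      have h2 := hcon v hv i j (by rw [hi]; exact hα) (by rw [hj]; exact hβ)
      rw [pow_eigen G b₁ v α hα, pow_eigen H a₁ v β hβ, ← hi, ← hj]
      congr 1
      have h3 : ζ ^ ((a₁ : ℤ) * j - i * b₁) = 1 := by
        rw [hζ.zpow_eq_one_iff_dvd]
        apply (ZMod.intCast_zmod_eq_zero_iff_dvd _ p).mp
        push_cast
        exact h2
      rw [zpow_sub₀ hζ0, div_eq_one_iff_eq (zpow_ne_zero _ hζ0)] at h3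
      have h4 : ζ ^ (a₁ * j) = ζ ^ (i * b₁) := by
        have h5 : ((a₁ : ℤ) * j) = ((a₁ * j : ℕ) : ℤ) := by push_cast; ring
        have h6 : ((i : ℤ) * b₁) = ((i * b₁ : ℕ) : ℤ) := by push_cast; ring
        rw [h5, h6, zpow_natCast, zpow_natCast] at h3
        exact h3
      rw [← pow_mul, ← pow_mul, mul_comm j a₁, h4]
    have h2 := hfaith b₁ a₁ h1
    exact hne ⟨h2.2, h2.1⟩
  exact line_of_two_characters hF hp hpd G H hGF hHF ζ hζ P Q hP0 hQ0 a₁ b₁ a₂ b₂ hGP hHP hGQ hHQ
    hdet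

end

end Pool.Agent.Work.MP_f82ddf_nt
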