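import Pool.Agent.Work.MP_f82ddf_nt.Sym

/-!
# Symmetries of large order
-/

open MvPolynomial
open scoped LinearAlgebra.Projectivization ENNReal MatrixGroups

namespace Pool.Agent.Work.MP_f82ddf_nt

section

variable {K : Type*} [Field K] {n : ℕ} {F : MvPolynomial (Fin (n + 1)) K} {d : ℕ}

theorem exists_aeval_ne_zero (hF0 : F ≠ 0) :
    ∃ v : Fin (n + 1) → AlgebraicClosure K, aeval v F ≠ 0 := by
  by_contra hcon
  push Not at hcon
  apply hF0
  have h1 : map (algebraMap K (AlgebraicClosure K)) F = 0 := by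
    apply MvPolynomial.funext
    intro v
    rw [eval_map, map_zero]
    exact hcon v
  exact map_injective _ (algebraMap K (AlgebraicClosure K)).injective (by rw [h1, map_zero])

theorem ne_zero_of_nonsingular (hns : Nonsingular F) : F ≠ 0 := by
  rintro rfl
  have hne : (Pi.single 0 1 : Fin (n + 1) → AlgebraicClosure K) ≠ 0 := by
    intro h
    have := congrFun h 0
    simp at this
  obtain ⟨i, hi⟩ := hns _ hne (by simp)
  simp at hi

theorem iSup_eigenspace_of_pow [CharZero K] {q : ℕ} (hq : 0 < q)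
    (G : Module.End (AlgebraicClosure K) (Fin (n + 1) → AlgebraicClosure K)) (hG : G ^ q = 1) :
    ⨆ μ : AlgebraicClosure K, G.eigenspace μ = ⊤ := by
  have : CharZero (AlgebraicClosure K) :=
    charZero_of_injective_algebraMap (algebraMap K (AlgebraicClosure K)).injective
  apply Module.End.IsSemisimple.iSup_eigenspace_eq_top
  apply Module.End.isSemisimple_of_squarefree_aeval_eq_zero
    (p := Polynomial.X ^ q - Polynomial.C 1)
  · apply Polynomial.Separable.squarefree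
    exact Polynomial.separable_X_pow_sub_C 1 (by exact_mod_cast hq.ne') one_ne_zero
  · simp [hG]

/-- Scaling a symmetry whose `q`-th power is scalar. -/
theorem exists_normalised (g : Matrix.GeneralLinearGroup (Fin (n + 1)) (AlgebraicClosure K))
    {q : ℕ} (hq : 0 < q) (hgq : (Matrix.ProjGenLinGroup.mk g) ^ q = 1) :
    ∃ μ : AlgebraicClosure K, μ ≠ 0 ∧ (μ • g.val) ^ q = 1 := by
  rw [← map_pow, Matrix.ProjGenLinGroup.mk_eq_one,
    Matrix.GeneralLinearGroup.mem_center_iff_val_mem_range_scalar] at hgq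
  obtain ⟨l, hl⟩ := hgq
  have hl0 : l ≠ 0 := by
    rintro rfl
    rw [map_zero] at hl
    have h1 : (g ^ q).val * (g ^ q)⁻¹.val = 1 := by
      rw [← Units.val_mul, mul_inv_cancel, Units.val_one]
    rw [← hl, zero_mul] at h1
    exact zero_ne_one h1
  obtain ⟨μ, hμ⟩ := IsAlgClosed.exists_pow_nat_eq l⁻¹ hq
  refine ⟨μ, ?_, ?_⟩
  · rintro rfl
    rw [zero_pow hq.ne'] at hμ
    exact inv_ne_zero hl0 hμ.symm
  · rw [smul_pow, hμ]
    have h1 : g.val ^ q = (g ^ q).val := by rw [Units.val_pow_eq_pow_val]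
    rw [h1, ← hl, Matrix.scalar_apply, ← Matrix.smul_one_eq_diagonal, smul_smul,
      inv_mul_cancel₀ hl0, one_smul]

theorem mk_pow_eq_one_of_scalar
    (g : Matrix.GeneralLinearGroup (Fin (n + 1)) (AlgebraicClosure K)) (μ s : AlgebraicClosure K)
    (hμ : μ ≠ 0) (k : ℕ) (h : (μ • g.val) ^ k = s • (1 : Matrix _ _ _)) :
    (Matrix.ProjGenLinGroup.mk g) ^ k = 1 := by
  rw [← map_pow, Matrix.ProjGenLinGroup.mk_eq_one,
    Matrix.GeneralLinearGroup.mem_center_iff_val_mem_range_scalar]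
  refine ⟨(μ ^ k)⁻¹ * s, ?_⟩
  rw [Units.val_pow_eq_pow_val, Matrix.scalar_apply, ← Matrix.smul_one_eq_diagonal, mul_smul,
    ← h, smul_pow, smul_smul, inv_mul_cancel₀ (pow_ne_zero _ hμ), one_smul]

theorem exists_curve_of_order [CharZero K] (hF : F.IsHomogeneous d) (hd : 3 ≤ d)
    (hns : Nonsingular F) (g : Matrix.GeneralLinearGroup (Fin (n + 1)) (AlgebraicClosure K))
    (hg : IsSymmetry F g) (hq : IsPrimePow (orderOf (Matrix.ProjGenLinGroup.mk g)))
    (hbig : (d - 1) ^ 2 * Nat.gcd (orderOf (Matrix.ProjGenLinGroup.mk g)) d <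
      orderOf (Matrix.ProjGenLinGroup.mk g)) :
    Nonempty (PolyCurve ({F} : Set (MvPolynomial (Fin (n + 1)) K))) := by
  classical
  obtain ⟨p, k, hp, hk, hpk⟩ := (isPrimePow_nat_iff _).mp hq
  have hF0 := ne_zero_of_nonsingular hns
  obtain ⟨c₀, hc₀, hgc⟩ := hg
  have hq0 : 0 < p ^ k := pow_pos hp.pos _
  have hmkq : (Matrix.ProjGenLinGroup.mk g) ^ (p ^ k) = 1 := by
    rw [hpk]; exact pow_orderOf_eq_one _
  obtain ⟨μ, hμ, hμq⟩ := exists_normalised g hq0 hmkq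
  let G : Module.End (AlgebraicClosure K) (Fin (n + 1) → AlgebraicClosure K) :=
    Matrix.toLin' (μ • g.val)
  have hGq : G ^ (p ^ k) = 1 := by
    have h1 : G ^ (p ^ k) = Matrix.toLin' ((μ • g.val) ^ (p ^ k)) := by
      rw [Matrix.toLin'_pow]
    rw [h1, hμq, Matrix.toLin'_one]
    rfl
  have hGval : ∀ v, G v = μ • g.val.mulVec v := by
    intro v
    simp only [G, Matrix.toLin'_apply]
    rw [Matrix.smul_mulVec]
  set c : AlgebraicClosure K := μ ^ d * c₀ with hc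
  have hc0 : c ≠ 0 := mul_ne_zero (pow_ne_zero _ hμ) hc₀
  have hGF : ∀ v, aeval (G v) F = c * aeval v F := by
    intro v
    rw [hGval, aeval_smul_hom hF, hgc, hc, mul_assoc]
  have hspan := iSup_eigenspace_of_pow hq0 G hGq
  have hinj : Function.Injective G := by
    intro v w hvw
    have h1 : (G ^ (p ^ k)) v = (G ^ (p ^ k)) w := by
      obtain ⟨m, hm⟩ : ∃ m, p ^ k = m + 1 := ⟨p ^ k - 1, by omega⟩
      rw [hm, pow_succ]
      simp only [Module.End.mul_apply]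
      rw [hvw]
    rwa [hGq] at h1
  -- powers on eigenvectors
  have hpow : ∀ (m : ℕ) (v : Fin (n + 1) → AlgebraicClosure K) (x : AlgebraicClosure K),
      G v = x • v → (G ^ m) v = x ^ m • v := by
    intro m v x hv
    induction m with
    | zero => simp
    | succ m ih =>
      rw [pow_succ', Module.End.mul_apply, ih, map_smul, hv, smul_smul, pow_succ]
  have hroot : ∀ (v : Fin (n + 1) → AlgebraicClosure K) (x : AlgebraicClosure K), v ≠ 0 →
      G v = x • v → x ^ (p ^ k) = 1 := by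
    intro v x hv hx
    have h1 := hpow (p ^ k) v x hx
    rw [hGq] at h1
    have h2 : (x ^ (p ^ k) - 1) • v = 0 := by
      rw [sub_smul, one_smul, ← h1]
      simp
    rcases smul_eq_zero.mp h2 with h3 | h3
    · exact sub_eq_zero.mp h3
    · exact absurd h3 hv
  have hcq : c ^ (p ^ k) = 1 := by
    obtain ⟨v, hv⟩ := exists_aeval_ne_zero hF0
    have h1 : ∀ m : ℕ, aeval ((G ^ m) v) F = c ^ m * aeval v F := by
      intro m
      induction m with
      | zero => simp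
      | succ m ih => rw [pow_succ', Module.End.mul_apply, hGF, ih, pow_succ]; ring
    have h2 := h1 (p ^ k)
    rw [hGq] at h2
    have h3 : (1 : AlgebraicClosure K) * aeval v F = c ^ (p ^ k) * aeval v F := by
      rw [one_mul]; exact h2
    exact (mul_right_cancel₀ hv h3).symm
  -- two eigenvalues whose ratio has order `q`
  have hk1 : p ^ (k - 1) < p ^ k := Nat.pow_lt_pow_right hp.one_lt (by omega)
  obtain ⟨P₀, hP₀, α₀, hα₀⟩ : ∃ P : Fin (n + 1) → AlgebraicClosure K, P ≠ 0 ∧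
      ∃ α, G P = α • P := by
    by_contra hcon
    push Not at hcon
    have h1 : (⊤ : Submodule (AlgebraicClosure K) (Fin (n + 1) → AlgebraicClosure K)) ≤ ⊥ := by
      rw [← hspan]
      refine iSup_le fun β => ?_
      intro v hv
      by_contra hv0
      exact hcon v hv0 β (Module.End.mem_eigenspace_iff.mp hv)
    have h2 : (Pi.single 0 1 : Fin (n + 1) → AlgebraicClosure K) = 0 := h1 Submodule.mem_top
    have := congrFun h2 0
    simp at this
  obtain ⟨P₁, hP₁, α₁, hα₁, hne⟩ : ∃ P : Fin (n + 1) → AlgebraicClosure K, P ≠ 0 ∧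
      ∃ α, G P = α • P ∧ α ^ (p ^ (k - 1)) ≠ α₀ ^ (p ^ (k - 1)) := by
    by_contra hcon
    push Not at hcon
    have h1 : G ^ (p ^ (k - 1)) = α₀ ^ (p ^ (k - 1)) • 1 := by
      have h2 : (⊤ : Submodule (AlgebraicClosure K) (Fin (n + 1) → AlgebraicClosure K)) ≤
          LinearMap.ker (G ^ (p ^ (k - 1)) - α₀ ^ (p ^ (k - 1)) • 1) := by
        rw [← hspan]
        refine iSup_le fun β => ?_
        intro v hv
        have hv' := Module.End.mem_eigenspace_iff.mp hv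
        rw [LinearMap.mem_ker]
        by_cases hv0 : v = 0
        · rw [hv0, map_zero]
        · rw [LinearMap.sub_apply, hpow _ v β hv', hcon v hv0 β hv']
          simp
      ext1 i
      ext1
      have h3 : (Pi.single i 1 : Fin (n + 1) → AlgebraicClosure K) ∈
          LinearMap.ker (G ^ (p ^ (k - 1)) - α₀ ^ (p ^ (k - 1)) • 1) := h2 Submodule.mem_top
      rw [LinearMap.mem_ker, LinearMap.sub_apply, sub_eq_zero] at h3
      exact h3
    have h2 : (μ • g.val) ^ (p ^ (k - 1)) = α₀ ^ (p ^ (k - 1)) • (1 : Matrix _ _ _) := by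
      apply Matrix.toLin'.injective
      have h5 : Matrix.toLin' (α₀ ^ (p ^ (k - 1)) •
          (1 : Matrix (Fin (n + 1)) (Fin (n + 1)) (AlgebraicClosure K))) =
          α₀ ^ (p ^ (k - 1)) • 1 := by
        rw [map_smul, Matrix.toLin'_one]
        rfl
      rw [Matrix.toLin'_pow, h5]
      exact h1
    have h3 := mk_pow_eq_one_of_scalar g μ _ hμ _ h2
    have h4 := Nat.le_of_dvd (pow_pos hp.pos _) (orderOf_dvd_of_pow_eq_one h3)
    omega
  have hne0 : ∀ (v : Fin (n + 1) → AlgebraicClosure K) (x : AlgebraicClosure K), v ≠ 0 →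
      G v = x • v → x ≠ 0 := by
    rintro v x hv hx rfl
    rw [zero_smul] at hx
    exact hv (hinj (by rw [hx, map_zero]))
  have hα₀0 := hne0 P₀ α₀ hP₀ hα₀
  have hα₁0 := hne0 P₁ α₁ hP₁ hα₁
  by_cases hcase₀ : ∀ k : ℕ, 1 ≤ k → k ≤ (d - 1) ^ 2 → (α₀ ^ d / c) ^ k ≠ 1
  · exact line_of_eigenvalue hF hd hns G c hc0 hGF hspan hinj P₀ hP₀ α₀ hα₀ hcase₀
  by_cases hcase₁ : ∀ k : ℕ, 1 ≤ k → k ≤ (d - 1) ^ 2 → (α₁ ^ d / c) ^ k ≠ 1
  · exact line_of_eigenvalue hF hd hns G c hc0 hGF hspan hinj P₁ hP₁ α₁ hα₁ hcase₁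
  exfalso
  push Not at hcase₀ hcase₁
  have hsmall : ∀ x : AlgebraicClosure K, x ^ (p ^ k) = 1 →
      (∃ m, 1 ≤ m ∧ m ≤ (d - 1) ^ 2 ∧ (x ^ d / c) ^ m = 1) →
      ∃ e, p ^ e ≤ (d - 1) ^ 2 ∧ (x ^ d / c) ^ (p ^ e) = 1 := by
    rintro x hx ⟨m, hm1, hm2, hm3⟩
    have h1 : (x ^ d / c) ^ (p ^ k) = 1 := by
      rw [div_pow, hcq, ← pow_mul, mul_comm, pow_mul, hx, one_pow, div_one]
    have h2 := orderOf_dvd_of_pow_eq_one h1
    obtain ⟨e, _, he⟩ := (Nat.dvd_prime_pow hp).mp h2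
    refine ⟨e, ?_, ?_⟩
    · rw [← he]
      exact (Nat.le_of_dvd (by omega) (orderOf_dvd_of_pow_eq_one hm3)).trans hm2
    · rw [← he]
      exact pow_orderOf_eq_one _
  obtain ⟨e₀, he₀, h₀⟩ := hsmall α₀ (hroot P₀ α₀ hP₀ hα₀) hcase₀
  obtain ⟨e₁, he₁, h₁⟩ := hsmall α₁ (hroot P₁ α₁ hP₁ hα₁) hcase₁
  set e := max e₀ e₁ with he
  have hepow : p ^ e ≤ (d - 1) ^ 2 := by
    rcases max_choice e₀ e₁ with h | h
    · rw [he, h]; exact he₀
    · rw [he, h]; exact he₁
  have h₀' : (α₀ ^ d / c) ^ (p ^ e) = 1 := by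
    obtain ⟨f, hf⟩ := pow_dvd_pow p (le_max_left e₀ e₁)
    rw [← he] at hf
    rw [hf, pow_mul, h₀, one_pow]
  have h₁' : (α₁ ^ d / c) ^ (p ^ e) = 1 := by
    obtain ⟨f, hf⟩ := pow_dvd_pow p (le_max_right e₀ e₁)
    rw [← he] at hf
    rw [hf, pow_mul, h₁, one_pow]
  have hx1 : ((α₁ / α₀) ^ d) ^ (p ^ e) = 1 := by
    have h5 : (α₁ / α₀) ^ d = (α₁ ^ d / c) / (α₀ ^ d / c) := by
      rw [div_pow]
      field_simp
    rw [h5, div_pow, h₀', h₁', div_one]
  have hxq : (α₁ / α₀) ^ (p ^ k) = 1 := by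
    rw [div_pow, hroot P₀ α₀ hP₀ hα₀, hroot P₁ α₁ hP₁ hα₁, div_one]
  have hxne : (α₁ / α₀) ^ (p ^ (k - 1)) ≠ 1 := by
    intro h
    apply hne
    rw [div_pow, div_eq_one_iff_eq (pow_ne_zero _ hα₀0)] at h
    exact h
  have hord : orderOf (α₁ / α₀) = p ^ k := by
    have hfact : Fact p.Prime := ⟨hp⟩
    obtain ⟨k', rfl⟩ : ∃ k', k = k' + 1 := ⟨k - 1, by omega⟩
    rw [Nat.add_sub_cancel] at hxne
    exact orderOf_eq_prime_pow hxne hxq
  have hdvd : p ^ k ∣ d * p ^ e := by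
    rw [← hord]
    apply orderOf_dvd_of_pow_eq_one
    rw [pow_mul]
    exact hx1
  rw [← hpk] at hbig
  have hgpos : 0 < Nat.gcd (p ^ k) d := Nat.gcd_pos_of_pos_left _ hq0
  have h6 : p ^ k / Nat.gcd (p ^ k) d ∣ p ^ e := by
    have h7 : p ^ k / Nat.gcd (p ^ k) d ∣ d / Nat.gcd (p ^ k) d * p ^ e := by
      obtain ⟨f, hf⟩ := hdvd
      have hgd : Nat.gcd (p ^ k) d ∣ d := Nat.gcd_dvd_right _ _
      have hgq : Nat.gcd (p ^ k) d ∣ p ^ k := Nat.gcd_dvd_left _ _
      refine ⟨f, ?_⟩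
      have h8 : Nat.gcd (p ^ k) d * (d / Nat.gcd (p ^ k) d * p ^ e) =
          Nat.gcd (p ^ k) d * (p ^ k / Nat.gcd (p ^ k) d * f) := by
        rw [← mul_assoc, ← mul_assoc, Nat.mul_div_cancel' hgd, Nat.mul_div_cancel' hgq, hf]
      exact Nat.eq_of_mul_eq_mul_left hgpos h8
    exact (Nat.coprime_div_gcd_div_gcd hgpos).dvd_of_dvd_mul_left h7
  have h9 := Nat.le_of_dvd (pow_pos hp.pos _) h6
  have h10 : p ^ k ≤ (d - 1) ^ 2 * Nat.gcd (p ^ k) d := by
    calc p ^ k = p ^ k / Nat.gcd (p ^ k) d * Nat.gcd (p ^ k) d :=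
          (Nat.div_mul_cancel (Nat.gcd_dvd_left _ _)).symm
      _ ≤ p ^ e * Nat.gcd (p ^ k) d := by gcongr
      _ ≤ _ := by gcongr
  omega

end

end Pool.Agent.Work.MP_f82ddf_nt
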