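import Pool.Agent.Work.MP_f82ddf_nt.SymAbelian

/-!
# Commuting symmetries which generate a group `(ℤ/m)²` with `m` not dividing the degree
-/

open MvPolynomial
open scoped LinearAlgebra.Projectivization ENNReal MatrixGroups

namespace Pool.Agent.Work.MP_f82ddf_nt

section

variable {K : Type*} [Field K] {n : ℕ} {F : MvPolynomial (Fin (n + 1)) K} {d : ℕ}

/-- Eigenvectors with different eigenvalues are not proportional. -/
theorem exists_minor_of_eigen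
    (G : Module.End (AlgebraicClosure K) (Fin (n + 1) → AlgebraicClosure K))
    (P Q : Fin (n + 1) → AlgebraicClosure K) (hP0 : P ≠ 0) (hQ0 : Q ≠ 0)
    (x y : AlgebraicClosure K) (hP : G P = x • P) (hQ : G Q = y • Q) (hxy : x ≠ y) :
    ∃ a b, P a * Q b ≠ P b * Q a := by
  obtain ⟨a, ha⟩ : ∃ a, P a ≠ 0 := by
    by_contra hcon
    push Not at hcon
    exact hP0 (funext hcon)
  refine ⟨a, ?_⟩
  by_contra hcon
  push Not at hcon
  have h1 : Q = (Q a / P a) • P := by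
    funext b
    rw [Pi.smul_apply, smul_eq_mul, div_mul_eq_mul_div, eq_div_iff ha]
    linear_combination hcon b
  apply hxy
  have h3 : y • Q = x • Q := by
    rw [← hQ]
    conv_lhs => rw [h1]
    rw [map_smul, hP, smul_comm, ← h1]
  obtain ⟨b, hb⟩ : ∃ b, Q b ≠ 0 := by
    by_contra hcon
    push Not at hcon
    exact hQ0 (funext hcon)
  have h5 := congrFun h3 b
  simp only [Pi.smul_apply, smul_eq_mul] at h5
  exact (mul_right_cancel₀ hb h5).symm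

/-- The line through two eigenvectors is contained in the hypersurface, or some exponent
satisfies the congruences given by the symmetries. -/
theorem line_or_congruence [CharZero K] (hF : F.IsHomogeneous d) {q : ℕ} (hq : 0 < q)
    (G H : Module.End (AlgebraicClosure K) (Fin (n + 1) → AlgebraicClosure K))
    (c₁ c₂ : AlgebraicClosure K)
    (hG : ∀ v, aeval (G v) F = c₁ * aeval v F) (hH : ∀ v, aeval (H v) F = c₂ * aeval v F)
    (ζ : AlgebraicClosure K) (hζ : IsPrimitiveRoot ζ q)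
    (P Q : Fin (n + 1) → AlgebraicClosure K) (hP0 : P ≠ 0) (hQ0 : Q ≠ 0)
    (x₁ y₁ x₂ y₂ : ℕ) (hGP : G P = ζ ^ x₁ • P) (hHP : H P = ζ ^ y₁ • P)
    (hGQ : G Q = ζ ^ x₂ • Q) (hHQ : H Q = ζ ^ y₂ • Q)
    (hne : ¬ ((q : ℤ) ∣ (x₂ : ℤ) - x₁ ∧ (q : ℤ) ∣ (y₂ : ℤ) - y₁)) :
    Nonempty (PolyCurve ({F} : Set (MvPolynomial (Fin (n + 1)) K))) ∨
      ∃ k : ℕ, ζ ^ ((x₁ : ℤ) * d + ((x₂ : ℤ) - x₁) * k) = c₁ ∧
        ζ ^ ((y₁ : ℤ) * d + ((y₂ : ℤ) - y₁) * k) = c₂ := by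
  classical
  have hζ0 : ζ ≠ 0 := hζ.ne_zero hq.ne'
  by_cases hzero : onLine F P Q = 0
  · left
    have hmin : ∃ a b, P a * Q b ≠ P b * Q a := by
      rw [not_and_or] at hne
      rcases hne with h | h
      · refine exists_minor_of_eigen G P Q hP0 hQ0 _ _ hGP hGQ ?_
        intro heq
        apply h
        rw [← hζ.zpow_eq_one_iff_dvd, zpow_sub₀ hζ0, zpow_natCast, zpow_natCast, heq,
          div_self (pow_ne_zero _ hζ0)]
      · refine exists_minor_of_eigen H P Q hP0 hQ0 _ _ hHP hHQ ?_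
        intro heq
        apply h
        rw [← hζ.zpow_eq_one_iff_dvd, zpow_sub₀ hζ0, zpow_natCast, zpow_natCast, heq,
          div_self (pow_ne_zero _ hζ0)]
    obtain ⟨a, b, hab⟩ := hmin
    refine exists_line_curve P Q a b hab ?_
    intro F' hF' t
    rw [Set.mem_singleton_iff.mp hF', ← eval_onLine, hzero, Polynomial.eval_zero]
  · right
    obtain ⟨k, hk⟩ : ∃ k, (onLine F P Q).coeff k ≠ 0 := by
      by_contra hcon
      push Not at hcon
      exact hzero (Polynomial.ext fun k => by rw [hcon k, Polynomial.coeff_zero])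
    have key : ∀ (T : Module.End (AlgebraicClosure K) (Fin (n + 1) → AlgebraicClosure K))
        (c : AlgebraicClosure K) (_ : ∀ v, aeval (T v) F = c * aeval v F) (a b : ℕ)
        (_ : T P = ζ ^ a • P) (_ : T Q = ζ ^ b • Q),
        ζ ^ ((a : ℤ) * d + ((b : ℤ) - a) * k) = c := by
      intro T c hT a b hTP hTQ
      have h1 := coeff_onLine hF T c hT P Q (ζ ^ a)
        (ζ ^ ((b : ℤ) - a)) hTP (by
          rw [hTQ]
          congr 1
          rw [← zpow_natCast, ← zpow_natCast, ← zpow_add₀ hζ0]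
          congr 1
          ring) k hk
      rw [← h1, zpow_add₀ hζ0, zpow_mul, zpow_mul, zpow_natCast, zpow_natCast, zpow_natCast]
    exact ⟨k, key G c₁ hG x₁ x₂ hGP hGQ, key H c₂ hH y₁ y₂ hHP hHQ⟩

/-- Three joint eigenvectors in general position. -/
theorem line_of_three [CharZero K] (hF : F.IsHomogeneous d) {p k : ℕ} (hp : p.Prime)
    (hpd : ¬ p ^ k ∣ d)
    (G H : Module.End (AlgebraicClosure K) (Fin (n + 1) → AlgebraicClosure K))
    (c₁ c₂ : AlgebraicClosure K)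
    (hG : ∀ v, aeval (G v) F = c₁ * aeval v F) (hH : ∀ v, aeval (H v) F = c₂ * aeval v F)
    (ζ : AlgebraicClosure K) (hζ : IsPrimitiveRoot ζ (p ^ k))
    (P : Fin 3 → Fin (n + 1) → AlgebraicClosure K) (hP0 : ∀ i, P i ≠ 0)
    (x y : Fin 3 → ℕ) (hGP : ∀ i, G (P i) = ζ ^ x i • P i) (hHP : ∀ i, H (P i) = ζ ^ y i • P i)
    (hdet : ¬ (p : ℤ) ∣ ((x 1 : ℤ) - x 0) * ((y 2 : ℤ) - y 0) -
      ((x 2 : ℤ) - x 0) * ((y 1 : ℤ) - y 0)) :
    Nonempty (PolyCurve ({F} : Set (MvPolynomial (Fin (n + 1)) K))) := by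
  have hq : 0 < p ^ k := pow_pos hp.pos k
  have hζ0 : ζ ≠ 0 := hζ.ne_zero hq.ne'
  have hk : k ≠ 0 := by
    rintro rfl
    exact hpd (by simp)
  have hpq : (p : ℤ) ∣ ((p ^ k : ℕ) : ℤ) := by
    exact_mod_cast dvd_pow_self p hk
  have hcop : IsCoprime (((x 1 : ℤ) - x 0) * ((y 2 : ℤ) - y 0) -
      ((x 2 : ℤ) - x 0) * ((y 1 : ℤ) - y 0)) ((p ^ k : ℕ) : ℤ) := by
    have hpp : Prime (p : ℤ) := Nat.prime_iff_prime_int.mp hp
    push_cast
    apply IsCoprime.pow_right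
    exact ((Prime.coprime_iff_not_dvd hpp).mpr hdet).symm
  set X₁ : ℤ := (x 1 : ℤ) - x 0 with hX₁
  set X₂ : ℤ := (x 2 : ℤ) - x 0 with hX₂
  set Y₁ : ℤ := (y 1 : ℤ) - y 0 with hY₁
  set Y₂ : ℤ := (y 2 : ℤ) - y 0 with hY₂
  have hzp : ∀ a b : ℤ, ζ ^ a = ζ ^ b → ((p ^ k : ℕ) : ℤ) ∣ a - b := by
    intro a b hab
    rw [← hζ.zpow_eq_one_iff_dvd, zpow_sub₀ hζ0, hab, div_self (zpow_ne_zero _ hζ0)]
  rcases line_or_congruence hF hq G H c₁ c₂ hG hH ζ hζ (P 0) (P 1) (hP0 0) (hP0 1) (x 0) (y 0)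
    (x 1) (y 1) (hGP 0) (hHP 0) (hGP 1) (hHP 1) (by
      rintro ⟨h1, h2⟩
      apply hdet
      have h3 := (hpq.trans h1).mul_right Y₂
      have h4 := (hpq.trans h2).mul_left X₂
      exact dvd_sub h3 h4) with h | ⟨r, hr₁, hr₂⟩
  · exact h
  rcases line_or_congruence hF hq G H c₁ c₂ hG hH ζ hζ (P 0) (P 2) (hP0 0) (hP0 2) (x 0) (y 0)
    (x 2) (y 2) (hGP 0) (hHP 0) (hGP 2) (hHP 2) (by
      rintro ⟨h1, h2⟩
      apply hdet
      have h3 := (hpq.trans h1).mul_right Y₁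
      have h4 := (hpq.trans h2).mul_left X₁
      exact dvd_sub h4 h3) with h | ⟨s, hs₁, hs₂⟩
  · exact h
  rcases line_or_congruence hF hq G H c₁ c₂ hG hH ζ hζ (P 1) (P 2) (hP0 1) (hP0 2) (x 1) (y 1)
    (x 2) (y 2) (hGP 1) (hHP 1) (hGP 2) (hHP 2) (by
      rintro ⟨h1, h2⟩
      apply hdet
      have h3 := (hpq.trans h1).mul_right Y₁
      have h4 := (hpq.trans h2).mul_left X₁
      have h5 := dvd_sub h4 h3
      have h6 : X₁ * Y₂ - X₂ * Y₁ =
          X₁ * ((y 2 : ℤ) - y 1) - ((x 2 : ℤ) - x 1) * Y₁ := by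
        rw [hX₁, hX₂, hY₁, hY₂]; ring
      rw [h6]
      exact h5) with h | ⟨t, ht₁, ht₂⟩
  · exact h
  exfalso
  have e1 := hzp _ _ (hr₁.trans hs₁.symm)
  have e2 := hzp _ _ (hr₂.trans hs₂.symm)
  have e3 := hzp _ _ (ht₁.trans hr₁.symm)
  have e4 := hzp _ _ (ht₂.trans hr₂.symm)
  -- `r = 0`
  have hr : ((p ^ k : ℕ) : ℤ) ∣ (r : ℤ) := by
    refine hcop.symm.dvd_of_dvd_mul_right (?_ : ((p ^ k : ℕ) : ℤ) ∣ (r : ℤ) * (X₁ * Y₂ - X₂ * Y₁))
    have h1 := dvd_sub (e1.mul_left Y₂) (e2.mul_left X₂)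
    have h2 : Y₂ * ((x 0 : ℤ) * d + ((x 1 : ℤ) - x 0) * r - ((x 0 : ℤ) * d +
        ((x 2 : ℤ) - x 0) * s)) - X₂ * ((y 0 : ℤ) * d + ((y 1 : ℤ) - y 0) * r -
        ((y 0 : ℤ) * d + ((y 2 : ℤ) - y 0) * s)) = (r : ℤ) * (X₁ * Y₂ - X₂ * Y₁) := by
      rw [hX₁, hX₂, hY₁, hY₂]; ring
    rwa [h2] at h1
  -- `t = 0`
  have ht : ((p ^ k : ℕ) : ℤ) ∣ (t : ℤ) := by
    refine hcop.symm.dvd_of_dvd_mul_right (?_ : ((p ^ k : ℕ) : ℤ) ∣ (t : ℤ) * (X₁ * Y₂ - X₂ * Y₁))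
    have h1 := dvd_sub (e4.mul_left X₁) (e3.mul_left Y₁)
    have h2 : X₁ * ((y 1 : ℤ) * d + ((y 2 : ℤ) - y 1) * t - ((y 0 : ℤ) * d +
        ((y 1 : ℤ) - y 0) * r)) - Y₁ * ((x 1 : ℤ) * d + ((x 2 : ℤ) - x 1) * t -
        ((x 0 : ℤ) * d + ((x 1 : ℤ) - x 0) * r)) = (t : ℤ) * (X₁ * Y₂ - X₂ * Y₁) := by
      rw [hX₁, hX₂, hY₁, hY₂]; ring
    rwa [h2] at h1
  -- `d = 0`
  have hdd : ((p ^ k : ℕ) : ℤ) ∣ (d : ℤ) := by
    refine hcop.symm.dvd_of_dvd_mul_right (?_ : ((p ^ k : ℕ) : ℤ) ∣ (d : ℤ) * (X₁ * Y₂ - X₂ * Y₁))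
    have h1 := dvd_sub (e3.mul_left Y₂) (e4.mul_left X₂)
    have h2 : Y₂ * ((x 1 : ℤ) * d + ((x 2 : ℤ) - x 1) * t -
        ((x 0 : ℤ) * d + ((x 1 : ℤ) - x 0) * r)) - X₂ * ((y 1 : ℤ) * d + ((y 2 : ℤ) - y 1) * t -
        ((y 0 : ℤ) * d + ((y 1 : ℤ) - y 0) * r)) =
        (d : ℤ) * (X₁ * Y₂ - X₂ * Y₁) - (t + r : ℤ) * (X₁ * Y₂ - X₂ * Y₁) := by
      rw [hX₁, hX₂, hY₁, hY₂]; ring
    rw [h2] at h1
    have h3 := (dvd_add ht hr).mul_right (X₁ * Y₂ - X₂ * Y₁)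
    have h4 := dvd_add h1 h3
    rwa [sub_add_cancel] at h4
  exact hpd (by exact_mod_cast hdd)

theorem mk_mul_pow_eq_one_of_scalar
    (g h : Matrix.GeneralLinearGroup (Fin (n + 1)) (AlgebraicClosure K))
    (μ ν s : AlgebraicClosure K) (hμ : μ ≠ 0) (hν : ν ≠ 0) (x y : ℕ)
    (hs : (μ • g.val) ^ x * (ν • h.val) ^ y = s • (1 : Matrix _ _ _)) :
    (Matrix.ProjGenLinGroup.mk g) ^ x * (Matrix.ProjGenLinGroup.mk h) ^ y = 1 := by
  rw [← map_pow, ← map_pow, ← map_mul, Matrix.ProjGenLinGroup.mk_eq_one,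
    Matrix.GeneralLinearGroup.mem_center_iff_val_mem_range_scalar]
  refine ⟨(μ ^ x * ν ^ y)⁻¹ * s, ?_⟩
  rw [Units.val_mul, Units.val_pow_eq_pow_val, Units.val_pow_eq_pow_val, Matrix.scalar_apply,
    ← Matrix.smul_one_eq_diagonal, mul_smul, ← hs, smul_pow, smul_pow, Matrix.smul_mul,
    Matrix.mul_smul, smul_smul, smul_smul, mul_assoc,
    inv_mul_cancel₀ (mul_ne_zero (pow_ne_zero _ hμ) (pow_ne_zero _ hν)), one_smul]

/-- Two commuting symmetries generating `(ℤ/m)²`, `m` not dividing the degree, give a line. -/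
theorem exists_curve_of_square [CharZero K] (hF : F.IsHomogeneous d) {m : ℕ}
    (hm : 0 < m) (hmd : ¬ m ∣ d)
    (a b : Matrix.GeneralLinearGroup (Fin (n + 1)) (AlgebraicClosure K)) (hab : a * b = b * a)
    (ha : IsSymmetry F a) (hb : IsSymmetry F b)
    (hfaith : ∀ i j : ℕ, (Matrix.ProjGenLinGroup.mk a) ^ i * (Matrix.ProjGenLinGroup.mk b) ^ j = 1 ↔
      m ∣ i ∧ m ∣ j) :
    Nonempty (PolyCurve ({F} : Set (MvPolynomial (Fin (n + 1)) K))) := by
  classical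
  have hchar : CharZero (AlgebraicClosure K) :=
    charZero_of_injective_algebraMap (algebraMap K (AlgebraicClosure K)).injective
  -- reduction to a prime power
  obtain ⟨p, k, hp, hkm, hkd⟩ : ∃ p k : ℕ, p.Prime ∧ p ^ k ∣ m ∧ ¬ p ^ k ∣ d := by
    by_contra hcon
    push Not at hcon
    exact hmd ((Nat.dvd_iff_prime_pow_dvd_dvd d m).mpr fun p k hp h => hcon p k hp h)
  obtain ⟨t, ht⟩ := hkm
  have hk0 : k ≠ 0 := by
    rintro rfl
    exact hkd (by simp)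
  set q : ℕ := p ^ k with hq
  have hqpos : 0 < q := pow_pos hp.pos k
  have htpos : 0 < t := by
    rcases Nat.eq_zero_or_pos t with h | h
    · rw [h, mul_zero] at ht
      omega
    · exact h
  have hpowsym : ∀ (g : Matrix.GeneralLinearGroup (Fin (n + 1)) (AlgebraicClosure K))
      (_ : IsSymmetry F g) (r : ℕ), IsSymmetry F (g ^ r) := by
    intro g hg r
    obtain ⟨c, hc, hgc⟩ := hg
    refine ⟨c ^ r, pow_ne_zero _ hc, ?_⟩
    induction r with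
    | zero => intro v; simp
    | succ r ih =>
      intro v
      rw [pow_succ', Units.val_mul, ← Matrix.mulVec_mulVec, hgc, ih, pow_succ]
      ring
  have hfaith' : ∀ i j : ℕ, (Matrix.ProjGenLinGroup.mk (a ^ t)) ^ i *
      (Matrix.ProjGenLinGroup.mk (b ^ t)) ^ j = 1 ↔ q ∣ i ∧ q ∣ j := by
    intro i j
    rw [map_pow, map_pow, ← pow_mul, ← pow_mul, hfaith, ht, mul_comm t i, mul_comm t j,
      Nat.mul_dvd_mul_iff_right htpos, Nat.mul_dvd_mul_iff_right htpos]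
  have haq : (Matrix.ProjGenLinGroup.mk (a ^ t)) ^ q = 1 := by
    have := (hfaith' q 0).mpr ⟨dvd_rfl, dvd_zero _⟩
    rwa [pow_zero, mul_one] at this
  have hbq : (Matrix.ProjGenLinGroup.mk (b ^ t)) ^ q = 1 := by
    have := (hfaith' 0 q).mpr ⟨dvd_zero _, dvd_rfl⟩
    rwa [pow_zero, one_mul] at this
  obtain ⟨μ, hμ, hμq⟩ := exists_normalised (a ^ t) hqpos haq
  obtain ⟨ν, hν, hνq⟩ := exists_normalised (b ^ t) hqpos hbq
  obtain ⟨c₁, hc₁, hac⟩ := hpowsym a ha t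
  obtain ⟨c₂, hc₂, hbc⟩ := hpowsym b hb t
  let G : Module.End (AlgebraicClosure K) (Fin (n + 1) → AlgebraicClosure K) :=
    Matrix.toLin' (μ • (a ^ t).val)
  let H : Module.End (AlgebraicClosure K) (Fin (n + 1) → AlgebraicClosure K) :=
    Matrix.toLin' (ν • (b ^ t).val)
  have hGpow : ∀ r, G ^ r = Matrix.toLin' ((μ • (a ^ t).val) ^ r) := by
    intro r
    rw [Matrix.toLin'_pow]
  have hHpow : ∀ r, H ^ r = Matrix.toLin' ((ν • (b ^ t).val) ^ r) := by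
    intro r
    rw [Matrix.toLin'_pow]
  have hGq : G ^ q = 1 := by
    rw [hGpow, hμq, Matrix.toLin'_one]
    rfl
  have hHq : H ^ q = 1 := by
    rw [hHpow, hνq, Matrix.toLin'_one]
    rfl
  have hGF : ∀ v, aeval (G v) F = (μ ^ d * c₁) * aeval v F := by
    intro v
    simp only [G, Matrix.toLin'_apply]
    rw [Matrix.smul_mulVec, aeval_smul_hom hF, hac, mul_assoc]
  have hHF : ∀ v, aeval (H v) F = (ν ^ d * c₂) * aeval v F := by
    intro v
    simp only [H, Matrix.toLin'_apply]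
    rw [Matrix.smul_mulVec, aeval_smul_hom hF, hbc, mul_assoc]
  have hcomm : Commute G H := by
    apply LinearMap.ext
    intro v
    rw [Module.End.mul_apply, Module.End.mul_apply]
    simp only [G, H, Matrix.toLin'_apply, Matrix.mulVec_mulVec]
    have h1 : (a ^ t).val * (b ^ t).val = (b ^ t).val * (a ^ t).val := by
      rw [← Units.val_mul, ← Units.val_mul]
      congr 1
      exact ((show Commute a b from hab).pow_pow t t)
    rw [Matrix.smul_mul, Matrix.mul_smul, h1, Matrix.smul_mul, Matrix.mul_smul, smul_comm]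
  have hscalar : ∀ (x y : ℕ) (u : AlgebraicClosure K),
      G ^ x * H ^ y = u • (1 : Module.End (AlgebraicClosure K)
        (Fin (n + 1) → AlgebraicClosure K)) → q ∣ x ∧ q ∣ y := by
    intro x y u h
    apply (hfaith' x y).mp
    apply mk_mul_pow_eq_one_of_scalar (a ^ t) (b ^ t) μ ν u hμ hν
    apply Matrix.toLin'.injective
    rw [map_smul, Matrix.toLin'_mul, Matrix.toLin'_one, ← hGpow, ← hHpow]
    exact h
  have hneq : NeZero q := ⟨hqpos.ne'⟩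
  obtain ⟨ζ, hζ⟩ := HasEnoughRootsOfUnity.exists_primitiveRoot (AlgebraicClosure K) q
  have hζ0 : ζ ≠ 0 := hζ.ne_zero hqpos.ne'
  have hchr : ∀ (T : Module.End (AlgebraicClosure K) (Fin (n + 1) → AlgebraicClosure K))
      (_ : T ^ q = 1) (v : Fin (n + 1) → AlgebraicClosure K) (x : AlgebraicClosure K)
      (_ : v ≠ 0) (_ : T v = x • v), ∃ i, i < q ∧ ζ ^ i = x := by
    intro T hT v x hv0 hv
    have hne : NeZero q := ⟨hqpos.ne'⟩
    exact hζ.eq_pow_of_pow_eq_one (root_eigen T hT v x hv0 hv)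
  -- a criterion for scalar operators
  have hspan : ∀ (x y : ℕ) (u : AlgebraicClosure K),
      (∀ (v : Fin (n + 1) → AlgebraicClosure K) (i j : ℕ), v ≠ 0 → G v = ζ ^ i • v →
        H v = ζ ^ j • v → ζ ^ (i * x + j * y) = u) → q ∣ x ∧ q ∣ y := by
    intro x y u h
    apply hscalar x y u
    apply eq_of_joint_eigen hqpos G H hGq hHq hcomm
    intro v α β hv hα hβ
    obtain ⟨i, _, hi⟩ := hchr G hGq v α hv hα
    obtain ⟨j, _, hj⟩ := hchr H hHq v β hv hβ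
    have h1 := h v i j hv (by rw [hi]; exact hα) (by rw [hj]; exact hβ)
    rw [Module.End.mul_apply, pow_eigen H y v β hβ, map_smul, pow_eigen G x v α hα, smul_smul,
      LinearMap.smul_apply, Module.End.one_apply, ← h1, ← hi, ← hj, pow_add, pow_mul, pow_mul,
      mul_comm]
  have hppq : p * p ^ (k - 1) = q := by
    rw [hq, ← pow_succ']
    congr 1
    omega
  have hpk1 : 0 < p ^ (k - 1) := pow_pos hp.pos _
  -- first eigenvector
  obtain ⟨P₀, x₀, y₀, hP₀, hGP₀, hHP₀⟩ : ∃ (P : Fin (n + 1) → AlgebraicClosure K) (x y : ℕ),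
      P ≠ 0 ∧ G P = ζ ^ x • P ∧ H P = ζ ^ y • P := by
    by_contra hcon
    push Not at hcon
    have h1 := (hspan 1 0 1 fun v i j hv hi hj => absurd hj (hcon v i j hv hi)).1
    have h2 : q ≤ 1 := Nat.le_of_dvd one_pos h1
    have h3 : p ≤ q := by rw [← hppq]; exact Nat.le_mul_of_pos_right p hpk1
    have := hp.two_le
    omega
  -- `ζ` raised to a multiple of `p ^ (k - 1)`
  have hpow : ∀ i j : ℤ, (p : ℤ) ∣ i - j → ζ ^ (i * (p ^ (k - 1) : ℕ)) =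
      ζ ^ (j * (p ^ (k - 1) : ℕ)) := by
    intro i j h
    obtain ⟨r, hr⟩ := h
    have h1 : i * ((p ^ (k - 1) : ℕ) : ℤ) = j * ((p ^ (k - 1) : ℕ) : ℤ) + (q : ℤ) * r := by
      have h2 : (q : ℤ) = (p : ℤ) * ((p ^ (k - 1) : ℕ) : ℤ) := by exact_mod_cast hppq.symm
      rw [h2]
      linear_combination ((p ^ (k - 1) : ℕ) : ℤ) * hr
    rw [h1, zpow_add₀ hζ0, zpow_mul ζ (q : ℤ) r, zpow_natCast ζ q, hζ.pow_eq_one, one_zpow,
      mul_one]
  -- second eigenvector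
  obtain ⟨P₁, x₁, y₁, hP₁, hGP₁, hHP₁, hne⟩ : ∃ (P : Fin (n + 1) → AlgebraicClosure K) (x y : ℕ),
      P ≠ 0 ∧ G P = ζ ^ x • P ∧ H P = ζ ^ y • P ∧
        ¬ ((p : ℤ) ∣ (x : ℤ) - x₀ ∧ (p : ℤ) ∣ (y : ℤ) - y₀) := by
    by_contra hcon
    push Not at hcon
    have h1 := (hspan (p ^ (k - 1)) 0 (ζ ^ (x₀ * p ^ (k - 1))) fun v i j hv hi hj => by
      have h2 := (hcon v i j hv hi hj).1
      rw [mul_zero, add_zero]
      have h3 := hpow i x₀ h2
      have h4 : ∀ r : ℕ, ζ ^ (r * p ^ (k - 1)) = ζ ^ ((r : ℤ) * (p ^ (k - 1) : ℕ)) := by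
        intro r
        rw [← zpow_natCast]
        push_cast
        rfl
      rw [h4, h4, h3]).1
    have h2 := Nat.le_of_dvd hpk1 h1
    rw [← hppq] at h2
    have := hp.two_le
    nlinarith
  -- third eigenvector
  obtain ⟨P₂, x₂, y₂, hP₂, hGP₂, hHP₂, hdet⟩ : ∃ (P : Fin (n + 1) → AlgebraicClosure K) (x y : ℕ),
      P ≠ 0 ∧ G P = ζ ^ x • P ∧ H P = ζ ^ y • P ∧
        ¬ (p : ℤ) ∣ ((x₁ : ℤ) - x₀) * ((y : ℤ) - y₀) - ((x : ℤ) - x₀) * ((y₁ : ℤ) - y₀) := by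
    by_contra hcon
    push Not at hcon
    -- nonnegative exponents congruent to `y₀ - y₁` and `x₁ - x₀`
    obtain ⟨u, hu⟩ : ∃ u : ℕ, (p : ℤ) ∣ (u : ℤ) - (y₀ - y₁) := by
      refine ⟨y₀ + (p - 1) * y₁, ?_⟩
      refine ⟨y₁, ?_⟩
      have := hp.one_le
      push_cast [Nat.cast_sub this]
      ring
    obtain ⟨w, hw⟩ : ∃ w : ℕ, (p : ℤ) ∣ (w : ℤ) - (x₁ - x₀) := by
      refine ⟨x₁ + (p - 1) * x₀, ?_⟩
      refine ⟨x₀, ?_⟩
      have := hp.one_le
      push_cast [Nat.cast_sub this]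
      ring
    have h1 := hspan (u * p ^ (k - 1)) (w * p ^ (k - 1))
      (ζ ^ (((x₀ : ℤ) * u + y₀ * w) * (p ^ (k - 1) : ℕ))) (fun v i j hv hi hj => by
      have h2 := hcon v i j hv hi hj
      have h3 := hpow ((i : ℤ) * u + j * w) ((x₀ : ℤ) * u + y₀ * w) (by
        have h4 := (hu.mul_left ((i : ℤ) - x₀))
        have h5 := (hw.mul_left ((j : ℤ) - y₀))
        have h6 := dvd_add (dvd_add h4 h5) h2
        have h7 : ((i : ℤ) - x₀) * ((u : ℤ) - (y₀ - y₁)) + ((j : ℤ) - y₀) *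
            ((w : ℤ) - (x₁ - x₀)) + (((x₁ : ℤ) - x₀) * ((j : ℤ) - y₀) -
            ((i : ℤ) - x₀) * ((y₁ : ℤ) - y₀)) =
            (i : ℤ) * u + j * w - ((x₀ : ℤ) * u + y₀ * w) := by ring
        rwa [h7] at h6)
      rw [← h3, ← zpow_natCast]
      congr 1
      push_cast
      ring)
    have h2 : p ∣ u := by
      have h3 := h1.1
      rw [← hppq] at h3
      exact Nat.dvd_of_mul_dvd_mul_right hpk1 h3
    have h2' : p ∣ w := by
      have h3 := h1.2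
      rw [← hppq] at h3
      exact Nat.dvd_of_mul_dvd_mul_right hpk1 h3
    apply hne
    constructor
    · have h3 : (p : ℤ) ∣ (w : ℤ) := by exact_mod_cast h2'
      have h4 := dvd_sub h3 hw
      rwa [sub_sub_cancel] at h4
    · have h3 : (p : ℤ) ∣ (u : ℤ) := by exact_mod_cast h2
      have h4 := dvd_sub h3 hu
      rw [sub_sub_cancel] at h4
      have h5 : (y₁ : ℤ) - y₀ = -((y₀ : ℤ) - y₁) := by ring
      rw [h5]
      exact (dvd_neg).mpr h4
  refine line_of_three hF hp hkd G H _ _ hGF hHF ζ hζ ![P₀, P₁, P₂] ?_ ![x₀, x₁, x₂]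
    ![y₀, y₁, y₂] ?_ ?_ ?_
  · intro i
    fin_cases i
    · exact hP₀
    · exact hP₁
    · exact hP₂
  · intro i
    fin_cases i
    · exact hGP₀
    · exact hGP₁
    · exact hGP₂
  · intro i
    fin_cases i
    · exact hHP₀
    · exact hHP₁
    · exact hHP₂
  · exact hdet

end

end Pool.Agent.Work.MP_f82ddf_nt
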