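import Pool.Agent.Work.MP_f82ddf_nt.SymSquare

/-!
# Symmetry groups isomorphic to `(ℤ/m)²` with `m` not dividing the degree give lines
-/

open MvPolynomial
open scoped LinearAlgebra.Projectivization ENNReal MatrixGroups

namespace Pool.Agent.Work.MP_f82ddf_nt

section

variable {K : Type*} [Field K] {n : ℕ} {F : MvPolynomial (Fin (n + 1)) K} {d : ℕ}

/-- Lifts of two commuting projective symmetries of order prime to the degree commute. -/
theorem lifts_commute (hF : F.IsHomogeneous d) (hF0 : F ≠ 0) {m : ℕ} (hm : 0 < m)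
    (hcop : m.Coprime d) (g h : Matrix.GeneralLinearGroup (Fin (n + 1)) (AlgebraicClosure K))
    (hg : IsSymmetry F g) (hh : IsSymmetry F h) (hhm : (Matrix.ProjGenLinGroup.mk h) ^ m = 1)
    (hcomm : Matrix.ProjGenLinGroup.mk (h * g) = Matrix.ProjGenLinGroup.mk (g * h)) :
    g * h = h * g := by
  classical
  rw [Matrix.ProjGenLinGroup.mk_eq_mk_iff] at hcomm
  obtain ⟨u, hu⟩ := hcomm
  have hu' : g.val * h.val = (u : AlgebraicClosure K) • (h.val * g.val) := by
    have h1 := congrArg Units.val hu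
    rw [Units.val_mul, Units.val_mul, Units.val_mul] at h1
    rw [← h1]
    have h2 : (Matrix.GeneralLinearGroup.scalar (Fin (n + 1)) u).val =
        (u : AlgebraicClosure K) • (1 : Matrix (Fin (n + 1)) (Fin (n + 1)) (AlgebraicClosure K)) := by
      rw [Matrix.smul_one_eq_diagonal]
      rfl
    rw [h2, Matrix.mul_smul, mul_one]
  obtain ⟨cg, hcg, hgF⟩ := hg
  obtain ⟨ch, hch, hhF⟩ := hh
  have hud : (u : AlgebraicClosure K) ^ d = 1 := by
    obtain ⟨v, hv⟩ := exists_aeval_ne_zero hF0
    have h1 : aeval ((g.val * h.val).mulVec v) F = cg * (ch * aeval v F) := by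
      rw [← Matrix.mulVec_mulVec, hgF, hhF]
    have h2 : aeval ((g.val * h.val).mulVec v) F =
        (u : AlgebraicClosure K) ^ d * (ch * (cg * aeval v F)) := by
      rw [hu', Matrix.smul_mulVec, aeval_smul_hom hF, ← Matrix.mulVec_mulVec, hhF, hgF]
    have h3 : (u : AlgebraicClosure K) ^ d * (ch * cg * aeval v F) = 1 * (ch * cg * aeval v F) := by
      rw [one_mul]
      calc (u : AlgebraicClosure K) ^ d * (ch * cg * aeval v F)
          = (u : AlgebraicClosure K) ^ d * (ch * (cg * aeval v F)) := by ring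
        _ = cg * (ch * aeval v F) := by rw [← h2, h1]
        _ = ch * cg * aeval v F := by ring
    exact mul_right_cancel₀ (mul_ne_zero (mul_ne_zero hch hcg) hv) h3
  obtain ⟨ν, hν, hνm⟩ := exists_normalised h hm hhm
  have hum : (u : AlgebraicClosure K) ^ m = 1 := by
    have h1 : ∀ r : ℕ, g.val * (ν • h.val) ^ r =
        (u : AlgebraicClosure K) ^ r • ((ν • h.val) ^ r * g.val) := by
      intro r
      induction r with
      | zero => simp
      | succ r ih =>
        have h2 : g.val * (ν • h.val) = (u : AlgebraicClosure K) • ((ν • h.val) * g.val) := by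
          rw [Matrix.mul_smul, hu', Matrix.smul_mul, smul_comm]
        rw [pow_succ, ← mul_assoc, ih, Matrix.smul_mul, mul_assoc, h2, Matrix.mul_smul, smul_smul,
          ← mul_assoc, pow_succ]
    have h2 := h1 m
    rw [hνm, mul_one, one_mul] at h2
    have hgne : g.val ≠ 0 := by
      intro h0
      have h3 : g.val * g⁻¹.val = 1 := by
        rw [← Units.val_mul, mul_inv_cancel, Units.val_one]
      rw [h0, zero_mul] at h3
      exact zero_ne_one h3
    have h3 : (1 - (u : AlgebraicClosure K) ^ m) • g.val = 0 := by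
      rw [sub_smul, one_smul, ← h2, sub_self]
    rcases smul_eq_zero.mp h3 with h4 | h4
    · exact (sub_eq_zero.mp h4).symm
    · exact absurd h4 hgne
  have hu1 : (u : AlgebraicClosure K) = 1 := by
    have h1 := orderOf_dvd_of_pow_eq_one hud
    have h2 := orderOf_dvd_of_pow_eq_one hum
    have h3 : orderOf (u : AlgebraicClosure K) ∣ Nat.gcd m d := Nat.dvd_gcd h2 h1
    rw [hcop] at h3
    exact orderOf_eq_one_iff.mp (Nat.dvd_one.mp h3)
  apply Units.ext
  rw [Units.val_mul, Units.val_mul, hu', hu1, one_smul]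

theorem exists_curve_of_square_group [CharZero K] (hF : F.IsHomogeneous d) (hF0 : F ≠ 0) {m : ℕ}
    (hm : 0 < m) (hmd : ¬ m ∣ d)
    (φ : Multiplicative (ZMod m × ZMod m) →*
      Matrix.ProjGenLinGroup (Fin (n + 1)) (AlgebraicClosure K))
    (hφ : Function.Injective φ)
    (hsym : ∀ x, ∀ g : Matrix.GeneralLinearGroup (Fin (n + 1)) (AlgebraicClosure K),
      Matrix.ProjGenLinGroup.mk g = φ x → IsSymmetry F g)
    (hlift : m.Coprime d ∨
      ∀ x y, ∀ g h : Matrix.GeneralLinearGroup (Fin (n + 1)) (AlgebraicClosure K),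
        Matrix.ProjGenLinGroup.mk g = φ x → Matrix.ProjGenLinGroup.mk h = φ y → g * h = h * g) :
    Nonempty (PolyCurve ({F} : Set (MvPolynomial (Fin (n + 1)) K))) := by
  classical
  have hpow : ∀ x : Multiplicative (ZMod m × ZMod m), x ^ m = 1 := by
    intro x
    have h1 : (m : ℕ) • (Multiplicative.toAdd x) = 0 := by
      ext
      · simp
      · simp
    exact h1
  obtain ⟨g, hg⟩ := Matrix.ProjGenLinGroup.mk_surjective
    (φ (Multiplicative.ofAdd ((1, 0) : ZMod m × ZMod m)))
  obtain ⟨h, hh⟩ := Matrix.ProjGenLinGroup.mk_surjective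
    (φ (Multiplicative.ofAdd ((0, 1) : ZMod m × ZMod m)))
  have hhm : (Matrix.ProjGenLinGroup.mk h) ^ m = 1 := by
    rw [hh, ← map_pow, hpow, map_one]
  have hgh : g * h = h * g := by
    rcases hlift with hcop | hlift
    · apply lifts_commute hF hF0 hm hcop g h (hsym _ g hg) (hsym _ h hh) hhm
      rw [map_mul, map_mul, hg, hh, ← φ.map_mul, ← φ.map_mul, mul_comm]
    · exact hlift _ _ g h hg hh
  refine exists_curve_of_square hF hm hmd g h hgh (hsym _ g hg) (hsym _ h hh) ?_
  intro i j
  rw [hg, hh, ← φ.map_pow, ← φ.map_pow, ← φ.map_mul]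
  have h1 : (Multiplicative.ofAdd ((1, 0) : ZMod m × ZMod m)) ^ i *
      (Multiplicative.ofAdd ((0, 1) : ZMod m × ZMod m)) ^ j =
      Multiplicative.ofAdd (((i : ZMod m), (j : ZMod m)) : ZMod m × ZMod m) := by
    rw [← ofAdd_nsmul, ← ofAdd_nsmul, ← ofAdd_add]
    congr 1
    ext <;> simp
  rw [h1, ← ZMod.natCast_eq_zero_iff, ← ZMod.natCast_eq_zero_iff]
  constructor
  · intro h2
    have h3 : φ (Multiplicative.ofAdd (((i : ZMod m), (j : ZMod m)) : ZMod m × ZMod m)) = φ 1 := by
      rw [h2, map_one]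
    have h4 := hφ h3
    have h5 : (((i : ZMod m), (j : ZMod m)) : ZMod m × ZMod m) = 0 := h4
    exact ⟨congrArg Prod.fst h5, congrArg Prod.snd h5⟩
  · rintro ⟨h2, h3⟩
    rw [h2, h3]
    exact φ.map_one

end

end Pool.Agent.Work.MP_f82ddf_nt
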