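import Pool.Agent.Work.MP_f82ddf_nt.WaringDefs
import Pool.Agent.Work.MP_f82ddf_nt.Brody.WaringLine
import Pool.Agent.Work.MP_f82ddf_nt.Closure
import Pool.Agent.Work.MP_f82ddf_nt.Brody.Brody

/-!
# The dichotomy for varieties of small Waring rank
-/

open MvPolynomial Set
open scoped LinearAlgebra.Projectivization ENNReal

namespace Pool.Agent.Work.MP_f82ddf_nt

section main

variable {K : Type} [Field K] {n : ℕ} {S : Set (MvPolynomial (Fin (n + 1)) K)}

theorem linearIndependent_pair {A : Type*} [Field A] {u v : Fin (n + 1) → A}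
    {a b : Fin (n + 1)} (h : u a * v b ≠ u b * v a) : LinearIndependent A ![u, v] := by
  rw [LinearIndependent.pair_iff]
  intro s t hst
  have h1 : s * u a + t * v a = 0 := congrFun hst a
  have h2 : s * u b + t * v b = 0 := congrFun hst b
  have h3 : u a * v b - u b * v a ≠ 0 := sub_ne_zero.2 h
  constructor
  · apply (mul_eq_zero.1 (_ : s * (u a * v b - u b * v a) = 0)).resolve_right h3
    linear_combination v b * h1 - v a * h2
  · apply (mul_eq_zero.1 (_ : t * (u a * v b - u b * v a) = 0)).resolve_right h3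
    linear_combination u a * h2 - u b * h1

theorem exists_minor {A : Type*} [Field A] {u v : Fin (n + 1) → A}
    (h : LinearIndependent A ![u, v]) : ∃ a b, u a * v b ≠ u b * v a := by
  by_contra hcon
  push Not at hcon
  rw [LinearIndependent.pair_iff] at h
  have hv : v ≠ 0 := by
    intro h0
    have := (h 0 1 (by rw [h0]; simp)).2
    exact one_ne_zero this
  obtain ⟨b, hb⟩ : ∃ b, v b ≠ 0 := by
    by_contra h0
    push Not at h0
    exact hv (funext h0)
  have h1 := (h (v b) (-(u b)) (by
    funext a
    show v b * u a + -(u b) * v a = 0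
    linear_combination hcon a b)).1
  exact hb h1

/-- A line over the complex numbers gives a line over the algebraic closure. -/
theorem containsLine_of_complex [CharZero K] (σ : K →+* ℂ)
    (u v : Fin (n + 1) → ℂ) (a b : Fin (n + 1)) (hab : u a * v b ≠ u b * v a)
    (h : ∀ F ∈ S, ∀ s t : ℂ, eval₂ σ (fun i => s * u i + t * v i) F = 0) : ContainsLine S := by
  classical
  have hch : CharZero (AlgebraicClosure K) :=
    charZero_of_injective_algebraMap (algebraMap K (AlgebraicClosure K)).injective
  let q : MvPolynomial (Fin (n + 1)) K → ℕ → ℕ → MvPolynomial (Fin (n + 1) ⊕ Fin (n + 1)) K :=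
    fun F s t => aeval (fun i => C (s : K) * X (Sum.inl i) + C (t : K) * X (Sum.inr i)) F
  have hq : ∀ {B : Type} [Field B] (τ : K →+* B) (P : Fin (n + 1) ⊕ Fin (n + 1) → B)
      (F : MvPolynomial (Fin (n + 1)) K) (s t : ℕ), eval₂ τ P (q F s t) =
        eval₂ τ (fun i => (s : B) * P (Sum.inl i) + (t : B) * P (Sum.inr i)) F := by
    intro B _ τ P F s t
    have h1 := eval₂_comp_left (eval₂Hom τ P) (algebraMap K (MvPolynomial _ K))
      (fun i => C (s : K) * X (Sum.inl i) + C (t : K) * X (Sum.inr i)) F
    rw [coe_eval₂Hom] at h1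
    show eval₂ τ P (aeval _ F) = _
    rw [aeval_def, h1]
    congr 1
    · ext x
      simp [algebraMap_eq]
    · funext i
      simp
  obtain ⟨c, hc, hc2⟩ := exists_over_closure (A := AlgebraicClosure K) σ {p | ∃ F ∈ S, ∃ s t : ℕ, p = q F s t}
    (X (Sum.inl a) * X (Sum.inr b) - X (Sum.inl b) * X (Sum.inr a)) (Sum.elim u v) (by
      rintro p ⟨F, hF, s, t, rfl⟩
      rw [hq]
      exact h F hF s t) (by
      rw [eval₂_sub, eval₂_mul, eval₂_mul, eval₂_X, eval₂_X, eval₂_X, eval₂_X]
      exact sub_ne_zero.2 hab)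
  rw [map_sub, map_mul, map_mul, aeval_X, aeval_X, aeval_X, aeval_X] at hc2
  refine ⟨fun i => c (Sum.inl i), fun i => c (Sum.inr i),
    linearIndependent_pair (sub_ne_zero.1 hc2), ?_⟩
  intro F hF
  have h1 : ∀ s t : ℕ, aeval (fun i => (s : AlgebraicClosure K) * c (Sum.inl i) +
      (t : AlgebraicClosure K) * c (Sum.inr i)) F = 0 := by
    intro s t
    have h2 := hc _ ⟨F, hF, s, t, rfl⟩
    rw [aeval_def, hq] at h2
    exact h2
  have hinf : (Set.range (Nat.cast : ℕ → AlgebraicClosure K)).Infinite :=
    Set.infinite_range_of_injective Nat.cast_injective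
  have h2 : ∀ (s : ℕ) (t : AlgebraicClosure K),
      aeval (fun i => (s : AlgebraicClosure K) * c (Sum.inl i) + t * c (Sum.inr i)) F = 0 := by
    intro s t
    have hfun : ∀ m : AlgebraicClosure K, (fun i => Polynomial.eval m (Polynomial.C
        ((s : AlgebraicClosure K) * c (Sum.inl i)) +
          Polynomial.X * Polynomial.C (c (Sum.inr i)))) =
        fun i => (s : AlgebraicClosure K) * c (Sum.inl i) + m * c (Sum.inr i) := by
      intro m
      funext i
      rw [Polynomial.eval_add, Polynomial.eval_C, Polynomial.eval_mul, Polynomial.eval_X,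
        Polynomial.eval_C]
    have h3 : aeval (fun i => Polynomial.C ((s : AlgebraicClosure K) * c (Sum.inl i)) +
        Polynomial.X * Polynomial.C (c (Sum.inr i))) F = 0 := by
      apply Polynomial.eq_of_infinite_eval_eq
      refine hinf.mono ?_
      rintro _ ⟨m, rfl⟩
      show Polynomial.eval _ _ = Polynomial.eval _ 0
      rw [Polynomial.eval_zero, eval_aeval_poly, hfun]
      exact h1 s m
    have h4 := congrArg (Polynomial.eval t) h3
    rw [Polynomial.eval_zero, eval_aeval_poly, hfun] at h4
    exact h4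
  intro s t
  have hfun : ∀ m : AlgebraicClosure K, (fun i => Polynomial.eval m (Polynomial.X *
      Polynomial.C (c (Sum.inl i)) + Polynomial.C (t * c (Sum.inr i)))) =
        fun i => m * c (Sum.inl i) + t * c (Sum.inr i) := by
    intro m
    funext i
    rw [Polynomial.eval_add, Polynomial.eval_C, Polynomial.eval_mul, Polynomial.eval_X,
      Polynomial.eval_C]
  have h3 : aeval (fun i => Polynomial.X * Polynomial.C (c (Sum.inl i)) +
      Polynomial.C (t * c (Sum.inr i))) F = 0 := by
    apply Polynomial.eq_of_infinite_eval_eq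
    refine hinf.mono ?_
    rintro _ ⟨m, rfl⟩
    show Polynomial.eval _ _ = Polynomial.eval _ 0
    rw [Polynomial.eval_zero, eval_aeval_poly, hfun]
    exact h2 m t
  have h4 := congrArg (Polynomial.eval s) h3
  rw [Polynomial.eval_zero, eval_aeval_poly, hfun] at h4
  exact h4

theorem polyCurve_of_line [CharZero K] (h : ContainsLine S) : Nonempty (PolyCurve S) := by
  have hch : CharZero (AlgebraicClosure K) :=
    charZero_of_injective_algebraMap (algebraMap K (AlgebraicClosure K)).injective
  obtain ⟨u, v, huv, hF⟩ := h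
  obtain ⟨a, b, hab⟩ := exists_minor huv
  refine exists_line_curve u v a b hab fun F hFS t => ?_
  have h1 := hF F hFS 1 t
  have h2 : (1 : AlgebraicClosure K) • u + t • v = fun k => u k + v k * t := by
    funext k
    simp [mul_comm]
  rwa [h2] at h1

/-- The dichotomy for varieties of small Waring rank. -/
theorem waring [CharZero K]
    (hS : ∀ F ∈ S, ∃ d r, F.IsHomogeneous d ∧ WaringRankLE F d r ∧ r * (r - 2) < d) :
    (ContainsLine S ∧ ∀ σ : K →+* ℂ, ¬ KobayashiHyperbolic (complexPoints S σ) ∧
      ∃ (L : Type) (_ : Field L) (_ : Algebra K L) (_ : FiniteDimensional K L),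
        (points S L).Infinite) ∨
    (¬ ContainsLine S ∧ ∀ σ : K →+* ℂ, KobayashiHyperbolic (complexPoints S σ)) := by
  classical
  have hS' : ∀ F ∈ S, ∃ d, F.IsHomogeneous d := by
    intro F hF
    obtain ⟨d, r, h1, -⟩ := hS F hF
    exact ⟨d, h1⟩
  by_cases h : ContainsLine S
  · left
    refine ⟨h, fun σ => ?_⟩
    obtain ⟨C⟩ := polyCurve_of_line h
    exact ⟨C.not_kobayashi hS' σ, C.exists_infinite hS'⟩
  · right
    refine ⟨h, fun σ => ?_⟩
    by_contra hcon
    apply h
    obtain ⟨f, hf, hfX, hne⟩ := exists_entire_curve hS' σ hcon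
    let _ : Algebra K ℂ := σ.toAlgebra
    let τ : AlgebraicClosure K →ₐ[K] ℂ := IsAlgClosed.lift
    have hτ : (τ : AlgebraicClosure K →+* ℂ).comp (algebraMap K (AlgebraicClosure K)) = σ :=
      RingHom.ext fun x => τ.commutes x
    obtain ⟨u, v, ⟨a, b, hab⟩, huv⟩ := line_of_waring σ (by
      intro F hF
      obtain ⟨d, r, -, ⟨c, ℓ, hc⟩, hdr⟩ := hS F hF
      refine ⟨r, d, fun j i => τ (ℓ j i), fun j => τ (c j), hdr, fun x => ?_⟩
      have h1 : eval₂ σ x F = eval₂ (τ : AlgebraicClosure K →+* ℂ) x
          (map (algebraMap K (AlgebraicClosure K)) F) := by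
        rw [eval₂_map, hτ]
      rw [h1, hc]
      rw [← coe_eval₂Hom, map_sum]
      refine Finset.sum_congr rfl fun j _ => ?_
      rw [map_mul, map_pow, map_sum]
      simp) f hf (fun z F hF => hfX z F hF) hne
    exact containsLine_of_complex σ u v a b hab huv

end main

end Pool.Agent.Work.MP_f82ddf_nt
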