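import Pool.Agent.Work.MP_f82ddf_nt.Defs

/-!
# Varieties of small Waring rank: definitions
-/

open MvPolynomial

namespace Pool.Agent.Work.MP_f82ddf_nt

/-- The form `F` of degree `d` has Waring rank at most `r` over the algebraic closure of `K`: it
is `∑ j, a_j * (ℓ_j) ^ d` for some constants `a_1, ..., a_r` and some linear forms
`ℓ_1, ..., ℓ_r`, with coefficients `ℓ j i`. -/
def WaringRankLE {K : Type*} [Field K] {n : ℕ} (F : MvPolynomial (Fin (n + 1)) K) (d r : ℕ) :
    Prop :=
  ∃ (a : Fin r → AlgebraicClosure K) (ℓ : Fin r → Fin (n + 1) → AlgebraicClosure K),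
    map (algebraMap K (AlgebraicClosure K)) F = ∑ j, C (a j) * (∑ i, C (ℓ j i) * X i) ^ d

/-- The variety given by `S` contains a line over the algebraic closure of `K`: all points
`s u + t v` lie on it, for some linearly independent vectors `u`, `v`. -/
def ContainsLine {K : Type*} [Field K] {n : ℕ} (S : Set (MvPolynomial (Fin (n + 1)) K)) : Prop :=
  ∃ u v : Fin (n + 1) → AlgebraicClosure K, LinearIndependent (AlgebraicClosure K) ![u, v] ∧
    ∀ F ∈ S, ∀ s t : AlgebraicClosure K, aeval (s • u + t • v) F = 0

end Pool.Agent.Work.MP_f82ddf_nt
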